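import Pool.Agent.H461.Q5R.Stm4

/-!
# Task S11 (helper339): counting the pairs `(l, b)` with a large radical
-/

open Polynomial
open scoped Classical

noncomputable section

namespace Q5R

open D5 Q5

namespace XR11

variable {F : Type} [Field F] [Fintype F] [CharP F 5]

omit [CharP F 5] in
lemma mem_POL (hB0 : D5.S_B0 F) {n : ℕ} {p : F[X]} :
    p ∈ POL F n ↔ ∀ i, n ≤ i → p.coeff i = 0 := by
  rw [hB0.1, degree_lt_iff_coeff_zero]

lemma natDegree_mem (hB0 : D5.S_B0 F) {n : ℕ} {a : F[X]} (h : a.natDegree < n) : a ∈ POL F n := by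
  rw [mem_POL hB0]
  intro i hi
  exact coeff_eq_zero_of_natDegree_lt (by omega)

lemma pos_of_mem (hB0 : D5.S_B0 F) {n : ℕ} {a : F[X]} (h : a ∈ POL F n) (h0 : a ≠ 0) : 1 ≤ n := by
  by_contra h1
  have h2 : n = 0 := by omega
  rw [h2, mem_POL hB0] at h
  exact h0 (Polynomial.ext fun i => by rw [h i (Nat.zero_le _), coeff_zero])

lemma C_mem (hB0 : D5.S_B0 F) {n : ℕ} {p : F[X]} (c : F) (h : p ∈ POL F n) :
    C c * p ∈ POL F n := by
  rw [mem_POL hB0] at h ⊢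
  intro i hi
  rw [coeff_C_mul, h i hi, mul_zero]

lemma AB_C (hB0 : D5.S_B0 F) {A A' : ℕ} {p : F[X] × F[X]} {c : F} (hc : c ≠ 0)
    (h : p ∈ ABR F A A') : (C c * p.1, C c * p.2) ∈ ABR F A A' := by
  unfold ABR at h ⊢
  rw [Finset.mem_filter, Finset.mem_product] at h ⊢
  obtain ⟨⟨h1, h2⟩, h3, h4⟩ := h
  have hC : (C c : F[X]) ≠ 0 := C_ne_zero.2 hc
  exact ⟨⟨C_mem hB0 c h1, C_mem hB0 c h2⟩, h3.imp (mul_ne_zero hC) (mul_ne_zero hC),
    h4.imp (mul_ne_zero hC) id⟩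

omit [CharP F 5] in
lemma PR_C {d₁ d₂ : ℕ} {b : F[X]} {ab p : F[X] × F[X]} (c : F)
    (h : p ∈ PR d₁ d₂ b ab.1 ab.2) : p ∈ PR d₁ d₂ b (C c * ab.1) (C c * ab.2) := by
  unfold PR at h ⊢
  rw [Finset.mem_filter] at h ⊢
  refine ⟨h.1, h.2.1, ?_⟩
  have e : p.1 ^ 5 * (C c * ab.1) + p.2 ^ 5 * (C c * ab.2) =
      (p.1 ^ 5 * ab.1 + p.2 ^ 5 * ab.2) * C c := by ring
  rw [e]
  exact h.2.2.mul_right _

/-- the pairs `(α, β)` -/
lemma key (hB0 : D5.S_B0 F) (hFR : D5.S_FR F) (hE4 : D5.S_E4 F) (hR4 : S_R4 F)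
    (hS8 : Q5.S_S8 F) {g d n j k : ℕ} {a : F[X]} (ha : a ∈ MON F n) (hn : 2 * n + j ≤ g)
    (hd : 1 ≤ d) {l : Fin g → F} {b : F[X]} (hb : b ∈ DEG F j) (hl : l ≠ 0) (hr : rr g l = d)
    (hBIG : BIGR g l (a ^ 2 * b) k) {p : F[X] × F[X]} (hp : p ∈ VP g l) :
    ∃ ab : F[X] × F[X], ab ∈ ABR F (3 * g + 3 - k - 5 * d) (3 * g + 3 - k - 5 * (g + 1 - d)) ∧
      p ∈ PR d (g + 1 - d) b ab.1 ab.2 := by
  obtain ⟨z, ⟨_, hk1, hz0, hzd, hLam⟩, hno⟩ := hBIG
  have hd2 : 2 * d ≤ g + 1 := by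
    have := hE4.2.2.1 g l
    rwa [hr] at this
  obtain ⟨hb0, hbd⟩ := (hB0.2.2.1 j b).1 hb
  obtain ⟨ham, had⟩ := (hB0.2.1 n a).1 ha
  have hval : Val g l (rr g l) (fr p.1) (fr p.2) := (Finset.mem_filter.1 hp).2
  have ha0 : a ^ 2 ≠ 0 := pow_ne_zero 2 ham.ne_zero
  have hw0 : a ^ 2 * b * z ≠ 0 := mul_ne_zero (mul_ne_zero ha0 hb0) hz0
  have hwd : (a ^ 2 * b * z).natDegree + k = 2 * n + j + (2 * g + 2) := by
    rw [natDegree_mul (mul_ne_zero ha0 hb0) hz0, natDegree_mul ha0 hb0, natDegree_pow, had, hbd]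
    omega
  have hw : a ^ 2 * b * z ∈ POL F (3 * g + 3 - k) := natDegree_mem hB0 (by omega)
  obtain ⟨α, β, hw2, hα, hβ⟩ := hR4 g l p.1 p.2 (by rw [hr]; exact hd) hval k _ (by omega)
    hw hLam
  rw [hr] at hα hβ
  have hcop : Cop d (g + 1 - d) p.1 p.2 := by
    have h1 := hval.1
    rw [hr] at h1
    exact (hFR.2.2.2.2.2.2.2 _ _ _ _).1 h1
  have hab0 : α ≠ 0 ∨ β ≠ 0 := by
    by_contra h0
    push Not at h0
    apply hw0
    rw [hw2, h0.1, h0.2, mul_zero, mul_zero, add_zero]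
  have hβ0 : β ≠ 0 ∨ 3 * g + 3 - k - 5 * d = 3 * g + 3 - k - 5 * (g + 1 - d) := by
    rcases Nat.lt_or_ge g (2 * d) with h2 | h2
    · right
      have : g + 1 - d = d := by omega
      rw [this]
    · left
      intro h0
      obtain ⟨c, _, hp1⟩ := hS8.2 g l hl (by rw [hr]; exact h2) p hp
      refine hno (by rw [hr]; exact h2) ⟨C (c ^ 5) * α, ?_, ?_⟩
      · rw [hr]
        exact C_mem hB0 _ hα
      · rw [hw2, h0, hp1, mul_zero, add_zero, mul_pow, C_pow]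
        ring
  refine ⟨(α, β), ?_, ?_⟩
  · unfold ABR
    exact Finset.mem_filter.2 ⟨Finset.mem_product.2 ⟨hα, hβ⟩, hab0, hβ0⟩
  · unfold PR
    refine Finset.mem_filter.2 ⟨Finset.mem_product.2 ⟨natDegree_mem hB0 ?_,
      natDegree_mem hB0 ?_⟩, hcop, ?_⟩
    · have := hcop.2.1
      omega
    · have := hcop.2.2.1
      omega
    · show b ∣ p.1 ^ 5 * α + p.2 ^ 5 * β
      rw [← hw2]
      exact ⟨a ^ 2 * z, by ring⟩

lemma five_le : (5 : ℝ) ≤ qq F := by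
  have h1 : ((Fintype.card F : ℕ) : F) = 0 := FiniteField.cast_card_eq_zero F
  have h2 : 5 ∣ Fintype.card F := (CharP.cast_eq_zero_iff F 5 _).1 h1
  have h3 : 5 ≤ Fintype.card F := Nat.le_of_dvd Fintype.card_pos h2
  unfold qq
  exact_mod_cast h3

/-- the final computation -/
lemma fin_calc {q N V T : ℝ} {m g A k : ℕ} (hq : 5 ≤ q)
    (h1 : N * q ^ (g + 4) * (q - 1) ≤ 2 * q ^ m * V) (h2 : V ≤ T)
    (h3 : T ≤ q * (2 * q ^ (g + 4 + A))) (hA : A + 2 * k = g + 1) :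
    N * q ^ (2 * k) * q ^ 4 ≤ 5 * q ^ (m + g + 1 + 4) := by
  have hq0 : 0 < q := by linarith
  have hX : 0 < q ^ g * (q - 1) := mul_pos (pow_pos hq0 _) (by linarith)
  refine le_of_mul_le_mul_right ?_ hX
  have e1 : N * q ^ (g + 4) * (q - 1) ≤ 2 * q ^ m * (q * (2 * q ^ (g + 4 + A))) :=
    h1.trans (mul_le_mul_of_nonneg_left (h2.trans h3) (by positivity))
  have e2 : q ^ (m + g + 1 + 4) * q ^ g = q ^ m * q ^ (g + 4 + A) * q ^ (2 * k) := by
    rw [← pow_add, ← pow_add, ← pow_add]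
    congr 1
    omega
  have hY : 0 ≤ q ^ m * q ^ (g + 4 + A) * q ^ (2 * k) := by positivity
  calc N * q ^ (2 * k) * q ^ 4 * (q ^ g * (q - 1))
      = (N * q ^ (g + 4) * (q - 1)) * q ^ (2 * k) := by ring
    _ ≤ (2 * q ^ m * (q * (2 * q ^ (g + 4 + A)))) * q ^ (2 * k) :=
        mul_le_mul_of_nonneg_right e1 (by positivity)
    _ = 4 * q * (q ^ m * q ^ (g + 4 + A) * q ^ (2 * k)) := by ring
    _ ≤ 5 * (q - 1) * (q ^ m * q ^ (g + 4 + A) * q ^ (2 * k)) :=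
        mul_le_mul_of_nonneg_right (by linarith) hY
    _ = 5 * q ^ (m + g + 1 + 4) * (q ^ g * (q - 1)) := by
        rw [← e2]
        ring

end XR11

open XR11 in
theorem p_R11 (F : Type) [Field F] [Fintype F] [CharP F 5] (hB0 : D5.S_B0 F) (hFR : D5.S_FR F)
    (hE4 : D5.S_E4 F) (hP0b : D5.S_P0b F) (hR4 : S_R4 F) (hR7 : S_R7 F)
    (hS8 : Q5.S_S8 F) (hS9 : Q5.S_S9 F) : S_R11 F := by
  intro g d n j k a ha hn hk hd
  set S : Finset ((Fin g → F) × F[X]) :=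
    ((Finset.univ : Finset (Fin g → F)) ×ˢ DEG F j).filter (fun p => p.1 ≠ 0 ∧ rr g p.1 = d ∧
      Squarefree p.2 ∧ BIGR g p.1 (a ^ 2 * p.2) k) with hS
  have hq5 : 5 ≤ qq F := five_le
  have hq : 0 < qq F := by linarith
  rcases S.eq_empty_or_nonempty with hSe | ⟨t₀, ht₀⟩
  · rw [hSe]
    simp only [Finset.card_empty, Nat.cast_zero, zero_mul]
    positivity
  have hmem : ∀ t ∈ S, t.2 ∈ DEG F j ∧ t.1 ≠ 0 ∧ rr g t.1 = d ∧ Squarefree t.2 ∧
      BIGR g t.1 (a ^ 2 * t.2) k := by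
    intro t ht
    rw [hS, Finset.mem_filter, Finset.mem_product] at ht
    exact ⟨ht.1.2, ht.2⟩
  have hd2 : 2 * d ≤ g + 1 := by
    have h := hE4.2.2.1 g t₀.1
    rw [(hmem t₀ ht₀).2.2.1] at h
    exact h
  obtain ⟨A, hA⟩ : ∃ A : ℕ, A = 3 * g + 3 - k - 5 * d := ⟨_, rfl⟩
  obtain ⟨A', hA'⟩ : ∃ A' : ℕ, A' = 3 * g + 3 - k - 5 * (g + 1 - d) := ⟨_, rfl⟩
  have hkey : ∀ (t : (Fin g → F) × F[X]) (p : F[X] × F[X]), ∃ ab : F[X] × F[X],
      t ∈ S → p ∈ VP g t.1 → ab ∈ ABR F A A' ∧ p ∈ PR d (g + 1 - d) t.2 ab.1 ab.2 := by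
    intro t p
    by_cases ht : t ∈ S ∧ p ∈ VP g t.1
    · obtain ⟨h1, h2, h3, _, h5⟩ := hmem t ht.1
      obtain ⟨ab, h6, h7⟩ := key hB0 hFR hE4 hR4 hS8 ha hn hd h1 h2 h3 h5 ht.2
      rw [← hA, ← hA'] at h6
      exact ⟨ab, fun _ _ => ⟨h6, h7⟩⟩
    · exact ⟨0, fun h1 h2 => absurd ⟨h1, h2⟩ ht⟩
  choose ab hab using hkey
  -- the numbers
  have hA1 : 1 ≤ A' := by
    obtain ⟨_, h2, h3, _⟩ := hmem t₀ ht₀
    have h4 := (hab t₀ _ ht₀ (hS8.1 g t₀.1 h2).1).1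
    unfold ABR at h4
    rw [Finset.mem_filter, Finset.mem_product] at h4
    obtain ⟨⟨h5, h6⟩, h7, h8⟩ := h4
    rcases h8 with h8 | h8
    · exact pos_of_mem hB0 h6 h8
    · rcases h7 with h7 | h7
      · rw [← h8]
        exact pos_of_mem hB0 h5 h7
      · exact pos_of_mem hB0 h6 h7
  have hAA : A + A' + 2 * k = g + 1 := by omega
  have hAl : A' ≤ A := by omega
  -- the injection
  let U : Finset F := Finset.univ.erase 0
  have hU : U.card = Fintype.card F - 1 := by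
    rw [Finset.card_erase_of_mem (Finset.mem_univ _), Finset.card_univ]
  let D : Finset (Σ _ : (Fin g → F) × F[X], (F[X] × F[X]) × F) :=
    S.sigma fun t => VP g t.1 ×ˢ U
  let T : Finset (Σ _ : F[X], Σ _ : F[X] × F[X], Σ _ : F[X] × F[X], (Fin g → F)) :=
    ((DEG F j).filter (fun b => Squarefree b)).sigma fun b => (ABR F A A').sigma fun r =>
      (PR d (g + 1 - d) b r.1 r.2).sigma fun p =>
        (Finset.univ : Finset (Fin g → F)).filter (fun l => Val g l d (fr p.1) (fr p.2))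
  let φ : (Σ _ : (Fin g → F) × F[X], (F[X] × F[X]) × F) →
      (Σ _ : F[X], Σ _ : F[X] × F[X], Σ _ : F[X] × F[X], (Fin g → F)) := fun u =>
    ⟨u.1.2, (C u.2.2 * (ab u.1 u.2.1).1, C u.2.2 * (ab u.1 u.2.1).2), u.2.1, u.1.1⟩
  have hφT : ∀ u ∈ D, φ u ∈ T := by
    rintro ⟨t, p, c⟩ hu
    obtain ⟨ht, hpc⟩ := Finset.mem_sigma.1 hu
    replace ht : t ∈ S := ht
    obtain ⟨hp, hc⟩ := Finset.mem_product.1 hpc
    replace hp : p ∈ VP g t.1 := hp
    replace hc : c ∈ U := hc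
    have hc0 : c ≠ 0 := (Finset.mem_erase.1 hc).1
    obtain ⟨h1, h2, h3, h4, h5⟩ := hmem t ht
    obtain ⟨h6, h7⟩ := hab t p ht hp
    have h9 : Val g t.1 d (fr p.1) (fr p.2) := by
      have := (Finset.mem_filter.1 hp).2
      rwa [h3] at this
    exact Finset.mem_sigma.2 ⟨Finset.mem_filter.2 ⟨h1, h4⟩, Finset.mem_sigma.2 ⟨AB_C hB0 hc0 h6,
      Finset.mem_sigma.2 ⟨PR_C c h7, Finset.mem_filter.2 ⟨Finset.mem_univ _, h9⟩⟩⟩⟩
  have hinj : Set.InjOn φ D := by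
    rintro ⟨⟨l, b⟩, p, c⟩ hu ⟨⟨l', b'⟩, p', c'⟩ hu' h
    obtain ⟨ht, hpc⟩ := Finset.mem_sigma.1 (Finset.mem_coe.1 hu)
    have ht' : (l, b) ∈ S := ht
    obtain ⟨hp, -⟩ := Finset.mem_product.1 hpc
    have hp' : p ∈ VP g l := hp
    have h1 : b = b' := congrArg (fun u => u.1) h
    have h2 : l = l' := congrArg (fun u => u.2.2.2) h
    have h3 : p = p' := congrArg (fun u => u.2.2.1) h
    subst h1
    subst h2
    subst h3
    have h4 : C c * (ab (l, b) p).1 = C c' * (ab (l, b) p).1 := congrArg (fun u => u.2.1.1) h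
    have h5 : C c * (ab (l, b) p).2 = C c' * (ab (l, b) p).2 := congrArg (fun u => u.2.1.2) h
    have h6 := (hab (l, b) p ht' hp').1
    unfold ABR at h6
    have h7 := (Finset.mem_filter.1 h6).2.1
    have h8 : c = c' := by
      rcases h7 with h7 | h7
      · exact C_injective (mul_right_cancel₀ h7 h4)
      · exact C_injective (mul_right_cancel₀ h7 h5)
    rw [h8]
  have hcard := Finset.card_le_card_of_injOn φ hφT hinj
  have hD : (D.card : ℝ) = (∑ t ∈ S, ((VP g t.1).card : ℝ)) * (qq F - 1) := by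
    have h1 : D.card = ∑ t ∈ S, (VP g t.1).card * (Fintype.card F - 1) := by
      simp only [D, Finset.card_sigma, Finset.card_product, hU]
    rw [h1]
    push_cast [Nat.cast_sub (Fintype.card_pos (α := F) : 1 ≤ Fintype.card F)]
    rw [← Finset.sum_mul]
    rfl
  have hV : (S.card : ℝ) * qq F ^ (g + 4) * (qq F - 1) ≤
      2 * qq F ^ (min (2 * d) g) * (D.card : ℝ) := by
    have h1 : (S.card : ℝ) * qq F ^ (g + 4) ≤
        2 * qq F ^ (min (2 * d) g) * ∑ t ∈ S, ((VP g t.1).card : ℝ) := by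
      rw [← nsmul_eq_mul, ← Finset.sum_const, Finset.mul_sum]
      refine Finset.sum_le_sum fun t ht => ?_
      obtain ⟨_, h2, h3, _⟩ := hmem t ht
      have h4 := hS9 g t.1 h2
      rwa [h3] at h4
    rw [hD, ← mul_assoc]
    exact mul_le_mul_of_nonneg_right h1 (by linarith)
  have hDT : (D.card : ℝ) ≤ (T.card : ℝ) := by exact_mod_cast hcard
  have hT : (T.card : ℝ) ≤ qq F * ∑ b ∈ (DEG F j).filter (fun b => Squarefree b),
      ∑ r ∈ ABR F A A', ((PR d (g + 1 - d) b r.1 r.2).card : ℝ) := by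
    have h1 : T.card = ∑ b ∈ (DEG F j).filter (fun b => Squarefree b), ∑ r ∈ ABR F A A',
        ∑ p ∈ PR d (g + 1 - d) b r.1 r.2,
          ((Finset.univ : Finset (Fin g → F)).filter
            (fun l => Val g l d (fr p.1) (fr p.2))).card := by
      simp only [T, Finset.card_sigma]
    have h2 : T.card ≤ ∑ b ∈ (DEG F j).filter (fun b => Squarefree b), ∑ r ∈ ABR F A A',
        (PR d (g + 1 - d) b r.1 r.2).card * Fintype.card F := by
      rw [h1]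
      refine Finset.sum_le_sum fun b _ => Finset.sum_le_sum fun r _ => ?_
      rw [← smul_eq_mul]
      refine Finset.sum_le_card_nsmul _ _ _ fun p _ => ?_
      exact hP0b.1 g d _ _ hd hd2
    have h3 : (T.card : ℝ) ≤ ((∑ b ∈ (DEG F j).filter (fun b => Squarefree b),
        ∑ r ∈ ABR F A A', (PR d (g + 1 - d) b r.1 r.2).card * Fintype.card F : ℕ) : ℝ) := by
      exact_mod_cast h2
    refine h3.trans (le_of_eq ?_)
    push_cast
    simp only [← Finset.sum_mul]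
    rw [mul_comm]
    rfl
  have h71 := hR7 g d (g + 1 - d) j A A' (by omega) hd (by omega) (by omega) hAl
  have hq4 : 0 < qq F ^ 4 := pow_pos hq _
  have h1 := fin_calc (q := qq F) (N := (S.card : ℝ)) (V := (D.card : ℝ)) (T := (T.card : ℝ))
      (m := min (2 * d) g) (g := g) (A := A + A') (k := k) hq5 hV hDT
      (hT.trans (mul_le_mul_of_nonneg_left (by rw [← add_assoc]; exact h71) hq.le)) hAA
  refine le_of_mul_le_mul_right (h1.trans (le_of_eq ?_)) hq4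
  rw [pow_add (qq F) (min (2 * d) g + g + 1) 4]
  ring

end Q5R
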