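import Pool.Agent.H461.Q5R.Stm4

/-!
# Task R2 (helper379; edit of `Q5.S2` of helper339): the exact count of the solutions by characters, real case
-/

open Polynomial
open scoped Classical

noncomputable section

namespace Q5R

open D5 Q5

namespace XR2

variable {F : Type} [Field F] [Fintype F]

omit [Fintype F] in
theorem map_sum' {ι : Type} (ψ : AddChar F ℂ) (s : Finset ι) (f : ι → F) :
    ψ (∑ i ∈ s, f i) = ∏ i ∈ s, ψ (f i) := by
  induction s using Finset.induction_on with
  | empty => rw [Finset.sum_empty, Finset.prod_empty, AddChar.map_zero_eq_one]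
  | insert a s ha ih => rw [Finset.sum_insert ha, Finset.prod_insert ha, AddChar.map_add_eq_mul, ih]

/-- orthogonality of the additive characters of `F ^ g` -/
theorem orth {ψ : AddChar F ℂ} (hψ : ψ ≠ 1) (g : ℕ) (A : Fin g → F) :
    ∑ l : Fin g → F, ψ (∑ j, l j * A j) =
      if ∀ j, A j = 0 then (Fintype.card F : ℂ) ^ g else 0 := by
  have h1 : ∀ l : Fin g → F, ψ (∑ j, l j * A j) = ∏ j, ψ (l j * A j) := fun l =>
    map_sum' ψ Finset.univ fun j => l j * A j
  have h2 : ∑ l : Fin g → F, ψ (∑ j, l j * A j) = ∏ j, ∑ t : F, ψ (t * A j) := by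
    rw [Finset.prod_univ_sum (fun _ => Finset.univ) (fun j t => ψ (t * A j)),
      Fintype.piFinset_univ]
    exact Finset.sum_congr rfl fun l _ => h1 l
  have hprim : ψ.IsPrimitive := AddChar.IsPrimitive.of_ne_one hψ
  have h3 : ∀ j, ∑ t : F, ψ (t * A j) = if A j = 0 then (Fintype.card F : ℂ) else 0 := by
    intro j
    rw [AddChar.sum_mulShift (A j) hprim]
    split_ifs
    · rfl
    · exact Nat.cast_zero
  rw [h2]
  simp_rw [h3]
  split_ifs with h
  · rw [Finset.prod_congr rfl (fun j _ => if_pos (h j)), Finset.prod_const, Finset.card_univ,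
      Fintype.card_fin]
  · push Not at h
    obtain ⟨j, hj⟩ := h
    exact Finset.prod_eq_zero (Finset.mem_univ j) (if_neg hj)


omit [Fintype F] in
/-- the coefficients beyond the range vanish -/
theorem coeff_big {g : ℕ} {f v : F[X]} (hf : f.natDegree = 2 * g + 2) (hv : v.natDegree ≤ g) {j : ℕ}
    (hj : g < j) : (f ^ 2 * v).coeff (5 * j + 4) = (v.coeff j) ^ 5 := by
  have h1 : v.coeff j = 0 := coeff_eq_zero_of_natDegree_lt (lt_of_le_of_lt hv hj)
  rw [h1, zero_pow (by norm_num)]
  apply coeff_eq_zero_of_natDegree_lt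
  have h3 : (f ^ 2 * v).natDegree ≤ 2 * (2 * g + 2) + v.natDegree := by
    refine natDegree_mul_le.trans ?_
    have h4 : (f ^ 2).natDegree ≤ 2 * f.natDegree := natDegree_pow_le
    rw [hf] at h4
    omega
  omega

omit [Fintype F] in
/-- the top coefficient -/
theorem coeff_top {g : ℕ} {f v : F[X]} (hm : f.Monic) (hf : f.natDegree = 2 * g + 2)
    (hv : v.natDegree ≤ g) : (f ^ 2 * v).coeff (5 * g + 4) = v.coeff g := by
  have h1 : (f ^ 2).natDegree = 4 * g + 4 := by
    rw [hm.natDegree_pow, hf]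
    ring
  have h2 : (f ^ 2).coeff (4 * g + 4) = 1 := by
    rw [← h1]
    exact (hm.pow 2).coeff_natDegree
  have h3 : (f ^ 2 * v).coeff (4 * g + 4 + g) = (f ^ 2).coeff (4 * g + 4) * v.coeff g :=
    coeff_mul_add_eq_of_natDegree_le (le_of_eq h1) hv
  rw [h2, one_mul] at h3
  rw [← h3]
  congr 1
  ring

end XR2

open XR2 in
theorem p_R2 (F : Type) [Field F] [Fintype F] [CharP F 5] (hB0 : D5.S_B0 F) (hB1 : D5.S_B1 F)
    (hR1 : S_R1 F) : S_R2 F := by
  intro g v hv
  obtain ⟨hP, hM1, -, -, hM, -⟩ := hB0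
  obtain ⟨-, -, hS, -, -⟩ := hB1
  have hvn : v.natDegree ≤ g := by
    have hvd : v.degree < ((g + 1 : ℕ) : WithBot ℕ) := (hP (g + 1) v).1 hv
    by_cases hv0 : v = 0
    · rw [hv0, natDegree_zero]
      exact Nat.zero_le g
    · have h2 : v.natDegree < g + 1 := (natDegree_lt_iff_degree_lt hv0).2 hvd
      omega
  refine ⟨fun hne => ?_, fun heq => ?_⟩
  · rw [Finset.filter_eq_empty_iff]
    intro f hf hsol
    have h1 := (hM1 _ f).1 hf
    have h2 := (hS f v).1 hsol g
    rw [coeff_top h1.1 h1.2 hvn] at h2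
    exact hne h2.symm
  obtain ⟨ψ, hψ⟩ : ∃ ψ : AddChar F ℂ, ψ ≠ 1 := by
    obtain ⟨ψ, hψ⟩ := (AddChar.exists_apply_ne_zero (α := F) (a := 1)).2 one_ne_zero
    exact ⟨ψ, fun h => hψ (by rw [h]; rfl)⟩
  set A : F[X] → Fin g → F := fun f j =>
    (f ^ 2 * v).coeff (5 * (j : ℕ) + 4) - (v.coeff (j : ℕ)) ^ 5 with hA
  set T : Finset F[X] := (MON F (2 * g + 2)).filter (fun f => ∀ j, A f j = 0) with hT
  have hset : (MON F (2 * g + 2)).filter (fun f => IsSol f v) = T := by
    rw [hT]
    apply Finset.filter_congr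
    intro f hf
    constructor
    · intro h j
      exact sub_eq_zero.2 ((hS f v).1 h j)
    · intro h
      rw [hS f v]
      intro j
      rcases lt_trichotomy j g with hj | hj | hj
      · exact sub_eq_zero.1 (h ⟨j, hj⟩)
      · rw [hj, coeff_top ((hM1 _ f).1 hf).1 ((hM1 _ f).1 hf).2 hvn, heq]
      · exact coeff_big ((hM1 _ f).1 hf).2 hvn hj
  set G : (Fin g → F) → ℂ := fun l => ∑ f ∈ MON F (2 * g + 2), ψ (∑ j, l j * A f j) with hG
  have hcount : (Fintype.card F : ℂ) ^ g * (T.card : ℂ) = ∑ l : Fin g → F, G l := by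
    simp only [hG]
    rw [Finset.sum_comm, Finset.sum_congr rfl (fun f _ => orth hψ g (A f)), ← Finset.sum_filter,
      Finset.sum_const, nsmul_eq_mul, mul_comm]
  have hterm : ∀ l : Fin g → F, ‖G l‖ =
      ‖∑ f ∈ MON F (2 * g + 2), ψ (Lam g l (f ^ 2 * v))‖ := by
    intro l
    have h1 : ∀ f : F[X], ψ (∑ j, l j * A f j) =
        ψ (Lam g l (f ^ 2 * v)) * ψ (-(∑ j : Fin g, l j * v.coeff (j : ℕ) ^ 5)) := by
      intro f
      rw [← AddChar.map_add_eq_mul]
      congr 1
      unfold Lam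
      rw [← sub_eq_add_neg, ← Finset.sum_sub_distrib]
      refine Finset.sum_congr rfl fun j _ => ?_
      simp only [hA]
      ring
    simp only [hG]
    rw [Finset.sum_congr rfl (fun f _ => h1 f), ← Finset.sum_mul, norm_mul, AddChar.norm_apply,
      mul_one]
  have hG0 : G 0 = (Fintype.card F : ℂ) ^ (2 * g + 2) := by
    have h1 : ∀ f : F[X], ψ (∑ j, (0 : Fin g → F) j * A f j) = 1 := by
      intro f
      have h2 : ∑ j, (0 : Fin g → F) j * A f j = 0 :=
        Finset.sum_eq_zero fun j _ => by rw [Pi.zero_apply, zero_mul]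
      rw [h2, AddChar.map_zero_eq_one]
    simp only [hG]
    rw [Finset.sum_congr rfl (fun f _ => h1 f), Finset.sum_const, nsmul_eq_mul, mul_one, hM]
    push_cast
    rfl
  have hsplit := Finset.sum_filter_add_sum_filter_not (Finset.univ : Finset (Fin g → F))
    (fun l => l ≠ 0) G
  have hsing : (Finset.univ : Finset (Fin g → F)).filter (fun l => ¬ l ≠ 0) = {0} := by
    ext l
    simp only [Finset.mem_filter, Finset.mem_univ, true_and, not_not, Finset.mem_singleton]
  rw [hsing, Finset.sum_singleton, hG0] at hsplit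
  have hdiff : ((qq F ^ g * (T.card : ℝ) - qq F ^ (2 * g + 2) : ℝ) : ℂ) =
      ∑ l ∈ (Finset.univ : Finset (Fin g → F)).filter (fun l => l ≠ 0), G l := by
    unfold qq
    push_cast
    rw [hcount, ← hsplit]
    ring
  rw [hset, ← Real.norm_eq_abs, ← Complex.norm_real, hdiff]
  refine (norm_sum_le _ _).trans (Finset.sum_le_sum fun l _ => ?_)
  rw [hterm l]
  exact (le_abs_self _).trans (Real.abs_le_sqrt (hR1 ψ hψ g l v))

end Q5R
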