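import Pool.Agent.H461.Q5R.Stm4

/-!
# R3 : the structure of the radical with EXR (edit of Q5/S3)
-/

open Polynomial
open scoped Classical

noncomputable section

namespace Q5R

open D5 Q5

namespace XR3

variable {F : Type} [Field F]

/-- `Lam` as a linear map. -/
def LamL (g : ℕ) (l : Fin g → F) : F[X] →ₗ[F] F where
  toFun := Lam g l
  map_add' P Q := by
    unfold Lam
    rw [← Finset.sum_add_distrib]
    refine Finset.sum_congr rfl (fun j _ => ?_)
    rw [coeff_add, mul_add]
  map_smul' c P := by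
    unfold Lam
    rw [RingHom.id_apply, smul_eq_mul, Finset.mul_sum]
    refine Finset.sum_congr rfl (fun j _ => ?_)
    rw [coeff_smul, smul_eq_mul]
    ring

theorem LamL_apply (g : ℕ) (l : Fin g → F) (P : F[X]) : LamL g l P = Lam g l P := rfl

theorem lam_zero (g : ℕ) (l : Fin g → F) (w : F[X]) (N : ℕ) (h : ∀ i, i < N → Lam g l (w * X ^ i) = 0)
    (P : F[X]) (hP : P.degree < N) : Lam g l (w * P) = 0 := by
  have h1 : P = ∑ i : Fin N, C (P.coeff (i : ℕ)) * X ^ (i : ℕ) := by
    rw [Fin.sum_univ_eq_sum_range (fun i => C (P.coeff i) * X ^ i) N]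
    by_cases h0 : P = 0
    · simp [h0]
    · exact P.as_sum_range_C_mul_X_pow' ((natDegree_lt_iff_degree_lt h0).2 hP)
  have h2 : w * P = ∑ i : Fin N, P.coeff (i : ℕ) • (w * X ^ (i : ℕ)) := by
    conv_lhs => rw [h1]
    rw [Finset.mul_sum]
    refine Finset.sum_congr rfl (fun j _ => ?_)
    rw [smul_eq_C_mul]
    ring
  rw [← LamL_apply, h2, map_sum]
  refine Finset.sum_eq_zero (fun j _ => ?_)
  rw [map_smul, LamL_apply, h j j.2, smul_zero]

theorem deg_mul {P Q : F[X]} {a b c : ℕ} (hP : P.degree < a) (hQ : Q.degree < b) (h : a + b ≤ c + 1) :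
    (P * Q).degree < c := by
  by_cases hP0 : P = 0
  · rw [hP0, zero_mul, degree_zero]
    exact WithBot.bot_lt_coe _
  by_cases hQ0 : Q = 0
  · rw [hQ0, mul_zero, degree_zero]
    exact WithBot.bot_lt_coe _
  rw [← natDegree_lt_iff_degree_lt hP0] at hP
  rw [← natDegree_lt_iff_degree_lt hQ0] at hQ
  rw [← natDegree_lt_iff_degree_lt (mul_ne_zero hP0 hQ0), natDegree_mul hP0 hQ0]
  omega

end XR3

open XR3 in
theorem p_R3 (F : Type) [Field F] [Fintype F] [CharP F 5] (hB0 : D5.S_B0 F) (hRG : S_RG F) : S_R3 F := by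
  have h0 := hB0.1
  have hc := hB0.2.2.2.1
  have hq : 1 < Fintype.card F := Fintype.one_lt_card
  intro g l v hv hv0 hEX
  obtain ⟨k, z, hK, hk, hz0, hGP⟩ := hRG g l v hv hv0
  rcases Nat.eq_zero_or_pos k with rfl | hk1
  · left
    rw [hK, pow_zero]
  right
  obtain ⟨hz, hvan⟩ := hGP hk1
  rw [h0] at hz
  have hzd : z.natDegree < 2 * g + 3 - k := (natDegree_lt_iff_degree_lt hz0).2 hz
  have hvan' : ∀ i, i < 2 * g + 2 + k → Lam g l (v * z * X ^ i) = 0 := by
    intro i hi
    rcases Nat.lt_or_ge i (2 * g + 1 + k) with h1 | h1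
    · exact hvan i h1
    have hi' : i = (k - 1) + (2 * g + 2) := by omega
    have hd : (z * X ^ (k - 1)).degree < ((2 * g + 2 : ℕ) : WithBot ℕ) := by
      refine deg_mul (b := k) hz ?_ (by omega)
      rw [degree_X_pow]
      exact_mod_cast (by omega : k - 1 < k)
    have h2 := hEX (z * X ^ (k - 1)) ((h0 _ _).2 hd) (fun y hy => by
      rw [h0] at hy
      have h3 : v * (z * X ^ (k - 1)) * y = v * z * (X ^ (k - 1) * y) := by ring
      rw [h3]
      refine lam_zero g l (v * z) (2 * g + 1 + k) hvan _ ?_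
      refine deg_mul (a := k) ?_ hy (by omega)
      rw [degree_X_pow]
      exact_mod_cast (by omega : k - 1 < k))
    rw [hi', pow_add]
    have h4 : v * z * (X ^ (k - 1) * X ^ (2 * g + 2)) = v * (z * X ^ (k - 1)) * X ^ (2 * g + 2) := by ring
    rw [h4]
    exact h2
  refine ⟨k, z, hK, hk1, hz0, ?_, hvan'⟩
  by_contra hne
  have hlt : z.natDegree + k < 2 * g + 2 := by omega
  -- too many elements of the radical
  obtain ⟨Z, hZ, hZm⟩ : ∃ Z : Finset F[X], KR g l v = Z.card ∧
      ∀ x, x ∈ Z ↔ x ∈ POL F (2 * g + 2) ∧ ∀ y ∈ POL F (2 * g + 2), Lam g l (v * x * y) = 0 := by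
    refine ⟨_, rfl, fun x => ?_⟩
    simp only [Finset.mem_filter]
  have hsub : ((POL F (k + 1)).image (fun P => z * P)) ⊆ Z := by
    intro x hx
    obtain ⟨P, hP, rfl⟩ := Finset.mem_image.1 hx
    rw [h0] at hP
    rw [hZm, h0]
    have hz' : z.degree < ((z.natDegree + 1 : ℕ) : WithBot ℕ) :=
      (natDegree_lt_iff_degree_lt hz0).1 (Nat.lt_succ_self _)
    refine ⟨deg_mul hz' hP (by omega), fun y hy => ?_⟩
    rw [h0] at hy
    have h3 : v * (z * P) * y = v * z * (P * y) := by ring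
    rw [h3]
    exact lam_zero g l (v * z) (2 * g + 2 + k) hvan' _ (deg_mul hP hy (by omega))
  have hcard := Finset.card_le_card hsub
  have hinj : Function.Injective (fun P : F[X] => z * P) := fun P Q h => mul_left_cancel₀ hz0 h
  have hcard2 : Fintype.card F ^ (k + 1) ≤ KR g l v := by
    rw [← hc (k + 1), ← Finset.card_image_of_injective (POL F (k + 1)) hinj, hZ]
    exact hcard
  rw [hK] at hcard2
  have := (Nat.pow_le_pow_iff_right hq).1 hcard2
  omega

end Q5R
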