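import Pool.Agent.H461.Q5R.Stm4

/-!
# Q5R, R7: summation of Q over `b` and the pairs of `ABR` (edit of Q5/S7, by helper799)
-/

open Polynomial
open scoped Classical

noncomputable section

namespace Q5R

open D5 Q5

namespace XR7

variable {F : Type} [Field F] [Fintype F]

/-- indicator of divisibility -/
def ind (m x : F[X]) : ℝ := if m ∣ x then 1 else 0

/-- indicator of divisibility of both members -/
def indp (m : F[X]) (p : F[X] × F[X]) : ℝ := if m ∣ p.1 ∧ m ∣ p.2 then 1 else 0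

omit [Fintype F] in
theorem ind_nonneg (m x : F[X]) : 0 ≤ ind m x := by
  unfold ind
  split_ifs <;> norm_num

omit [Fintype F] in
theorem indp_nonneg (m : F[X]) (p : F[X] × F[X]) : 0 ≤ indp m p := by
  unfold indp
  split_ifs <;> norm_num

omit [Fintype F] in
theorem sum_ind (m : F[X]) (S : Finset F[X]) :
    ∑ x ∈ S, ind m x = ((S.filter (fun x => m ∣ x)).card : ℝ) := by
  unfold ind
  rw [Finset.sum_boole]

omit [Fintype F] in
theorem sum_indp (m : F[X]) (S : Finset (F[X] × F[X])) :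
    ∑ p ∈ S, indp m p = ((S.filter (fun p => m ∣ p.1 ∧ m ∣ p.2)).card : ℝ) := by
  unfold indp
  rw [Finset.sum_boole]

theorem card_mult (hP : ∀ n (g : F[X]), g ∈ POL F n ↔ g.degree < n)
    (hc : ∀ n, (POL F n).card = Fintype.card F ^ n) (m : F[X]) (hm : m.Monic) (n : ℕ) :
    ((POL F n).filter (fun x => m ∣ x)).card ≤ Fintype.card F ^ (n - m.natDegree) := by
  have hsub : (POL F n).filter (fun x => m ∣ x) ⊆
      (POL F (n - m.natDegree)).image (fun y => m * y) := by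
    intro x hx
    rw [Finset.mem_filter, hP] at hx
    obtain ⟨h1, y, rfl⟩ := hx
    rw [Finset.mem_image]
    refine ⟨y, ?_, rfl⟩
    rw [hP]
    by_cases hy : y = 0
    · rw [hy, degree_zero]
      exact WithBot.bot_lt_coe _
    · have hmy : m * y ≠ 0 := mul_ne_zero hm.ne_zero hy
      have h2 : (m * y).natDegree < n := (natDegree_lt_iff_degree_lt hmy).2 h1
      rw [natDegree_mul hm.ne_zero hy] at h2
      exact (natDegree_lt_iff_degree_lt hy).1 (by omega)
  calc ((POL F n).filter (fun x => m ∣ x)).card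
      ≤ ((POL F (n - m.natDegree)).image (fun y => m * y)).card := Finset.card_le_card hsub
    _ ≤ (POL F (n - m.natDegree)).card := Finset.card_image_le
    _ = Fintype.card F ^ (n - m.natDegree) := hc _

theorem sum_ind_le (hP : ∀ n (g : F[X]), g ∈ POL F n ↔ g.degree < n)
    (hc : ∀ n, (POL F n).card = Fintype.card F ^ n) (m : F[X]) (hm : m.Monic) (n : ℕ)
    (S : Finset F[X]) (hS : S ⊆ POL F n) :
    ∑ x ∈ S, ind m x ≤ qq F ^ (n - m.natDegree) := by
  rw [sum_ind]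
  have h1 : (S.filter (fun x => m ∣ x)).card ≤ Fintype.card F ^ (n - m.natDegree) :=
    (Finset.card_le_card (Finset.filter_subset_filter _ hS)).trans (card_mult hP hc m hm n)
  unfold qq
  exact_mod_cast h1

theorem swap {ι κ κ' : Type} (S₁ : Finset κ) (S₂ : Finset κ') (I : Finset ι) (c : ι → ℝ)
    (f : ι → κ → ℝ) (h : ι → κ' → ℝ) :
    ∑ b ∈ S₁, ∑ p ∈ S₂, ∑ x ∈ I, c x * (f x b * h x p) =
      ∑ x ∈ I, c x * ((∑ b ∈ S₁, f x b) * ∑ p ∈ S₂, h x p) := by
  have e1 : ∀ b, ∑ p ∈ S₂, ∑ x ∈ I, c x * (f x b * h x p) =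
      ∑ x ∈ I, c x * (f x b * ∑ p ∈ S₂, h x p) := by
    intro b
    rw [Finset.sum_comm]
    refine Finset.sum_congr rfl fun x _ => ?_
    rw [Finset.mul_sum, Finset.mul_sum]
  have e3 : ∑ b ∈ S₁, ∑ x ∈ I, c x * (f x b * ∑ p ∈ S₂, h x p) =
      ∑ x ∈ I, c x * ((∑ b ∈ S₁, f x b) * ∑ p ∈ S₂, h x p) := by
    rw [Finset.sum_comm]
    refine Finset.sum_congr rfl fun x _ => ?_
    rw [← Finset.mul_sum, ← Finset.sum_mul]
  simp only [e1]
  exact e3

theorem geom {q : ℝ} (hq : 5 ≤ q) (M : ℕ) : ∑ i ∈ Finset.range M, (1 / q) ^ i ≤ 5 / 4 := by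
  have h0 : 0 ≤ 1 / q := by positivity
  have h1 : 1 / q ≤ 1 / 5 := one_div_le_one_div_of_le (by norm_num) hq
  calc ∑ i ∈ Finset.range M, (1 / q) ^ i ≤ ∑ i ∈ Finset.range M, (1 / 5 : ℝ) ^ i :=
        Finset.sum_le_sum fun i _ => pow_le_pow_left₀ h0 h1 i
    _ ≤ 5 / 4 := by
      have h2 := geom_sum_eq (x := (1 / 5 : ℝ)) (by norm_num) M
      rw [h2]
      have h3 : (0 : ℝ) ≤ (1 / 5) ^ M := by positivity
      have h4 : ((1 / 5 : ℝ) ^ M - 1) / (1 / 5 - 1) = 5 / 4 - 5 / 4 * (1 / 5) ^ M := by ring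
      rw [h4]
      linarith

theorem five_le (F : Type) [Field F] [Fintype F] [CharP F 5] : (5 : ℝ) ≤ qq F := by
  unfold qq
  have hp : Fact (Nat.Prime 5) := ⟨by norm_num⟩
  have h2 : (5 : ℕ) ∣ Fintype.card F := by
    obtain ⟨n, hn⟩ := FiniteField.card F 5
    rw [hn.2]
    exact dvd_pow_self 5 n.2.ne'
  have h3 : 5 ≤ Fintype.card F := Nat.le_of_dvd Fintype.card_pos h2
  exact_mod_cast h3

/-- the bound with the counts, `f i` the bound for a given `m` of degree `i`. -/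
theorem main (F : Type) [Field F] [Fintype F] [CharP F 5] (hB0 : S_B0 F) (hQ : S_Q F)
    (g d₁ d₂ j A A' : ℕ) (hd : d₁ + d₂ = g + 1) (h1 : 1 ≤ d₁) (h2 : 1 ≤ d₂) (hj : j ≤ g + 2)
    (hAA : A' ≤ A) (B : ℕ → ℝ)
    (hB : ∀ i, i < A → ∀ m ∈ MON F i, qq F ^ (g + 4) *
      (((ABR F A A').filter (fun p => m ∣ p.1 ∧ m ∣ p.2)).card : ℝ) ≤ (1 / qq F) ^ i * B i) :
    ∃ M, M ≤ A ∧ ∑ b ∈ (DEG F j).filter (fun b => Squarefree b), ∑ p ∈ ABR F A A',
      ((PR d₁ d₂ b p.1 p.2).card : ℝ) ≤ ∑ i ∈ Finset.range M, B i := by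
  obtain ⟨hP, hM, hD, hPc, hMc, -⟩ := hB0
  have hq5 : (5 : ℝ) ≤ qq F := five_le F
  have hq0 : 0 < qq F := by linarith
  set q := qq F with hqdef
  set M := min A (j + 1) with hMdef
  refine ⟨M, min_le_left _ _, ?_⟩
  set I : Finset (Σ _ : ℕ, F[X]) := (Finset.range M).sigma (fun i => MON F i) with hI
  have hImem : ∀ x ∈ I, x.1 < A ∧ x.1 ≤ j ∧ x.2.Monic ∧ x.2.natDegree = x.1 := by
    intro x hx
    rw [hI, Finset.mem_sigma, Finset.mem_range, hM] at hx
    have := lt_min_iff.1 hx.1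
    exact ⟨this.1, by omega, hx.2.1, hx.2.2⟩
  -- pointwise
  have hpt : ∀ b ∈ (DEG F j).filter (fun b => Squarefree b), ∀ p ∈ ABR F A A',
        ((PR d₁ d₂ b p.1 p.2).card : ℝ) ≤
        ∑ x ∈ I, (q ^ (g + 3 + x.1) / q ^ j) * (ind x.2 b * indp x.2 p) := by
    intro b hb p hp
    rw [Finset.mem_filter, hD] at hb
    unfold ABR at hp
    rw [Finset.mem_filter, Finset.mem_product, hP, hP] at hp
    obtain ⟨⟨hb0, hbj⟩, hbs⟩ := hb
    obtain ⟨⟨hpA, hpA'⟩, hp0, -⟩ := hp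
    obtain ⟨m, hm, hmb, hmα, hmβ, hcard⟩ :=
      hQ g d₁ d₂ b p.1 p.2 hd h1 h2 hb0 hbs (by rw [hbj]; exact hj) hp0
    rw [hbj] at hcard
    have hmj : m.natDegree ≤ j := hbj ▸ natDegree_le_of_dvd hmb hb0
    have hmA : m.natDegree < A := by
      rcases hp0 with hα0 | hβ0
      · have h3 : p.1.natDegree < A := (natDegree_lt_iff_degree_lt hα0).2 hpA
        exact (natDegree_le_of_dvd hmα hα0).trans_lt h3
      · have h3 : p.2.natDegree < A' := (natDegree_lt_iff_degree_lt hβ0).2 hpA'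
        exact ((natDegree_le_of_dvd hmβ hβ0).trans_lt h3).trans_le hAA
    have hmI : (⟨m.natDegree, m⟩ : Σ _ : ℕ, F[X]) ∈ I := by
      rw [hI, Finset.mem_sigma, Finset.mem_range, hM]
      exact ⟨lt_min hmA (by show m.natDegree < j + 1; omega), hm, rfl⟩
    have hterm : ((PR d₁ d₂ b p.1 p.2).card : ℝ) ≤
        (q ^ (g + 3 + m.natDegree) / q ^ j) * (ind m b * indp m p) := by
      have e1 : ind m b = 1 := by unfold ind; rw [if_pos hmb]
      have e2 : indp m p = 1 := by unfold indp; rw [if_pos ⟨hmα, hmβ⟩]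
      rw [e1, e2, mul_one, mul_one, le_div_iff₀ (by positivity)]
      rw [hqdef]
      unfold qq
      exact_mod_cast hcard
    refine hterm.trans ?_
    exact Finset.single_le_sum (f := fun x : (Σ _ : ℕ, F[X]) =>
      (q ^ (g + 3 + x.1) / q ^ j) * (ind x.2 b * indp x.2 p))
      (fun x _ => mul_nonneg (by positivity) (mul_nonneg (ind_nonneg _ _) (indp_nonneg _ _))) hmI
  have hsum : ∑ b ∈ (DEG F j).filter (fun b => Squarefree b), ∑ p ∈ ABR F A A',
      ((PR d₁ d₂ b p.1 p.2).card : ℝ) ≤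
      ∑ b ∈ (DEG F j).filter (fun b => Squarefree b), ∑ p ∈ ABR F A A', ∑ x ∈ I,
        (q ^ (g + 3 + x.1) / q ^ j) * (ind x.2 b * indp x.2 p) :=
    Finset.sum_le_sum fun b hb => Finset.sum_le_sum fun p hp => hpt b hb p hp
  refine hsum.trans ?_
  rw [swap _ _ I (fun x => q ^ (g + 3 + x.1) / q ^ j) (fun x y => ind x.2 y)
    (fun x p => indp x.2 p)]
  have hterm2 : ∀ x ∈ I, (q ^ (g + 3 + x.1) / q ^ j) *
      ((∑ b ∈ (DEG F j).filter (fun b => Squarefree b), ind x.2 b) *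
        ∑ p ∈ ABR F A A', indp x.2 p) ≤ (1 / q) ^ x.1 * B x.1 := by
    intro x hx
    obtain ⟨hxA, hxj, hxm, hxd⟩ := hImem x hx
    have k1 : ∑ b ∈ (DEG F j).filter (fun b => Squarefree b), ind x.2 b ≤ q ^ (j + 1 - x.1) := by
      rw [← hxd]
      refine sum_ind_le hP hPc x.2 hxm (j + 1) _ ?_
      intro b hb
      rw [Finset.mem_filter, hD] at hb
      rw [hP]
      exact (natDegree_lt_iff_degree_lt hb.1.1).1 (by rw [hb.1.2]; omega)
    have n2 : 0 ≤ ∑ p ∈ ABR F A A', indp x.2 p := Finset.sum_nonneg fun _ _ => indp_nonneg _ _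
    have k4 : (∑ b ∈ (DEG F j).filter (fun b => Squarefree b), ind x.2 b) *
        ∑ p ∈ ABR F A A', indp x.2 p ≤ q ^ (j + 1 - x.1) * ∑ p ∈ ABR F A A', indp x.2 p :=
      mul_le_mul_of_nonneg_right k1 n2
    have k5 := hB x.1 hxA x.2 ((hM _ _).2 ⟨hxm, hxd⟩)
    rw [← sum_indp] at k5
    refine (mul_le_mul_of_nonneg_left k4 (by positivity)).trans (le_trans (le_of_eq ?_) k5)
    rw [← mul_assoc]
    refine congrArg (fun t : ℝ => t * ∑ p ∈ ABR F A A', indp x.2 p) ?_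
    obtain ⟨j', hj'⟩ := Nat.exists_eq_add_of_le hxj
    have s1 : j + 1 - x.1 = j' + 1 := by omega
    rw [s1, hj']
    field_simp
    ring
  refine (Finset.sum_le_sum hterm2).trans ?_
  rw [hI, Finset.sum_sigma]
  refine le_of_eq (Finset.sum_congr rfl fun i _ => ?_)
  show ∑ _s ∈ MON F i, ((1 / q) ^ i * B i) = B i
  rw [Finset.sum_const, hMc, nsmul_eq_mul]
  have e5 : ((Fintype.card F ^ i : ℕ) : ℝ) = q ^ i := by
    rw [hqdef]
    unfold qq
    push_cast
    rfl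
  rw [e5, ← mul_assoc, ← mul_pow, mul_one_div_cancel hq0.ne', one_pow, one_mul]

theorem cnt (F : Type) [Field F] [Fintype F] [CharP F 5] (hB0 : S_B0 F) (A A' i : ℕ) (hAA : A' ≤ A)
    (m : F[X]) (hm : m ∈ MON F i) :
    ((ABR F A A').filter (fun p => m ∣ p.1 ∧ m ∣ p.2)).card * Fintype.card F ^ (2 * i) ≤
      Fintype.card F ^ (A + A') := by
  obtain ⟨hP, hM, -, hPc, -, -⟩ := hB0
  obtain ⟨hmm, hmd⟩ := (hM _ _).1 hm
  have hzero : ∀ n, n ≤ i → ∀ x ∈ POL F n, m ∣ x → x = 0 := by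
    intro n hn x hx hmx
    by_contra hx0
    rw [hP] at hx
    have h1 := (natDegree_lt_iff_degree_lt hx0).2 hx
    have h2 := natDegree_le_of_dvd hmx hx0
    omega
  by_cases hi : A' ≤ i
  · have hempty : (ABR F A A').filter (fun p => m ∣ p.1 ∧ m ∣ p.2) = ∅ := by
      rw [Finset.filter_eq_empty_iff]
      intro p hp hdv
      unfold ABR at hp
      rw [Finset.mem_filter, Finset.mem_product] at hp
      obtain ⟨⟨hpA, hpA'⟩, hp0, hp1⟩ := hp
      have h2 : p.2 = 0 := hzero A' hi p.2 hpA' hdv.2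
      rcases hp1 with hp1 | hp1
      · exact hp1 h2
      · have h3 : p.1 = 0 := hzero A (by omega) p.1 hpA hdv.1
        rcases hp0 with hp0 | hp0
        · exact hp0 h3
        · exact hp0 h2
    rw [hempty, Finset.card_empty, zero_mul]
    exact Nat.zero_le _
  · have hsub : (ABR F A A').filter (fun p => m ∣ p.1 ∧ m ∣ p.2) ⊆
        (POL F A).filter (fun x => m ∣ x) ×ˢ (POL F A').filter (fun x => m ∣ x) := by
      intro p hp
      unfold ABR at hp
      rw [Finset.mem_filter, Finset.mem_filter, Finset.mem_product] at hp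
      rw [Finset.mem_product, Finset.mem_filter, Finset.mem_filter]
      exact ⟨⟨hp.1.1.1, hp.2.1⟩, ⟨hp.1.1.2, hp.2.2⟩⟩
    have h1 := card_mult hP hPc m hmm A
    have h2 := card_mult hP hPc m hmm A'
    rw [hmd] at h1 h2
    have h3 := Finset.card_le_card hsub
    rw [Finset.card_product] at h3
    have h4 := h3.trans (Nat.mul_le_mul h1 h2)
    refine (Nat.mul_le_mul_right _ h4).trans (le_of_eq ?_)
    rw [← pow_add, ← pow_add]
    have e : A - i + (A' - i) + 2 * i = A + A' := by omega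
    rw [e]

end XR7

open XR7 in
theorem p_R7 (F : Type) [Field F] [Fintype F] [CharP F 5] (hB0 : D5.S_B0 F) (hQ : D5.S_Q F) :
    S_R7 F := by
  intro g d₁ d₂ j A A' hd h1 h2 hj hAA
  have hq5 : (5 : ℝ) ≤ qq F := five_le F
  have hq0 : 0 < qq F := by linarith
  have s2 : ∀ i, ∀ m ∈ MON F i,
      (((ABR F A A').filter (fun p => m ∣ p.1 ∧ m ∣ p.2)).card : ℝ) * qq F ^ (2 * i) ≤
        qq F ^ (A + A') := by
    intro i m hm
    have h3 := cnt F hB0 A A' i hAA m hm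
    unfold qq
    exact_mod_cast h3
  have b2 : ∀ i, ∀ m ∈ MON F i, qq F ^ (g + 4) *
      (((ABR F A A').filter (fun p => m ∣ p.1 ∧ m ∣ p.2)).card : ℝ) ≤
        (1 / qq F) ^ i * (qq F ^ (g + 4 + A + A') * (1 / qq F) ^ i) := by
    intro i m hm
    have h3 := s2 i m hm
    have h4 : (((ABR F A A').filter (fun p => m ∣ p.1 ∧ m ∣ p.2)).card : ℝ) ≤
        qq F ^ (A + A') / qq F ^ (2 * i) := by
      rw [le_div_iff₀ (by positivity)]
      exact h3
    refine (mul_le_mul_of_nonneg_left h4 (by positivity)).trans (le_of_eq ?_)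
    rw [one_div, inv_pow]
    field_simp
    ring
  obtain ⟨M, -, hM⟩ := main F hB0 hQ g d₁ d₂ j A A' hd h1 h2 hj hAA
    (fun i => qq F ^ (g + 4 + A + A') * (1 / qq F) ^ i) (fun i _ m hm => b2 i m hm)
  refine hM.trans ?_
  rw [← Finset.mul_sum]
  have h5 := geom hq5 M
  have h6 : 0 ≤ qq F ^ (g + 4 + A + A') := by positivity
  nlinarith

end Q5R
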