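import Pool.Agent.H461.Q5R.Stm4
import Pool.Agent.H731.P5.A1
import Pool.Agent.H731.P5.A2
import Pool.Agent.H731.P5.A2b
import Pool.Agent.H731.P5.A3
import Pool.Agent.H731.P5.A4
import Pool.Agent.H731.P5.A8

open Polynomial
open scoped Classical

noncomputable section

namespace Q5R

open D5 Q5

theorem p_RA (F : Type) [Field F] [Fintype F] [CharP F 5] : S_RA F := by
  intro f hf
  have hs : Squarefree f := hf.2.1
  have hd : 1 ≤ f.natDegree := hf.2.2.2
  have hA1 := P5.p_A1 F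
  have hA2 := P5.p_A2 F
  have hA2b := P5.p_A2b F hA1 hA2
  have hA3 := P5.p_A3 F
  have hA4 := P5.p_A4 F hA1 hA3
  have hA8 := P5.p_A8 F hA1 hA3 hA2b
  exact ⟨hA3 f hs hd, (hA4 f hs hd).1, (hA4 f hs hd).2, hA8 f hs hd⟩

end Q5R
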