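import Pool.Agent.H461.Q5R.Stm4

/-!
# RA7: a solution gives an ideal whose fifth power is principal, real case (helper650, after `D5/A5.lean`, `D5/A6.lean`,
`D5/A7.lean` of helper506)
-/

open Polynomial
open scoped Classical
open scoped Pointwise

noncomputable section

namespace Q5R

open D5 Q5

namespace XRA7

section five


variable {F : Type} [Field F]

/-- `cc f` as a ring homomorphism -/
def ccH (f : F[X]) : F[X] →+* OO f where
  toFun := cc f
  map_one' := rfl
  map_mul' a b := by ext <;> simp [cc]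
  map_zero' := by ext <;> simp [cc]
  map_add' a b := by ext <;> simp [cc]

theorem ccH_apply (f a : F[X]) : ccH f a = cc f a := rfl

theorem ccH_inj (f : F[X]) : Function.Injective (ccH f) := by
  intro a b h
  have := congrArg QuadraticAlgebra.re h
  simpa [ccH_apply, cc] using this

/-- the generator `s` -/
def ss (f : F[X]) : OO f := ⟨0, 1⟩

theorem ss_mul (f : F[X]) : ss f * ss f = cc f f := by
  ext <;> simp [ss, cc]

theorem dl_cc (f a : F[X]) : dl f (cc f a) = cc f (derivative a) * ss f := by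
  ext <;> simp [dl, cc, ss]

theorem dl_ss (f : F[X]) : dl f (ss f) = cc f (3 * derivative f) := by
  ext <;> simp [dl, cc, ss]

theorem six (F : Type) [Field F] [CharP F 5] : (6 : F[X]) = 1 := by
  have h : (5 : F[X]) = 0 := by
    have := CharP.cast_eq_zero F[X] 5
    exact_mod_cast this
  linear_combination h

/-- norm -/
theorem nrm_mul (f : F[X]) (x : OO f) :
    x * (⟨x.re, - x.im⟩ : OO f) = cc f (x.re ^ 2 - f * x.im ^ 2) := by
  refine QuadraticAlgebra.ext ?_ ?_
  · rw [QuadraticAlgebra.re_mul]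
    show x.re * x.re + f * x.im * (-x.im) = x.re ^ 2 - f * x.im ^ 2
    ring
  · rw [QuadraticAlgebra.im_mul]
    show x.re * (-x.im) + x.im * x.re + 0 * x.im * (-x.im) = 0
    ring


end five

theorem max5 (F : Type) [Field F] [Fintype F] [CharP F 5] (hRA : S_RA F) (f : F[X])
    (hf : GoodR f) (Q : Ideal (OO f)) (hQ : Q.IsMaximal) : ∃ π : OO f, π ∈ Q ∧ dl f π ∉ Q := by
  have hDD : IsDedekindDomain (OO f) := (hRA f hf).1
  have hdom : IsDomain (OO f) := inferInstance
  have hQp : Q.IsPrime := hQ.isPrime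
  -- `Q ≠ ⊥`
  have hQ0 : Q ≠ ⊥ := by
    intro h0
    have hX : ¬ IsUnit (cc f X) := by
      intro h
      obtain ⟨u, hu⟩ := h.exists_right_inv
      have h1 := congrArg QuadraticAlgebra.re hu
      rw [QuadraticAlgebra.re_mul] at h1
      have h2 : (X : F[X]) * u.re = 1 := by
        have h3 : (cc f X).re * u.re + f * (cc f X).im * u.im = (1 : OO f).re := h1
        have h4 : (1 : OO f).re = (1 : F[X]) := rfl
        rw [h4] at h3
        have h5 : (cc f X).re = (X : F[X]) := rfl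
        have h6 : (cc f X).im = (0 : F[X]) := rfl
        rw [h5, h6, mul_zero, zero_mul, add_zero] at h3
        exact h3
      exact Polynomial.not_isUnit_X (IsUnit.of_mul_eq_one _ h2)
    have hne : Ideal.span {cc f X} ≠ ⊤ := by
      rw [Ne, Ideal.span_singleton_eq_top]
      exact hX
    have := hQ.eq_of_le hne (by rw [h0]; exact bot_le)
    rw [h0] at this
    have h1 : cc f X = 0 := by
      rw [← Ideal.span_singleton_eq_bot]
      exact this.symm
    have h2 : ccH f X = ccH f 0 := by rw [map_zero]; exact h1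
    exact X_ne_zero (ccH_inj f h2)
  -- the prime ideal of `F[X]` below `Q`
  have hp : (Ideal.comap (ccH f) Q).IsPrime := Ideal.comap_isPrime _ _
  have hp0 : Ideal.comap (ccH f) Q ≠ ⊥ := by
    obtain ⟨x, hxQ, hx0⟩ := Submodule.exists_mem_ne_zero_of_ne_bot hQ0
    intro h
    have hmem : x.re ^ 2 - f * x.im ^ 2 ∈ Ideal.comap (ccH f) Q := by
      rw [Ideal.mem_comap, ccH_apply, ← nrm_mul]
      exact Q.mul_mem_right _ hxQ
    rw [h, Ideal.mem_bot] at hmem
    have h1 := nrm_mul f x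
    rw [hmem] at h1
    have h2 : x * (⟨x.re, - x.im⟩ : OO f) = 0 := by
      rw [h1]; exact map_zero (ccH f)
    rcases mul_eq_zero.1 h2 with h3 | h3
    · exact hx0 h3
    · apply hx0
      have e1 := congrArg QuadraticAlgebra.re h3
      have e2 := congrArg QuadraticAlgebra.im h3
      simp at e1 e2
      ext
      · rw [e1]; rfl
      · rw [e2]; rfl
  set P : F[X] := Submodule.IsPrincipal.generator (Ideal.comap (ccH f) Q) with hP
  have hPp : Prime P := Submodule.IsPrincipal.prime_generator_of_isPrime _ hp0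
  have hPm : P ∈ Ideal.comap (ccH f) Q := Submodule.IsPrincipal.generator_mem _
  rw [Ideal.mem_comap, ccH_apply] at hPm
  have hsepP : P.Separable := PerfectField.separable_of_irreducible hPp.irreducible
  have hsepf : f.Separable := PerfectField.separable_iff_squarefree.2 hf.2.1
  have key : ∀ g : F[X], g.Separable → cc f g ∈ Q → cc f (derivative g) ∉ Q := by
    intro g hg h1 h2
    obtain ⟨a, b, hab⟩ := hg
    apply hQp.ne_top
    rw [Ideal.eq_top_iff_one]
    have : (1 : OO f) = ccH f a * cc f g + ccH f b * cc f (derivative g) := by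
      rw [← ccH_apply, ← ccH_apply, ← map_mul, ← map_mul, ← map_add, hab, map_one]
    rw [this]
    exact Q.add_mem (Q.mul_mem_left _ h1) (Q.mul_mem_left _ h2)
  by_cases hs : ss f ∈ Q
  · refine ⟨ss f, hs, ?_⟩
    rw [dl_ss]
    intro h
    have hff : cc f f ∈ Q := by rw [← ss_mul]; exact Q.mul_mem_left _ hs
    refine key f hsepf hff ?_
    have h6 : cc f (derivative f) = ccH f 2 * cc f (3 * derivative f) := by
      rw [← ccH_apply, ← ccH_apply, ← map_mul]
      congr 1
      linear_combination -(derivative f) * six F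
    rw [h6]
    exact Q.mul_mem_left _ h
  · refine ⟨cc f P, hPm, ?_⟩
    rw [dl_cc]
    intro h
    rcases hQp.mem_or_mem h with h1 | h1
    · exact key P hsepP hPm h1
    · exact hs h1



theorem fiveX (F : Type) [Field F] [CharP F 5] : (5 : F[X]) = 0 := by
  have h2 : ((5 : ℕ) : F[X]) = 0 := CharP.cast_eq_zero F[X] 5
  exact_mod_cast h2

theorem five (F : Type) [Field F] [CharP F 5] (f : F[X]) : (5 : OO f) = 0 := by
  have h1 := fiveX F
  have h4 : (algebraMap F[X] (OO f)) 5 = 0 := by rw [h1, map_zero]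
  rw [← h4]
  exact (map_ofNat (algebraMap F[X] (OO f)) 5).symm

theorem fifth (F : Type) [Field F] [CharP F 5] (G : F[X]) : derivative (d4 G) = 0 := by
  have h : ((derivative : F[X] →ₗ[F] F[X]) ^[5]) G = (Nat.factorial 5 • hasseDeriv 5) G :=
    (congrFun (Polynomial.factorial_smul_hasseDeriv (R := F) (k := 5)) G).symm
  have h2 : derivative (d4 G) = ((derivative : F[X] →ₗ[F] F[X]) ^[5]) G := rfl
  have h3 : (Nat.factorial 5 • hasseDeriv 5) G = 24 * (5 * hasseDeriv 5 G) := by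
    rw [LinearMap.smul_apply, nsmul_eq_mul]
    norm_num [Nat.factorial]
    ring
  rw [h2, h, h3, fiveX F]
  ring

section

variable {R : Type} [CommRing R] (D : R → R) (g : R)

/-- the twisted derivation -/
def T (x : R) : R := D x - g * x

variable (a1 : ∀ x y, D (x + y) = D x + D y) (a2 : ∀ x y, D (x * y) = x * D y + y * D x)

include a1 in
theorem asub (x y : R) : D (x - y) = D x - D y := (AddMonoidHom.mk' D a1).map_sub x y

include a1 a2 in
theorem jac (h5 : (5 : R) = 0) (x : R) :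
    T D g (T D g (T D g (T D g (T D g x)))) =
      D (D (D (D (D x)))) - D (D (D (D g))) * x - g ^ 5 * x := by
  have as := asub D a1
  simp only [T, as, a1, a2]
  linear_combination (-D (D (D g)) * D x - 2 * D (D g) * D (D x) - 2 * D g * D (D (D x)) +
    2 * D g * D (D g) * x + 3 * D g ^ 2 * D x - g * D (D (D (D x))) + g * D (D (D g)) * x +
    4 * g * D (D g) * D x + 6 * g * D g * D (D x) - 3 * g * D g ^ 2 * x +
    2 * g ^ 2 * D (D (D x)) - 2 * g ^ 2 * D (D g) * x - 6 * g ^ 2 * D g * D x -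
    2 * g ^ 3 * D (D x) + 2 * g ^ 3 * D g * x + g ^ 4 * D x) * h5

include a2 in
theorem T_mul (y z : R) : T D g (y * z) = y * T D g z + D y * z := by
  unfold T
  rw [a2]
  ring

include a2 in
theorem four (p : R) : ∃ w : R, T D g (T D g (T D g (T D g (p ^ 4)))) = 24 * D p ^ 4 + p * w := by
  have d2 : D (p ^ 2) = 2 * p * D p := by
    rw [pow_two, a2]
    ring
  have d3 : D (p ^ 3) = 3 * p ^ 2 * D p := by
    rw [pow_succ, a2, d2]
    ring
  have d4 : D (p ^ 4) = 4 * p ^ 3 * D p := by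
    rw [pow_succ, a2, d3]
    ring
  set y1 : R := -(p * g) + 4 * D p with hy1
  set y2 : R := p * T D g y1 + 3 * D p * y1 with hy2
  set y3 : R := p * T D g y2 + 2 * D p * y2 with hy3
  have t1 : T D g (p ^ 4) = p ^ 3 * y1 := by
    unfold T
    rw [d4, hy1]
    ring
  have t2 : T D g (p ^ 3 * y1) = p ^ 2 * y2 := by
    rw [T_mul D g a2, d3, hy2]
    ring
  have t3 : T D g (p ^ 2 * y2) = p * y3 := by
    rw [T_mul D g a2, d2, hy3]
    ring
  have t4 : T D g (p * y3) = p * T D g y3 + D p * y3 := T_mul D g a2 p y3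
  refine ⟨T D g y3 + D p * T D g y2 + 2 * D p ^ 2 * T D g y1 - 6 * D p ^ 3 * g, ?_⟩
  rw [t1, t2, t3, t4]
  rw [show D p * y3 = D p * (p * T D g y2 + 2 * D p * (p * T D g y1 + 3 * D p *
    (-(p * g) + 4 * D p))) by rw [hy3, hy2]]
  ring

end


theorem span6 (F : Type) [Field F] [Fintype F] [CharP F 5] (hA1 : D5.S_A1 F)
    (hA1b : D5.S_A1b F) (hRA : S_RA F) (f : F[X]) (hf : GoodR f) (v : F[X]) (hv : IsSol f v) :
    Ideal.span {h : OO f | dl f h = cc f v * h} = ⊤ := by
  obtain ⟨a1, a2, -, -, a5⟩ := hA1 f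
  obtain ⟨b1, b2⟩ := hA1b f
  have h5 := five F f
  set g : OO f := cc f v with hg
  set c : OO f := cc f (d4 (f ^ 2)) with hc
  have hdc : dl f c = 0 := by
    rw [hc, a5, fifth]
    rfl
  have hsol : dl f (dl f (dl f (dl f g))) = - g ^ 5 - c * g := by
    have e0 : d4 (f ^ 2 * v) = - v ^ 5 := hv
    rw [hg, b2, e0, hc]
    have e2 : (cc f v) ^ 5 = cc f (v ^ 5) := by
      unfold cc
      ext <;> simp [pow_succ]
    rw [e2]
    unfold cc
    ext <;> simp
  have asub := asub (dl f) a1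
  have hmem : ∀ x z : OO f,
      T (dl f) g (T (dl f) g (T (dl f) g (T (dl f) g x))) = z →
      z + c * x ∈ {h : OO f | dl f h = g * h} := by
    intro x z hz
    have e1 : T (dl f) g (T (dl f) g (T (dl f) g (T (dl f) g
      (T (dl f) g x)))) = dl f (dl f (dl f (dl f (dl f x)))) -
      dl f (dl f (dl f (dl f g))) * x - g ^ 5 * x := jac (dl f) g a1 a2 h5 x
    rw [hz] at e1
    have e2 : dl f z = T (dl f) g z + g * z := (sub_add_cancel _ _).symm
    show dl f (z + c * x) = g * (z + c * x)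
    have e3 : dl f (z + c * x) = dl f z + (c * dl f x + x * dl f c) :=
      (a1 z (c * x)).trans (congrArg (fun t => dl f z + t) (a2 c x))
    have e4 : dl f z = - c * dl f x - (- g ^ 5 - c * g) * x - g ^ 5 * x + g * z :=
      e2.trans (congrArg (fun t => t + g * z) (e1.trans (by rw [b1 x, hsol])))
    rw [e3, e4, hdc]
    ring
  by_contra hne
  obtain ⟨Q, hQ, hle⟩ := Ideal.exists_le_maximal _ hne
  obtain ⟨p, hp, hdp⟩ := max5 F hRA f hf Q hQ
  obtain ⟨w, hw⟩ := four (dl f) g a2 p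
  have h4 := hle (Ideal.subset_span (hmem (p ^ 4) _ hw))
  have h6 : dl f p ^ 4 ∈ Q := by
    have h7 : p * (w + c * p ^ 3) ∈ Q := Q.mul_mem_right _ hp
    have h8 := Q.sub_mem h7 h4
    have e3 : dl f p ^ 4 = p * (w + c * p ^ 3) - (24 * dl f p ^ 4 + p * w + c * p ^ 4) := by
      linear_combination (5 * dl f p ^ 4) * h5
    rw [e3]
    exact h8
  exact hdp (hQ.isPrime.mem_of_pow_mem 4 h6)



/-- the algebra behind A7 in a Dedekind domain -/
theorem core {O : Type} [CommRing O] [IsDomain O] [IsIntegrallyClosed O] (t : Finset O)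
    (ht : Ideal.span (t : Set O) = ⊤) (h₀ : O)
    (hc : ∀ m ∈ t, ∃ c e : O, e ≠ 0 ∧ m * e ^ 5 = h₀ * c ^ 5) :
    ∃ (b : O) (I : Ideal O), b ≠ 0 ∧ I ^ 5 = Ideal.span {b ^ 5 * h₀} := by
  have hc' : ∀ m : O, ∃ c e : O, m ∈ t → e ≠ 0 ∧ m * e ^ 5 = h₀ * c ^ 5 := by
    intro m
    by_cases hm : m ∈ t
    · obtain ⟨c, e, h⟩ := hc m hm
      exact ⟨c, e, fun _ => h⟩
    · exact ⟨0, 0, fun h => absurd h hm⟩
  choose c e hce using hc'
  set b : O := ∏ m ∈ t, e m with hb
  set a : O → O := fun m => c m * ∏ j ∈ t.erase m, e j with ha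
  have hb0 : b ≠ 0 := Finset.prod_ne_zero_iff.2 (fun m hm => (hce m hm).1)
  have hba : ∀ m ∈ t, b ^ 5 * m = h₀ * a m ^ 5 := by
    intro m hm
    have h1 : b = e m * ∏ j ∈ t.erase m, e j := (Finset.mul_prod_erase t e hm).symm
    have h2 := (hce m hm).2
    simp only [ha]
    rw [h1, mul_pow, mul_pow]
    calc e m ^ 5 * (∏ j ∈ t.erase m, e j) ^ 5 * m
        = (m * e m ^ 5) * (∏ j ∈ t.erase m, e j) ^ 5 := by ring
      _ = (h₀ * c m ^ 5) * (∏ j ∈ t.erase m, e j) ^ 5 := by rw [h2]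
      _ = _ := by ring
  set T : Set O := a '' (t : Set O) with hT
  set J : Ideal O := Ideal.span T with hJ
  have hJ5 : J ^ 5 = Ideal.span (T * T * T * T * T) := by
    rw [pow_succ, pow_succ, pow_succ, pow_two, hJ, Ideal.span_mul_span', Ideal.span_mul_span',
      Ideal.span_mul_span', Ideal.span_mul_span']
  have key : Ideal.span {h₀} * J ^ 5 = Ideal.span {b ^ 5} := by
    apply le_antisymm
    · rw [hJ5, Ideal.span_mul_span', Ideal.span_le]
      intro y hy
      obtain ⟨y1, hy1, w5, hw5, rfl⟩ := Set.mem_mul.1 hy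
      obtain ⟨w4, hw4, z5, hz5, rfl⟩ := Set.mem_mul.1 hw5
      obtain ⟨w3, hw3, z4, hz4, rfl⟩ := Set.mem_mul.1 hw4
      obtain ⟨w2, hw2, z3, hz3, rfl⟩ := Set.mem_mul.1 hw3
      obtain ⟨z1, hz1, z2, hz2, rfl⟩ := Set.mem_mul.1 hw2
      obtain ⟨m1, hm1, rfl⟩ := hz1
      obtain ⟨m2, hm2, rfl⟩ := hz2
      obtain ⟨m3, hm3, rfl⟩ := hz3
      obtain ⟨m4, hm4, rfl⟩ := hz4
      obtain ⟨m5, hm5, rfl⟩ := hz5
      rw [Set.mem_singleton_iff] at hy1
      subst hy1
      rw [SetLike.mem_coe, Ideal.mem_span_singleton]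
      rw [← IsIntegrallyClosed.pow_dvd_pow_iff (by norm_num : (5 : ℕ) ≠ 0)]
      refine ⟨m1 * m2 * m3 * m4 * m5, ?_⟩
      have e1 := hba m1 (Finset.mem_coe.1 hm1)
      have e2 := hba m2 (Finset.mem_coe.1 hm2)
      have e3 := hba m3 (Finset.mem_coe.1 hm3)
      have e4 := hba m4 (Finset.mem_coe.1 hm4)
      have e5 := hba m5 (Finset.mem_coe.1 hm5)
      calc (y1 * (a m1 * a m2 * a m3 * a m4 * a m5)) ^ 5 =
          (y1 * a m1 ^ 5) * (y1 * a m2 ^ 5) * (y1 * a m3 ^ 5) * (y1 * a m4 ^ 5) *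
            (y1 * a m5 ^ 5) := by ring
        _ = (b ^ 5 * m1) * (b ^ 5 * m2) * (b ^ 5 * m3) * (b ^ 5 * m4) * (b ^ 5 * m5) := by
            rw [e1, e2, e3, e4, e5]
        _ = _ := by ring
    · rw [Ideal.span_singleton_le_iff_mem]
      have h1 : (1 : O) ∈ Ideal.span (t : Set O) := by rw [ht]; trivial
      obtain ⟨x, _, hx⟩ := Submodule.mem_span_finset.1 h1
      have h2 : b ^ 5 = ∑ m ∈ t, x m * (h₀ * a m ^ 5) := by
        calc b ^ 5 = b ^ 5 * ∑ m ∈ t, x m • m := by rw [hx, mul_one]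
          _ = ∑ m ∈ t, x m * (b ^ 5 * m) := by
            rw [Finset.mul_sum]
            exact Finset.sum_congr rfl (fun m _ => by rw [smul_eq_mul]; ring)
          _ = _ := Finset.sum_congr rfl (fun m hm => by rw [hba m hm])
      rw [h2]
      apply Ideal.sum_mem
      intro m hm
      have hJm : a m ∈ J := Ideal.subset_span (Set.mem_image_of_mem a (Finset.mem_coe.2 hm))
      apply Ideal.mul_mem_left
      exact Ideal.mul_mem_mul (Ideal.mem_span_singleton_self h₀) (Ideal.pow_mem_pow hJm 5)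
  refine ⟨b ^ 5, Ideal.span {b} * Ideal.span {h₀} * J ^ 4, pow_ne_zero 5 hb0, ?_⟩
  have e1 : (Ideal.span {b} * Ideal.span {h₀} * J ^ 4) ^ 5 =
      Ideal.span {b} ^ 5 * Ideal.span {h₀} * (Ideal.span {h₀} * J ^ 5) ^ 4 := by ring
  rw [e1, key, Ideal.span_singleton_pow, Ideal.span_singleton_pow,
    Ideal.span_singleton_mul_span_singleton, Ideal.span_singleton_mul_span_singleton]
  congr 2
  ring


end XRA7

theorem p_RA7 (F : Type) [Field F] [Fintype F] [CharP F 5] (hA1 : D5.S_A1 F)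
    (hA1b : D5.S_A1b F) (hRA : S_RA F) : S_RA7 F := by
  intro f hf v hv
  have hDD : IsDedekindDomain (OO f) := (hRA f hf).1
  have hD : IsDomain (OO f) := inferInstance
  have h6 := XRA7.span6 F hA1 hA1b hRA f hf v hv
  obtain ⟨t, hts, htop⟩ := (Ideal.span_eq_top_iff_finite _).1 h6
  obtain ⟨h₀, hh₀, hne⟩ : ∃ h₀ ∈ t, h₀ ≠ 0 := by
    by_contra hcon
    push Not at hcon
    have h1 : Ideal.span (t : Set (OO f)) ≤ ⊥ := by
      rw [Ideal.span_le]
      intro x hx
      rw [SetLike.mem_coe, Ideal.mem_bot]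
      exact hcon x (Finset.mem_coe.1 hx)
    rw [htop] at h1
    exact bot_ne_top (le_antisymm bot_le h1)
  have hm0 : ∀ m ∈ t, dl f m = cc f v * m := fun m hm => hts (Finset.mem_coe.2 hm)
  have hc : ∀ m ∈ t, ∃ c e : OO f, e ≠ 0 ∧ m * e ^ 5 = h₀ * c ^ 5 := by
    intro m hm
    by_cases hmz : m = 0
    · refine ⟨0, 1, one_ne_zero, ?_⟩
      rw [hmz]
      ring
    · obtain ⟨c, e, _, he, h⟩ := (hRA f hf).2.2.1 m h₀ hmz hne (by
        rw [hm0 m hm, hm0 h₀ hh₀]
        ring)
      exact ⟨c, e, he, h⟩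
  obtain ⟨b, I, hb, hI⟩ := XRA7.core t htop h₀ hc
  refine ⟨b ^ 5 * h₀, mul_ne_zero (pow_ne_zero 5 hb) hne, ?_, I, hI⟩
  have e0 := (hA1 f).2.2.2.1 b h₀
  rw [hm0 h₀ hh₀] at e0
  exact e0.trans (mul_left_comm _ _ _)


end Q5R
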