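import Pool.Agent.H461.Q5R.Stm4

open Polynomial
open scoped Classical

noncomputable section

set_option linter.all false

namespace Q5R

open D5 Q5

namespace XRA9

open nonZeroDivisors

/-- the fifth power of ideals is injective in a Dedekind domain -/
lemma fifth_inj {R : Type*} [CommRing R] [IsDomain R] [IsDedekindDomain R] {I J : Ideal R}
    (h : I ^ 5 = J ^ 5) : I = J := by
  apply le_antisymm
  · rw [← Ideal.dvd_iff_le]
    exact (UniqueFactorizationMonoid.pow_dvd_pow_iff_dvd (by norm_num)).1 (dvd_of_eq h.symm)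
  · rw [← Ideal.dvd_iff_le]
    exact (UniqueFactorizationMonoid.pow_dvd_pow_iff_dvd (by norm_num)).1 (dvd_of_eq h)

lemma mk0_fifth {R : Type*} [CommRing R] [IsDomain R] [IsDedekindDomain R] (I : (Ideal R)⁰) :
    ClassGroup.mk0 I ^ 5 = 1 ↔ ∃ h : R, (I : Ideal R) ^ 5 = Ideal.span {h} := by
  have hm : (I : Ideal R) ^ 5 ∈ (Ideal R)⁰ := pow_mem I.2 5
  have h1 : (I ^ 5 : (Ideal R)⁰) = ⟨(I : Ideal R) ^ 5, hm⟩ :=
    Subtype.ext (SubmonoidClass.coe_pow I 5)
  rw [← map_pow, h1, ClassGroup.mk0_eq_one_iff hm]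
  constructor
  · rintro ⟨⟨h, hh⟩⟩
    exact ⟨h, hh⟩
  · rintro ⟨h, hh⟩
    exact ⟨⟨h, hh⟩⟩

lemma POL_add {F : Type} [Field F] [Fintype F] {n : ℕ} {v w : F[X]} (hv : v ∈ POL F n)
    (hw : w ∈ POL F n) : v + w ∈ POL F n := by
  obtain ⟨c, -, rfl⟩ := Finset.mem_image.1 hv
  obtain ⟨d, -, rfl⟩ := Finset.mem_image.1 hw
  refine Finset.mem_image.2 ⟨fun i => c i + d i, Finset.mem_univ _, ?_⟩
  rw [← Finset.sum_add_distrib]
  refine Finset.sum_congr rfl fun i _ => ?_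
  rw [C_add, add_mul]

lemma POL_sub {F : Type} [Field F] [Fintype F] {n : ℕ} {v w : F[X]} (hv : v ∈ POL F n)
    (hw : w ∈ POL F n) : v - w ∈ POL F n := by
  obtain ⟨c, -, rfl⟩ := Finset.mem_image.1 hv
  obtain ⟨d, -, rfl⟩ := Finset.mem_image.1 hw
  refine Finset.mem_image.2 ⟨fun i => c i - d i, Finset.mem_univ _, ?_⟩
  rw [← Finset.sum_sub_distrib]
  refine Finset.sum_congr rfl fun i _ => ?_
  rw [C_sub, sub_mul]

variable {F : Type} [Field F] [Fintype F] [CharP F 5]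

lemma cc_add (f v w : F[X]) : cc f (v + w) = cc f v + cc f w := by
  unfold cc
  ext <;> simp

lemma cc_sub (f v w : F[X]) : cc f (v - w) = cc f v - cc f w := by
  unfold cc
  ext <;> simp

lemma cc_inj {f v w : F[X]} (h : cc f v = cc f w) : v = w := congrArg QuadraticAlgebra.re h

/-- the relation between solutions and classes -/
def R (f : F[X]) [IsDomain (OO f)] [IsDedekindDomain (OO f)] (v : F[X]) (c : ClassGroup (OO f)) :
    Prop :=
  ∃ h : OO f, h ≠ 0 ∧ dl f h = cc f v * h ∧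
    ∃ I : (Ideal (OO f))⁰, (I : Ideal (OO f)) ^ 5 = Ideal.span {h} ∧ ClassGroup.mk0 I = c

lemma exists_c (hA7 : S_RA7 F) {f : F[X]} (hf : GoodR f) [IsDomain (OO f)]
    [IsDedekindDomain (OO f)] {v : F[X]} (hv : IsSol f v) : ∃ c, R f v c := by
  obtain ⟨h, h0, hd, I, hI⟩ := hA7 f hf v hv
  have hI0 : I ≠ 0 := by
    intro hz
    rw [hz] at hI
    have : Ideal.span {h} = (⊥ : Ideal (OO f)) := by
      rw [← hI]; simp
    exact h0 (Ideal.span_singleton_eq_bot.1 this)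
  exact ⟨ClassGroup.mk0 ⟨I, mem_nonZeroDivisors_iff_ne_zero.2 hI0⟩, h, h0, hd,
    ⟨I, mem_nonZeroDivisors_iff_ne_zero.2 hI0⟩, hI, rfl⟩

lemma fifth_eq_one {f : F[X]} [IsDomain (OO f)] [IsDedekindDomain (OO f)]
    {v : F[X]} {c : ClassGroup (OO f)} (h : R f v c) : c ^ 5 = 1 := by
  obtain ⟨h, h0, hd, I, hI, rfl⟩ := h
  exact (mk0_fifth I).2 ⟨h, hI⟩

lemma exists_v (hRA : S_RA F) {f : F[X]} (hf : GoodR f) [IsDomain (OO f)]
    [IsDedekindDomain (OO f)] {c : ClassGroup (OO f)} (hc : c ^ 5 = 1) :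
    ∃ v, IsSol f v ∧ R f v c := by
  obtain ⟨I, rfl⟩ := ClassGroup.mk0_surjective c
  obtain ⟨h, hh'⟩ := (mk0_fifth I).1 hc
  have h0 : h ≠ 0 := by
    intro hz
    rw [hz] at hh'
    have h1 : (I : Ideal (OO f)) ^ 5 = 0 := by rw [hh']; simp
    exact nonZeroDivisors.coe_ne_zero I (pow_eq_zero_iff (by norm_num) |>.1 h1)
  obtain ⟨v, hv, hd⟩ := (hRA f hf).2.2.2 h h0 I hh'
  exact ⟨v, hv, h, h0, hd, I, hh', rfl⟩

lemma uniq_c (hRA : S_RA F) {f : F[X]} (hf : GoodR f) [IsDomain (OO f)] [IsDedekindDomain (OO f)]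
    {v : F[X]} {c c' : ClassGroup (OO f)} (h1 : R f v c) (h2 : R f v c') : c = c' := by
  obtain ⟨h, h0, hd, I, hI, rfl⟩ := h1
  obtain ⟨h', h0', hd', I', hI', rfl⟩ := h2
  obtain ⟨c, e, hc, he, hce⟩ := (hRA f hf).2.2.1 h h' h0 h0' (by rw [hd, hd']; ring)
  rw [ClassGroup.mk0_eq_mk0_iff]
  refine ⟨e, c, he, hc, ?_⟩
  apply fifth_inj
  rw [mul_pow, mul_pow, hI, hI', Ideal.span_singleton_pow, Ideal.span_singleton_pow,
    Ideal.span_singleton_mul_span_singleton, Ideal.span_singleton_mul_span_singleton,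
    mul_comm, hce, mul_comm]

/-- two solutions with the same class differ by the logarithmic derivative of a unit -/
lemma diff_v (hA1 : S_A1 F) {f : F[X]} [IsDomain (OO f)]
    [IsDedekindDomain (OO f)]
    {v v' : F[X]} {c : ClassGroup (OO f)} (h1 : R f v c) (h2 : R f v' c) :
    ∃ u : OO f, IsUnit u ∧ dl f u = cc f (v' - v) * u := by
  obtain ⟨h, h0, hd, I, hI, hc⟩ := h1
  obtain ⟨h', h0', hd', I', hI', hc'⟩ := h2
  rw [← hc', ClassGroup.mk0_eq_mk0_iff] at hc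
  obtain ⟨x, y, hx, hy, hxy⟩ := hc
  have h3 : Ideal.span {x ^ 5 * h} = Ideal.span {y ^ 5 * h'} := by
    have := congrArg (fun J => J ^ 5) hxy
    simp only [mul_pow, hI, hI', Ideal.span_singleton_pow,
      Ideal.span_singleton_mul_span_singleton] at this
    exact this
  rw [Ideal.span_singleton_eq_span_singleton] at h3
  obtain ⟨u, hu⟩ := h3
  obtain ⟨-, hmul, -, hfifth, hcc⟩ := hA1 f
  refine ⟨u, u.isUnit, ?_⟩
  have e1 : dl f (x ^ 5 * (h * u)) = x ^ 5 * (h * dl f u + u * (cc f v * h)) := by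
    rw [hfifth, hmul, hd]
  have e2 : dl f (y ^ 5 * h') = y ^ 5 * (cc f v' * h') := by
    rw [hfifth, hd']
  have e3 : x ^ 5 * (h * u) = y ^ 5 * h' := by rw [← hu]; ring
  rw [e3, e2] at e1
  have hne : x ^ 5 * h ≠ 0 := mul_ne_zero (pow_ne_zero _ hx) h0
  have e4 : x ^ 5 * h * (dl f u - cc f (v' - v) * u) = 0 := by
    rw [cc_sub]
    linear_combination (-1 : OO f) * e1 - cc f v' * e3
  exact sub_eq_zero.1 ((mul_eq_zero.1 e4).resolve_left hne)

/-- adding the logarithmic derivative of a unit -/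
lemma add_v (hA1 : S_A1 F) (hRA : S_RA F) {f : F[X]} (hf : GoodR f) [IsDomain (OO f)]
    [IsDedekindDomain (OO f)] {v w : F[X]} {c : ClassGroup (OO f)} (h1 : R f v c)
    (hw : ∃ u : OO f, IsUnit u ∧ dl f u = cc f w * u) : IsSol f (v + w) ∧ R f (v + w) c := by
  obtain ⟨h, h0, hd, I, hI, hc⟩ := h1
  obtain ⟨u, hu, hdu⟩ := hw
  obtain ⟨-, hmul, -, hfifth, hcc⟩ := hA1 f
  have hne : h * u ≠ 0 := mul_ne_zero h0 hu.ne_zero
  have h2 : dl f (h * u) = cc f (v + w) * (h * u) := by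
    rw [hmul, hdu, hd, cc_add]
    ring
  have h3 : (I : Ideal (OO f)) ^ 5 = Ideal.span {h * u} := by
    rw [hI]
    exact (Ideal.span_singleton_mul_right_unit hu h).symm
  refine ⟨?_, h * u, hne, h2, I, h3, hc⟩
  obtain ⟨v', hv', hd'⟩ := (hRA f hf).2.2.2 (h * u) hne I h3
  have h4 : cc f v' = cc f (v + w) := by
    have h5 : cc f v' * (h * u) = cc f (v + w) * (h * u) := by rw [← hd', h2]
    exact mul_right_cancel₀ hne h5
  rw [← cc_inj h4]
  exact hv'

end XRA9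

open XRA9 in
/-- **RA9** -/
theorem p_RA9 (F : Type) [Field F] [Fintype F] [CharP F 5] (hA1 : D5.S_A1 F) (hB1 : D5.S_B1 F)
    (hRA : S_RA F) (hRA7 : S_RA7 F) (hRU : S_RU F) : S_RA9 F := by
  intro f hf
  have hded : IsDedekindDomain (OO f) := (hRA f hf).1
  have hdom : IsDomain (OO f) := inferInstance
  obtain ⟨-, -, -, -, hsol⟩ := hB1
  have hPOL : ∀ v, IsSol f v → v ∈ POL F f.natDegree := fun v hv =>
    (Finset.mem_filter.1 ((hsol f v).2 hv)).1
  unfold cl5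
  rw [dif_pos hdom]
  have hex : ∀ c : {c : ClassGroup (OO f) // c ^ 5 = 1}, ∃ v, IsSol f v ∧ R f v c.1 := fun c =>
    exists_v hRA hf c.2
  choose v0 hv0 hR0 using hex
  have hmem : ∀ (p : {c : ClassGroup (OO f) // c ^ 5 = 1} × {w // w ∈ LU f}),
      v0 p.1 + p.2.1 ∈ sol f ∧ R f (v0 p.1 + p.2.1) p.1.1 := by
    intro p
    have h1 := add_v hA1 hRA hf (hR0 p.1) (Finset.mem_filter.1 p.2.2).2
    exact ⟨(hsol f _).2 h1.1, h1.2⟩
  have hbij : Function.Bijective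
      (fun p : {c : ClassGroup (OO f) // c ^ 5 = 1} × {w // w ∈ LU f} =>
        (⟨v0 p.1 + p.2.1, (hmem p).1⟩ : {v // v ∈ sol f})) := by
    constructor
    · intro p p' hpp
      have h1 : v0 p.1 + p.2.1 = v0 p'.1 + p'.2.1 := congrArg Subtype.val hpp
      have h2 := (hmem p).2
      have h3 := (hmem p').2
      rw [← h1] at h3
      have h4 : p.1 = p'.1 := Subtype.ext (uniq_c hRA hf h2 h3)
      have h5 : p.2.1 = p'.2.1 := by
        rw [h4] at h1
        exact add_left_cancel h1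
      exact Prod.ext h4 (Subtype.ext h5)
    · rintro ⟨v, hv⟩
      have hv' : IsSol f v := (hsol f v).1 hv
      obtain ⟨c, hc⟩ := exists_c hRA7 hf hv'
      let c' : {c : ClassGroup (OO f) // c ^ 5 = 1} := ⟨c, fifth_eq_one hc⟩
      have h1 := diff_v hA1 (hR0 c') hc
      have h2 : v - v0 c' ∈ LU f :=
        Finset.mem_filter.2 ⟨POL_sub (hPOL v hv') (hPOL _ (hv0 c')), h1⟩
      refine ⟨(c', ⟨v - v0 c', h2⟩), ?_⟩
      apply Subtype.ext
      show v0 c' + (v - v0 c') = v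
      ring
  have h1 := Nat.card_congr (Equiv.ofBijective _ hbij)
  rw [Nat.card_prod] at h1
  have h2 : Nat.card {w // w ∈ LU f} = 5 := by
    rw [← hRU f hf]
    simp
  have h3 : Nat.card {v // v ∈ sol f} = (sol f).card := by simp
  rw [h2, h3] at h1
  rw [← h1, mul_comm]

end Q5R
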