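import Pool.Agent.H461.Q5R.Stm4

/-!
# Project Q5R (helper461), RE9 (helper118, after the file Q5.E9 of helper164): the first moment, real case
-/

open Polynomial
open scoped Classical

noncomputable section

namespace Q5R

open D5 Q5

namespace XRE9

variable {F : Type} [Field F] [Fintype F]

theorem comm_count {α β : Type} (s : Finset α) (t : Finset β) (r : α → β → Prop) :
    ∑ a ∈ s, ((t.filter (fun b => r a b)).card : ℝ) =
      ∑ b ∈ t, ((s.filter (fun a => r a b)).card : ℝ) := by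
  simp only [Finset.card_filter, Nat.cast_sum]
  exact Finset.sum_comm

/-- `#sol f - 1` is the number of the solutions `v ≠ 0` of degree `≤ g`. -/
theorem card_sol (hB0 : ∀ n (g : F[X]), g ∈ POL F n ↔ g.degree < n)
    (hB4 : ∀ f v : F[X], v ≠ 0 → IsSol f v → 2 * v.natDegree + 2 ≤ f.natDegree)
    (hB5 : ∀ f v : F[X], v ∈ sol f ↔ IsSol f v) {g : ℕ} {f : F[X]}
    (hf : f.natDegree = 2 * g + 2) :
    ((sol f).card : ℝ) - 1 =
      ((((POL F (g + 1)).filter (fun v => v ≠ 0)).filter (fun v => IsSol f v)).card : ℝ) := by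
  have h0 : IsSol f 0 := by
    unfold IsSol d4
    simp
  have h1 : sol f =
      insert 0 (((POL F (g + 1)).filter (fun v => v ≠ 0)).filter (fun v => IsSol f v)) := by
    ext v
    rw [Finset.mem_insert, hB5, Finset.mem_filter, Finset.mem_filter]
    constructor
    · intro hv
      by_cases hv0 : v = 0
      · exact Or.inl hv0
      · right
        have h2 := hB4 f v hv0 hv
        have h3 : v.natDegree < g + 1 := by omega
        exact ⟨⟨(hB0 (g + 1) v).2 ((Polynomial.natDegree_lt_iff_degree_lt hv0).1 h3), hv0⟩, hv⟩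
    · rintro (rfl | hv)
      · exact h0
      · exact hv.2
  have h2 : (0 : F[X]) ∉ ((POL F (g + 1)).filter (fun v => v ≠ 0)).filter (fun v => IsSol f v) := by
    simp
  rw [h1, Finset.card_insert_of_notMem h2]
  push_cast
  ring

/-- `X ^ 5 - X` has five roots -/
theorem card_roots5 [CharP F 5] :
    ((Finset.univ : Finset F).filter (fun c => c ^ 5 = c)).card = 5 := by
  have : Fact (Nat.Prime 5) := ⟨by norm_num⟩
  apply le_antisymm
  · have h1 : (X ^ 5 - X : F[X]) ≠ 0 := FiniteField.X_pow_card_sub_X_ne_zero F (by norm_num)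
    have h2 : ((Finset.univ : Finset F).filter (fun c => c ^ 5 = c)) ⊆
        (X ^ 5 - X : F[X]).roots.toFinset := by
      intro c hc
      rw [Multiset.mem_toFinset, Polynomial.mem_roots h1]
      simp [Polynomial.IsRoot, (Finset.mem_filter.1 hc).2]
    calc ((Finset.univ : Finset F).filter (fun c => c ^ 5 = c)).card
        ≤ (X ^ 5 - X : F[X]).roots.toFinset.card := Finset.card_le_card h2
      _ ≤ Multiset.card (X ^ 5 - X : F[X]).roots := Multiset.toFinset_card_le _
      _ ≤ (X ^ 5 - X : F[X]).natDegree := Polynomial.card_roots' _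
      _ = 5 := FiniteField.X_pow_card_sub_X_natDegree_eq F (by norm_num)
  · have hφ : Function.Injective (ZMod.castHom (dvd_refl 5) F) := RingHom.injective _
    calc 5 = (Finset.univ : Finset (ZMod 5)).card := by simp [ZMod.card]
      _ = ((Finset.univ : Finset (ZMod 5)).image (ZMod.castHom (dvd_refl 5) F)).card :=
        (Finset.card_image_of_injective _ hφ).symm
      _ ≤ _ := Finset.card_le_card (by
        intro c hc
        obtain ⟨z, -, rfl⟩ := Finset.mem_image.1 hc
        rw [Finset.mem_filter]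
        exact ⟨Finset.mem_univ _, by rw [← map_pow, ZMod.pow_card]⟩)

theorem five_le_qq [CharP F 5] : 5 ≤ qq F := by
  unfold qq
  have h1 := Finset.card_filter_le (Finset.univ : Finset F) (fun c => c ^ 5 = c)
  rw [card_roots5, Finset.card_univ] at h1
  exact_mod_cast h1

theorem card_coeff (hB0 : ∀ n (g : F[X]), g ∈ POL F n ↔ g.degree < n)
    (hcP : ∀ n, (POL F n).card = Fintype.card F ^ n) (g : ℕ) (c : F) :
    ((POL F (g + 1)).filter (fun v => v.coeff g = c)).card = Fintype.card F ^ g := by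
  rw [← hcP g]
  have h1 : (POL F (g + 1)).filter (fun v => v.coeff g = c) =
      (POL F g).image (fun w => w + C c * X ^ g) := by
    ext v
    rw [Finset.mem_filter, Finset.mem_image, hB0]
    constructor
    · rintro ⟨h2, h3⟩
      refine ⟨v - C c * X ^ g, (hB0 g _).2 ?_, by ring⟩
      rw [Polynomial.degree_lt_iff_coeff_zero]
      intro m hm
      rw [coeff_sub, coeff_C_mul_X_pow]
      by_cases hmg : m = g
      · rw [if_pos hmg, hmg, h3, sub_self]
      · rw [if_neg hmg, sub_zero]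
        exact coeff_eq_zero_of_degree_lt (h2.trans_le (by exact_mod_cast (by omega : g + 1 ≤ m)))
    · rintro ⟨w, hw, rfl⟩
      rw [hB0] at hw
      constructor
      · rw [Polynomial.degree_lt_iff_coeff_zero]
        intro m hm
        rw [coeff_add, coeff_C_mul_X_pow, if_neg (by omega), add_zero]
        exact coeff_eq_zero_of_degree_lt (hw.trans_le (by exact_mod_cast (by omega : g ≤ m)))
      · rw [coeff_add, coeff_C_mul_X_pow, if_pos rfl, coeff_eq_zero_of_degree_lt hw, zero_add]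
  rw [h1]
  exact Finset.card_image_of_injective _ (add_left_injective _)

theorem card_V [CharP F 5] (hB0 : ∀ n (g : F[X]), g ∈ POL F n ↔ g.degree < n)
    (hcP : ∀ n, (POL F n).card = Fintype.card F ^ n) (g : ℕ) :
    ((POL F (g + 1)).filter (fun v => v.coeff g ^ 5 = v.coeff g)).card =
      5 * Fintype.card F ^ g := by
  rw [Finset.card_eq_sum_card_fiberwise (f := fun v : F[X] => v.coeff g)
    (t := (Finset.univ : Finset F).filter (fun c => c ^ 5 = c)) (fun v hv => by
      simp only [Finset.coe_filter, Set.mem_ofPred_eq, Finset.mem_univ, true_and] at hv ⊢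
      exact hv.2)]
  have h1 : ∀ c ∈ (Finset.univ : Finset F).filter (fun c => c ^ 5 = c),
      (((POL F (g + 1)).filter (fun v => v.coeff g ^ 5 = v.coeff g)).filter
        (fun v => v.coeff g = c)).card = Fintype.card F ^ g := by
    intro c hc
    rw [← card_coeff hB0 hcP g c]
    refine congrArg Finset.card ?_
    ext v
    simp only [Finset.mem_filter]
    constructor
    · rintro ⟨⟨a, -⟩, b⟩
      exact ⟨a, b⟩
    · rintro ⟨a, b⟩
      refine ⟨⟨a, ?_⟩, b⟩
      rw [b]
      exact (Finset.mem_filter.1 hc).2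
  rw [Finset.sum_congr rfl h1, Finset.sum_const, card_roots5, smul_eq_mul]

end XRE9

open XRE9 in
theorem p_RE9 (F : Type) [Field F] [Fintype F] [CharP F 5] (hB0 : D5.S_B0 F) (hB1 : D5.S_B1 F)
    (hR2 : S_R2 F) (hRT2 : S_RT2 F) (hRSC : S_RSC F) : S_RE9 F := by
  obtain ⟨hP, hM, hD, hcP, hcM, -⟩ := hB0
  obtain ⟨-, -, -, hB4, hB5⟩ := hB1
  intro g hg
  have hq5 : 5 ≤ qq F := five_le_qq
  have hq1 : 1 < qq F := by linarith
  have hq0 : 0 < qq F := by linarith
  have hdeg : ∀ f ∈ MON F (2 * g + 2), f.natDegree = 2 * g + 2 := fun f hf => ((hM _ f).1 hf).2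
  obtain ⟨S, hS⟩ : ∃ S : F[X] → ℝ, S = fun v =>
    ∑ l ∈ (Finset.univ : Finset (Fin g → F)).filter (fun l => l ≠ 0),
      Real.sqrt (KR1 g l v : ℝ) := ⟨_, rfl⟩
  have hS0 : ∀ v, 0 ≤ S v := fun v => by
    rw [hS]
    exact Finset.sum_nonneg fun l _ => Real.sqrt_nonneg _
  obtain ⟨A, hA⟩ : ∃ A : Finset F[X], A = (POL F (g + 1)).filter (fun v => v ≠ 0) := ⟨_, rfl⟩
  obtain ⟨V, hV⟩ : ∃ V : Finset F[X], V = A.filter (fun v => v.coeff g ^ 5 = v.coeff g) :=
    ⟨_, rfl⟩
  obtain ⟨N, hN⟩ : ∃ N : F[X] → ℝ, N = fun v =>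
    (((MON F (2 * g + 2)).filter (fun f => IsSol f v)).card : ℝ) := ⟨_, rfl⟩
  -- the double count
  have h8 : ∑ f ∈ MON F (2 * g + 2), (((sol f).card : ℝ) - 1) = ∑ v ∈ A, N v := by
    rw [hA, hN, ← comm_count (MON F (2 * g + 2)) ((POL F (g + 1)).filter (fun v => v ≠ 0))
      (fun f v => IsSol f v)]
    exact Finset.sum_congr rfl fun f hf => card_sol hP hB4 hB5 (hdeg f hf)
  have h8' : ∑ v ∈ A, N v = ∑ v ∈ V, N v := by
    refine (Finset.sum_subset (by rw [hV]; exact Finset.filter_subset _ _) ?_).symm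
    intro v hv hv'
    have h1 : v.coeff g ^ 5 ≠ v.coeff g := fun h => hv' (by
      rw [hV]
      exact Finset.mem_filter.2 ⟨hv, h⟩)
    rw [hA] at hv
    have h2 := (hR2 g v (Finset.mem_filter.1 hv).1).1 h1
    rw [hN]
    simp only [h2, Finset.card_empty, Nat.cast_zero]
  -- the number of the `v`
  have hVc : (V.card : ℝ) = 5 * qq F ^ g - 1 := by
    have e1 : V = ((POL F (g + 1)).filter (fun v => v.coeff g ^ 5 = v.coeff g)).erase 0 := by
      rw [hV, hA]
      ext v
      simp only [Finset.mem_filter, Finset.mem_erase]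
      tauto
    have e2 : (0 : F[X]) ∈ (POL F (g + 1)).filter (fun v => v.coeff g ^ 5 = v.coeff g) := by
      rw [Finset.mem_filter, hP, Polynomial.degree_zero]
      refine ⟨WithBot.bot_lt_coe _, ?_⟩
      rw [coeff_zero]
      norm_num
    have e3 := Finset.card_erase_add_one e2
    rw [card_V hP hcP, ← e1] at e3
    have e4 : (V.card : ℝ) + 1 = 5 * qq F ^ g := by
      unfold qq
      exact_mod_cast e3
    linarith
  -- real powers
  obtain ⟨Y, hY⟩ : ∃ Y : ℝ, Y = qq F ^ (2 * (g : ℝ) + 1 / 2) := ⟨_, rfl⟩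
  have hY0 : 0 < Y := by
    rw [hY]
    exact Real.rpow_pos_of_pos hq0 _
  have hqY : qq F * Y = qq F ^ (2 * (g : ℝ) + 3 / 2) := by
    rw [hY]
    nth_rewrite 1 [← Real.rpow_one (qq F)]
    rw [← Real.rpow_add hq0]
    congr 1
    ring
  have hpow2 : qq F ^ (g + 2) ≤ qq F * Y := by
    rw [hqY, ← Real.rpow_natCast]
    refine Real.rpow_le_rpow_of_exponent_le hq1.le ?_
    have : (1 : ℝ) ≤ g := by exact_mod_cast hg
    push_cast
    linarith
  have hsq : Real.sqrt (qq F ^ (2 * g + 2)) = qq F ^ (g + 1) := by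
    rw [show 2 * g + 2 = (g + 1) * 2 by ring, pow_mul, Real.sqrt_sq (by positivity)]
  -- the weights
  have hT0 : ∑ v ∈ (POL F g).filter (fun v => v ≠ 0), S v ≤ 300 * Y := by
    have e1 := hRT2 g 0 (by norm_num)
    have e2 : 2 * (g : ℝ) + ((0 : ℕ) : ℝ) + 1 / 2 = 2 * (g : ℝ) + 1 / 2 := by
      push_cast
      ring
    rw [e2, ← hY] at e1
    rw [hS]
    exact e1
  have hT1 : ∑ v ∈ (DEG F g).filter (fun v => v.coeff g ^ 5 = v.coeff g), S v ≤ 1500 * Y := by
    have e1 := hRT2 g 1 le_rfl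
    have e2 : 2 * (g : ℝ) + ((1 : ℕ) : ℝ) + 1 / 2 = 2 * (g : ℝ) + 3 / 2 := by
      push_cast
      ring
    rw [e2, ← hqY] at e1
    have e3 := hRSC g
    have e4 : ∑ v ∈ DEG F g, S v ≤ ∑ v ∈ (POL F (g + 1)).filter (fun v => v ≠ 0), S v := by
      refine Finset.sum_le_sum_of_subset_of_nonneg ?_ fun v _ _ => hS0 v
      intro v hv
      unfold DEG at hv
      rw [Finset.mem_filter] at hv ⊢
      exact ⟨hv.1, hv.2.1⟩
    have e5 : (qq F - 1) * ∑ v ∈ (DEG F g).filter (fun v => v.coeff g ^ 5 = v.coeff g), S v ≤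
        4 * ∑ v ∈ DEG F g, S v := by
      rw [hS]
      exact e3
    have e6 : ∑ v ∈ (POL F (g + 1)).filter (fun v => v ≠ 0), S v ≤ 300 * (qq F * Y) := by
      rw [hS]
      exact e1
    have e7 : (qq F - 1) * ∑ v ∈ (DEG F g).filter (fun v => v.coeff g ^ 5 = v.coeff g), S v ≤
        (qq F - 1) * (1500 * Y) := by
      have e8 : 5 * Y ≤ qq F * Y := mul_le_mul_of_nonneg_right hq5 hY0.le
      linarith
    exact le_of_mul_le_mul_left e7 (by linarith)
  have hTV : ∑ v ∈ V, S v ≤ 1800 * Y := by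
    have e1 : V ⊆ (POL F g).filter (fun v => v ≠ 0) ∪
        (DEG F g).filter (fun v => v.coeff g ^ 5 = v.coeff g) := by
      intro v hv
      rw [hV, hA, Finset.mem_filter, Finset.mem_filter, hP] at hv
      obtain ⟨⟨a1, a2⟩, a3⟩ := hv
      rw [Finset.mem_union, Finset.mem_filter, Finset.mem_filter, hP, hD]
      have a4 : v.natDegree < g + 1 := (Polynomial.natDegree_lt_iff_degree_lt a2).2 a1
      by_cases a5 : v.natDegree = g
      · exact Or.inr ⟨⟨a2, a5⟩, a3⟩
      · exact Or.inl ⟨(Polynomial.natDegree_lt_iff_degree_lt a2).1 (by omega), a2⟩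
    have e2 := Finset.sum_le_sum_of_subset_of_nonneg (f := S) e1 fun v _ _ => hS0 v
    have e3 := Finset.sum_union_inter (f := S) (s₁ := (POL F g).filter (fun v => v ≠ 0))
      (s₂ := (DEG F g).filter (fun v => v.coeff g ^ 5 = v.coeff g))
    have e4 : 0 ≤ ∑ v ∈ (POL F g).filter (fun v => v ≠ 0) ∩
        (DEG F g).filter (fun v => v.coeff g ^ 5 = v.coeff g), S v :=
      Finset.sum_nonneg fun v _ => hS0 v
    linarith
  -- R2
  have h9 : |∑ v ∈ V, (qq F ^ g * N v - qq F ^ (2 * g + 2))| ≤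
      qq F ^ g * (1800 * (qq F * Y)) := by
    refine (Finset.abs_sum_le_sum_abs _ _).trans ?_
    have h10 : ∑ v ∈ V, |qq F ^ g * N v - qq F ^ (2 * g + 2)| ≤
        ∑ v ∈ V, qq F ^ (g + 1) * S v := by
      refine Finset.sum_le_sum fun v hv => ?_
      rw [hV, hA, Finset.mem_filter, Finset.mem_filter] at hv
      have h11 := (hR2 g v hv.1.1).2 hv.2
      rw [hN, hS]
      refine h11.trans (le_of_eq ?_)
      rw [Finset.mul_sum]
      refine Finset.sum_congr rfl fun l _ => ?_
      rw [Real.sqrt_mul (by positivity), hsq]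
    refine h10.trans ?_
    rw [← Finset.mul_sum]
    refine (mul_le_mul_of_nonneg_left hTV (by positivity)).trans (le_of_eq ?_)
    ring
  have h12 : ∑ v ∈ V, (qq F ^ g * N v - qq F ^ (2 * g + 2)) =
      qq F ^ g * ((∑ v ∈ V, N v) - 5 * qq F ^ (2 * g + 2) + qq F ^ (g + 2)) := by
    rw [Finset.sum_sub_distrib, Finset.sum_const, nsmul_eq_mul, hVc, ← Finset.mul_sum]
    ring
  have hqg : 0 < qq F ^ g := by positivity
  rw [h12, abs_mul, abs_of_pos hqg] at h9
  have h13 := le_of_mul_le_mul_left h9 hqg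
  rw [h8, h8', ← hqY]
  have h14 := abs_le.1 h13
  have h15 : 0 < qq F ^ (g + 2) := by positivity
  rw [abs_le]
  constructor <;> linarith [h14.1, h14.2]

end Q5R
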