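import Pool.Agent.H461.Q5R.Stm4

/-! # RF5: the number of the monic squarefree polynomials of even degree -/

open Polynomial
open scoped Classical

noncomputable section

namespace Q5R

open D5 Q5

namespace XRF5

/-- The Moebius function (used for monic `W` only). -/
def moeb {F : Type} [Field F] (W : F[X]) : ℝ :=
  if Squarefree W then (-1) ^ (Multiset.card (UniqueFactorizationMonoid.normalizedFactors W)) else 0

section A

variable {F : Type} [Field F] [Fintype F]

theorem mu_abs (W : F[X]) : |moeb W| ≤ 1 := by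
  unfold moeb
  split_ifs with h
  · rw [abs_pow, abs_neg, abs_one, one_pow]
  · rw [abs_zero]; exact zero_le_one

theorem mu_one : moeb (1 : F[X]) = 1 := by
  unfold moeb
  rw [if_pos squarefree_one, UniqueFactorizationMonoid.normalizedFactors_one, Multiset.card_zero,
    pow_zero]

theorem mu_zero_of {W : F[X]} (h : ¬ Squarefree W) : moeb W = 0 := by
  unfold moeb
  rw [if_neg h]

theorem mu_mul (a w : F[X]) (ha : a ≠ 0) (hw : w ≠ 0) (h : IsCoprime a w) :
    moeb (a * w) = moeb a * moeb w := by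
  by_cases h1 : Squarefree a
  · by_cases h2 : Squarefree w
    · have h3 : Squarefree (a * w) := squarefree_mul_iff.2 ⟨h.isRelPrime, h1, h2⟩
      unfold moeb
      rw [if_pos h1, if_pos h2, if_pos h3,
        UniqueFactorizationMonoid.normalizedFactors_mul ha hw, Multiset.card_add, pow_add]
    · have h3 : ¬ Squarefree (a * w) := fun h4 => h2 (squarefree_mul_iff.1 h4).2.2
      rw [mu_zero_of h3, mu_zero_of h2, mul_zero]
  · have h3 : ¬ Squarefree (a * w) := fun h4 => h1 (squarefree_mul_iff.1 h4).2.1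
    rw [mu_zero_of h3, mu_zero_of h1, zero_mul]

theorem mu_irr {p : F[X]} (hp : Irreducible p) : moeb p = -1 := by
  unfold moeb
  rw [if_pos hp.squarefree, UniqueFactorizationMonoid.normalizedFactors_irreducible hp,
    Multiset.card_singleton, pow_one]

variable [CharP F 5]

theorem collapse (hB0 : D5.S_B0 F) (m : ℕ) (P : F[X] → Prop) (h : F[X] → ℝ) :
    ∑ w ∈ Finset.range (m + 1), ∑ W ∈ (MON F w).filter P, h W =
      ∑ W ∈ (POL F (m + 1)).filter (fun W => W.Monic ∧ P W), h W := by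
  obtain ⟨hPOL, hMON, -⟩ := hB0
  rw [← Finset.sum_fiberwise_of_maps_to (s := (POL F (m + 1)).filter (fun W => W.Monic ∧ P W))
    (t := Finset.range (m + 1)) (g := fun W => W.natDegree)]
  · refine Finset.sum_congr rfl fun w hw => ?_
    refine Finset.sum_congr ?_ fun _ _ => rfl
    ext W
    rw [Finset.mem_filter, Finset.mem_filter, Finset.mem_filter, hMON, hPOL]
    constructor
    · rintro ⟨⟨h1, h2⟩, h3⟩
      refine ⟨⟨?_, h1, h3⟩, h2⟩
      rw [Polynomial.degree_eq_natDegree h1.ne_zero, h2]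
      exact_mod_cast Finset.mem_range.1 hw
    · rintro ⟨⟨_, h1, h3⟩, h2⟩
      exact ⟨⟨h1, h2⟩, h3⟩
  · intro W hW
    rw [Finset.mem_filter, hPOL] at hW
    obtain ⟨h1, h2, _⟩ := hW
    rw [Polynomial.degree_eq_natDegree h2.ne_zero] at h1
    exact Finset.mem_range.2 (by exact_mod_cast h1)

theorem sum_one (hB0 : D5.S_B0 F) (m : ℕ) (P : F[X] → Prop) (h1 : P 1)
    (h2 : ∀ W : F[X], W.Monic → P W → W = 1) :
    ∑ w ∈ Finset.range (m + 1), ∑ W ∈ (MON F w).filter P, moeb W = 1 := by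
  rw [collapse hB0]
  have h3 : (POL F (m + 1)).filter (fun W => W.Monic ∧ P W) = {1} := by
    ext W
    rw [Finset.mem_filter, Finset.mem_singleton, hB0.1]
    constructor
    · rintro ⟨_, h3, h4⟩
      exact h2 W h3 h4
    · rintro rfl
      refine ⟨?_, monic_one, h1⟩
      rw [Polynomial.degree_one]
      exact_mod_cast Nat.succ_pos m
  rw [h3, Finset.sum_singleton, mu_one]

theorem sum_zero (hB0 : D5.S_B0 F) (m : ℕ) (P : F[X] → Prop) {p : F[X]} (hp : Irreducible p)
    (hm : p.Monic) (hdeg : ∀ W : F[X], W.Monic → P W → W.natDegree ≤ m)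
    (h1 : ∀ a : F[X], IsCoprime a p → P a → P (a * p))
    (h2 : ∀ a : F[X], P (a * p) → P a) :
    ∑ w ∈ Finset.range (m + 1), ∑ W ∈ (MON F w).filter P, moeb W = 0 := by
  rw [collapse hB0]
  have hp0 : p ≠ 0 := hp.ne_zero
  -- restrict to squarefree
  have hs : ∑ W ∈ (POL F (m + 1)).filter (fun W => W.Monic ∧ P W), moeb W =
      ∑ W ∈ ((POL F (m + 1)).filter (fun W => W.Monic ∧ P W)).filter (fun W => Squarefree W),
        moeb W := by
    symm
    apply Finset.sum_filter_of_ne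
    intro W _ hW
    by_contra h3
    exact hW (mu_zero_of h3)
  rw [hs]
  have hmem : ∀ W : F[X], W ∈ ((POL F (m + 1)).filter (fun W => W.Monic ∧ P W)).filter
      (fun W => Squarefree W) ↔ W.Monic ∧ P W ∧ Squarefree W := by
    intro W
    rw [Finset.mem_filter, Finset.mem_filter, hB0.1]
    constructor
    · rintro ⟨⟨_, h3, h4⟩, h5⟩
      exact ⟨h3, h4, h5⟩
    · rintro ⟨h3, h4, h5⟩
      refine ⟨⟨?_, h3, h4⟩, h5⟩
      rw [Polynomial.degree_eq_natDegree h3.ne_zero]
      exact_mod_cast Nat.lt_succ_of_le (hdeg W h3 h4)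
  have hcop : ∀ c : F[X], ¬ p ∣ c → IsCoprime c p := fun c hc =>
    ((Irreducible.coprime_iff_not_dvd hp).2 hc).symm
  have hsq : ∀ c : F[X], Squarefree (c * p) → ¬ p ∣ c := by
    rintro c h3 ⟨e, rfl⟩
    exact hp.not_isUnit (h3 p ⟨e, by ring⟩)
  refine Finset.sum_involution (fun W _ => if p ∣ W then W / p else W * p) ?_ ?_ ?_ ?_
  · intro W hW
    obtain ⟨h3, h4, h5⟩ := (hmem W).1 hW
    by_cases h6 : p ∣ W
    · obtain ⟨c, rfl⟩ := h6
      rw [if_pos (dvd_mul_right p c), mul_div_cancel_left₀ c hp0]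
      have h7 : ¬ p ∣ c := hsq c (by rw [mul_comm]; exact h5)
      have hc0 : c ≠ 0 := by
        rintro rfl
        exact h7 (dvd_zero p)
      rw [mu_mul p c hp0 hc0 (hcop c h7).symm, mu_irr hp]
      ring
    · rw [if_neg h6, mu_mul W p h3.ne_zero hp0 (hcop W h6), mu_irr hp]
      ring
  · intro W hW _
    obtain ⟨h3, h4, h5⟩ := (hmem W).1 hW
    have hd : 0 < p.natDegree := hp.natDegree_pos
    by_cases h6 : p ∣ W
    · obtain ⟨c, rfl⟩ := h6
      rw [if_pos (dvd_mul_right p c), mul_div_cancel_left₀ c hp0]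
      intro h7
      have hc0 : c ≠ 0 := by
        rintro rfl
        exact h3.ne_zero (mul_zero p)
      have h8 := Polynomial.natDegree_mul hp0 hc0
      rw [← h7] at h8
      omega
    · rw [if_neg h6]
      intro h7
      have h8 := Polynomial.natDegree_mul h3.ne_zero hp0
      rw [h7] at h8
      omega
  · intro W hW
    obtain ⟨h3, h4, h5⟩ := (hmem W).1 hW
    rw [hmem]
    by_cases h6 : p ∣ W
    · obtain ⟨c, rfl⟩ := h6
      rw [if_pos (dvd_mul_right p c), mul_div_cancel_left₀ c hp0]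
      refine ⟨hm.of_mul_monic_left h3, h2 c (by rw [mul_comm]; exact h4),
        h5.of_mul_right⟩
    · rw [if_neg h6]
      refine ⟨h3.mul hm, h1 W (hcop W h6) h4, ?_⟩
      exact squarefree_mul_iff.2 ⟨(hcop W h6).isRelPrime, h5, hp.squarefree⟩
  · intro W hW
    obtain ⟨h3, h4, h5⟩ := (hmem W).1 hW
    by_cases h6 : p ∣ W
    · obtain ⟨c, rfl⟩ := h6
      have h7 : ¬ p ∣ c := hsq c (by rw [mul_comm]; exact h5)
      simp only [dvd_mul_right, if_true, mul_div_cancel_left₀ c hp0, h7, if_false]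
      ring
    · simp only [h6, if_false, dvd_mul_left, if_true, mul_div_cancel_right₀ W hp0]

theorem exists_monic_irr {g : F[X]} (hg : ¬ IsUnit g) (h0 : g ≠ 0) :
    ∃ p : F[X], Irreducible p ∧ p.Monic ∧ p ∣ g := by
  obtain ⟨p, hp, hpg⟩ := WfDvdMonoid.exists_irreducible_factor hg h0
  refine ⟨normalize p, ?_, Polynomial.monic_normalize hp.ne_zero, ?_⟩
  · exact (normalize_associated p).symm.irreducible hp
  · exact (normalize_dvd_iff).2 hpg

theorem part3 (hB0 : D5.S_B0 F) (n m : ℕ) (f : F[X]) (hf : f.Monic) (hn : f.natDegree = n)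
    (hnm : n ≤ 2 * m + 1) :
    ∑ w ∈ Finset.range (m + 1), ∑ W ∈ (MON F w).filter (fun W => W ^ 2 ∣ f), moeb W =
      if Squarefree f then 1 else 0 := by
  by_cases h : Squarefree f
  · rw [if_pos h]
    refine sum_one hB0 m _ (by rw [one_pow]; exact one_dvd f) ?_
    intro W hW h1
    have h2 : IsUnit W := h W (by rw [← pow_two]; exact h1)
    exact hW.eq_one_of_isUnit h2
  · rw [if_neg h]
    have h3 : ∃ g : F[X], g * g ∣ f ∧ ¬ IsUnit g := by
      by_contra h4
      push Not at h4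
      exact h fun g hg => h4 g hg
    obtain ⟨g, h4, h5⟩ := h3
    have hg0 : g ≠ 0 := by
      rintro rfl
      rw [mul_zero, zero_dvd_iff] at h4
      exact hf.ne_zero h4
    obtain ⟨p, hp, hpm, hpg⟩ := exists_monic_irr h5 hg0
    have h6 : p ^ 2 ∣ f := by
      rw [pow_two]
      exact (mul_dvd_mul hpg hpg).trans h4
    refine sum_zero hB0 m _ hp hpm ?_ ?_ ?_
    · intro W hW h7
      have h8 := Polynomial.natDegree_le_of_dvd h7 hf.ne_zero
      rw [Polynomial.natDegree_pow] at h8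
      omega
    · intro a ha h7
      rw [mul_pow]
      exact (ha.pow).mul_dvd h7 h6
    · intro a h7
      rw [mul_pow] at h7
      exact (dvd_mul_right _ _).trans h7

theorem part4 (hB0 : D5.S_B0 F) (m : ℕ) (b : F[X]) (hb : b.Monic) (hn : b.natDegree ≤ m) :
    ∑ w ∈ Finset.range (m + 1), ∑ a ∈ (MON F w).filter (fun a => a ∣ b), moeb a =
      if b = 1 then 1 else 0 := by
  by_cases h : b = 1
  · rw [if_pos h]
    refine sum_one hB0 m _ (one_dvd b) ?_
    intro W hW h1
    rw [h] at h1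
    exact hW.eq_one_of_isUnit (isUnit_of_dvd_one h1)
  · rw [if_neg h]
    have h5 : ¬ IsUnit b := fun h6 => h (hb.eq_one_of_isUnit h6)
    obtain ⟨p, hp, hpm, hpg⟩ := exists_monic_irr h5 hb.ne_zero
    refine sum_zero hB0 m _ hp hpm ?_ ?_ ?_
    · intro W hW h7
      exact (Polynomial.natDegree_le_of_dvd h7 hb.ne_zero).trans hn
    · intro a ha h7
      exact ha.mul_dvd h7 hpg
    · intro a h7
      exact (dvd_mul_right _ _).trans h7

theorem card_mult (hB0 : D5.S_B0 F) {w k : ℕ} (hwk : w ≤ k) {a : F[X]} (ha : a ∈ MON F w) :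
    ((MON F k).filter (fun b => a ∣ b)).card = Fintype.card F ^ (k - w) := by
  have hMON := hB0.2.1
  rw [← hB0.2.2.2.2.1 (k - w)]
  obtain ⟨h1, h2⟩ := (hMON w a).1 ha
  symm
  refine Finset.card_bij (fun c _ => a * c) ?_ ?_ ?_
  · intro c hc
    obtain ⟨h3, h4⟩ := (hMON _ c).1 hc
    rw [Finset.mem_filter, hMON]
    refine ⟨⟨h1.mul h3, ?_⟩, dvd_mul_right a c⟩
    rw [h1.natDegree_mul h3, h2, h4]
    omega
  · intro c _ d _ h3
    exact mul_left_cancel₀ h1.ne_zero h3
  · intro b hb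
    rw [Finset.mem_filter, hMON] at hb
    obtain ⟨⟨h3, h4⟩, c, rfl⟩ := hb
    have h5 : c.Monic := h1.of_mul_monic_left h3
    refine ⟨c, ?_, rfl⟩
    rw [hMON]
    refine ⟨h5, ?_⟩
    rw [h1.natDegree_mul h5, h2] at h4
    omega

theorem conv (hB0 : D5.S_B0 F) (k : ℕ) :
    ∑ w ∈ Finset.range (k + 1), (∑ W ∈ MON F w, moeb W) * qq F ^ (k - w) = if k = 0 then 1 else 0 := by
  have hMON := hB0.2.1
  have h1 : ∑ b ∈ MON F k, ∑ w ∈ Finset.range (k + 1), ∑ a ∈ (MON F w).filter (fun a => a ∣ b), moeb a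
      = ∑ b ∈ MON F k, if b = 1 then (1 : ℝ) else 0 := by
    refine Finset.sum_congr rfl fun b hb => ?_
    obtain ⟨h2, h3⟩ := (hMON k b).1 hb
    exact part4 hB0 k b h2 h3.le
  have h2 : ∑ b ∈ MON F k, (if b = 1 then (1 : ℝ) else 0) = if k = 0 then 1 else 0 := by
    rw [Finset.sum_ite_eq' (MON F k) (1 : F[X]) (fun _ => (1 : ℝ))]
    by_cases hk : k = 0
    · rw [if_pos hk, if_pos]
      rw [hMON, hk]
      exact ⟨monic_one, natDegree_one⟩
    · rw [if_neg hk, if_neg]
      rw [hMON, natDegree_one]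
      rintro ⟨_, h3⟩
      exact hk h3.symm
  rw [← h2, ← h1, Finset.sum_comm]
  refine Finset.sum_congr rfl fun w hw => ?_
  have hwk : w ≤ k := Nat.lt_succ_iff.1 (Finset.mem_range.1 hw)
  have h3 : ∀ b : F[X], ∑ a ∈ (MON F w).filter (fun a => a ∣ b), moeb a =
      ∑ a ∈ MON F w, if a ∣ b then moeb a else 0 := fun b => Finset.sum_filter _ _
  simp only [h3]
  rw [Finset.sum_comm, Finset.sum_mul]
  refine Finset.sum_congr rfl fun a ha => ?_
  rw [← Finset.sum_filter, Finset.sum_const, card_mult hB0 hwk ha, nsmul_eq_mul, mul_comm]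
  unfold qq
  push_cast
  rfl

theorem part5 (hB0 : D5.S_B0 F) (w : ℕ) :
    ∑ W ∈ MON F w, moeb W = if w = 0 then 1 else if w = 1 then - qq F else 0 := by
  have hrec : ∀ k : ℕ, ∑ W ∈ MON F (k + 1), moeb W = - qq F * (if k = 0 then 1 else 0) := by
    intro k
    have h1 := conv hB0 (k + 1)
    have h2 := conv hB0 k
    rw [if_neg (Nat.succ_ne_zero k), Finset.sum_range_succ, Nat.sub_self, pow_zero, mul_one] at h1
    have h3 : ∑ w ∈ Finset.range (k + 1), (∑ W ∈ MON F w, moeb W) * qq F ^ (k + 1 - w) =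
        qq F * ∑ w ∈ Finset.range (k + 1), (∑ W ∈ MON F w, moeb W) * qq F ^ (k - w) := by
      rw [Finset.mul_sum]
      refine Finset.sum_congr rfl fun w hw => ?_
      have hwk : w ≤ k := Nat.lt_succ_iff.1 (Finset.mem_range.1 hw)
      rw [Nat.succ_sub hwk, pow_succ]
      ring
    rw [h3, h2] at h1
    linarith
  rcases w with _ | k
  · rw [if_pos rfl]
    have h1 := conv hB0 0
    rw [if_pos rfl, Finset.sum_range_one, Nat.sub_self, pow_zero, mul_one] at h1
    exact h1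
  · rw [hrec k, if_neg (Nat.succ_ne_zero k)]
    by_cases hk : k = 0
    · rw [if_pos hk, if_pos (by omega), mul_one]
    · rw [if_neg hk, if_neg (by omega), mul_zero]

end A

section B

variable (F : Type) [Field F] [Fintype F] [CharP F 5]

theorem sieve (hB0 : D5.S_B0 F) (n m : ℕ) (Y : F[X] → ℝ) (hnm : n ≤ 2 * m + 1) :
    ∑ f ∈ SQF F n, Y f = ∑ w ∈ Finset.range (m + 1), ∑ W ∈ MON F w,
      moeb W * ∑ f ∈ (MON F n).filter (fun f => W ^ 2 ∣ f), Y f := by
  have h3 := part3 hB0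
  obtain ⟨_, hmon, _⟩ := hB0
  have h1 : ∑ f ∈ SQF F n, Y f = ∑ f ∈ MON F n, (if Squarefree f then (1 : ℝ) else 0) * Y f := by
    unfold SQF
    rw [Finset.sum_filter]
    refine Finset.sum_congr rfl fun f _ => ?_
    split_ifs <;> simp
  have h2 : ∀ f ∈ MON F n, (if Squarefree f then (1 : ℝ) else 0) * Y f =
      ∑ w ∈ Finset.range (m + 1), ∑ W ∈ MON F w, (if W ^ 2 ∣ f then moeb W * Y f else 0) := by
    intro f hf
    have hf' := (hmon n f).1 hf
    rw [← h3 n m f hf'.1 hf'.2 hnm, Finset.sum_mul]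
    refine Finset.sum_congr rfl fun w _ => ?_
    rw [Finset.sum_mul, Finset.sum_filter]
  rw [h1, Finset.sum_congr rfl h2, Finset.sum_comm]
  refine Finset.sum_congr rfl fun w _ => ?_
  rw [Finset.sum_comm]
  refine Finset.sum_congr rfl fun W _ => ?_
  rw [← Finset.sum_filter, Finset.mul_sum]

theorem card_mult2 (hB0 : D5.S_B0 F) {n w : ℕ} (h : 2 * w ≤ n) {W : F[X]} (hW : W ∈ MON F w) :
    ((MON F n).filter (fun f => W ^ 2 ∣ f)).card = Fintype.card F ^ (n - 2 * w) := by
  obtain ⟨_, hmon, _, _, hcard, _⟩ := hB0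
  rw [← hcard (n - 2 * w)]
  have hW' := (hmon w W).1 hW
  have hW2 : (W ^ 2).Monic := hW'.1.pow 2
  have hd2 : (W ^ 2).natDegree = 2 * w := by rw [hW'.1.natDegree_pow, hW'.2]
  symm
  refine Finset.card_bij (fun h _ => W ^ 2 * h) ?_ ?_ ?_
  · intro g hg
    have hg' := (hmon _ g).1 hg
    rw [Finset.mem_filter, hmon]
    refine ⟨⟨hW2.mul hg'.1, ?_⟩, dvd_mul_right _ _⟩
    rw [hW2.natDegree_mul hg'.1, hd2, hg'.2]
    omega
  · intro a _ b _ hab
    exact mul_left_cancel₀ hW2.ne_zero hab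
  · intro f hf
    rw [Finset.mem_filter, hmon] at hf
    obtain ⟨⟨hf1, hf2⟩, g, rfl⟩ := hf
    have hg : g.Monic := hW2.of_mul_monic_left hf1
    refine ⟨g, (hmon _ g).2 ⟨hg, ?_⟩, rfl⟩
    rw [hW2.natDegree_mul hg, hd2] at hf2
    omega

end B

end XRF5

theorem p_RF5 (F : Type) [Field F] [Fintype F] [CharP F 5] (hB0 : D5.S_B0 F) : S_RF5 F := by
  intro g
  have h1 := XRF5.sieve F hB0 (2 * g + 2) (g + 1) (fun _ => 1) (by omega)
  rw [Finset.sum_const, nsmul_eq_mul, mul_one] at h1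
  rw [h1]
  have h2 : ∀ w ∈ Finset.range (g + 1 + 1), ∑ W ∈ MON F w,
      XRF5.moeb W * ∑ f ∈ (MON F (2 * g + 2)).filter (fun f => W ^ 2 ∣ f), (1 : ℝ) =
      (if w = 0 then 1 else if w = 1 then - qq F else 0) * qq F ^ (2 * g + 2 - 2 * w) := by
    intro w hw
    rw [Finset.mem_range] at hw
    have h3 : ∀ W ∈ MON F w, XRF5.moeb W * ∑ f ∈ (MON F (2 * g + 2)).filter (fun f => W ^ 2 ∣ f), (1 : ℝ) =
        XRF5.moeb W * qq F ^ (2 * g + 2 - 2 * w) := by
      intro W hW
      rw [Finset.sum_const, nsmul_eq_mul, mul_one, XRF5.card_mult2 F hB0 (by omega) hW, Nat.cast_pow]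
      rfl
    rw [Finset.sum_congr rfl h3, ← Finset.sum_mul, XRF5.part5 hB0 w]
  rw [Finset.sum_congr rfl h2, Finset.sum_range_succ', Finset.sum_range_succ']
  have h4 : ∑ x ∈ Finset.range g, (if x + 1 + 1 = 0 then (1 : ℝ) else if x + 1 + 1 = 1 then - qq F
      else 0) * qq F ^ (2 * g + 2 - 2 * (x + 1 + 1)) = 0 := by
    refine Finset.sum_eq_zero fun x _ => ?_
    rw [if_neg (by omega), if_neg (by omega), zero_mul]
  rw [h4]
  have h5 : 2 * g + 2 - 2 * (0 + 1) = 2 * g := by omega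
  have h6 : 2 * g + 2 - 2 * 0 = 2 * g + 2 := by omega
  rw [h5, h6]
  simp only [zero_add, one_ne_zero, if_false, if_true, one_mul]
  ring

end Q5R
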