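import Pool.Agent.H461.Q5R.Stm4

/-!
# Project Q5R, RL1: the low part, degrees and gcd (edit of Q5.L1)
-/

open Polynomial
open scoped Classical

noncomputable section

namespace Q5R

open D5 Q5

namespace XRL1

variable {F : Type} [Field F]

/-- The monic gcd of two polynomials, the second one nonzero. -/
lemma exists_gcd (w v : F[X]) (hv : v ≠ 0) : ∃ δ v' w' : F[X], δ.Monic ∧ w = δ * w' ∧ v = δ * v' ∧
    IsCoprime v' w' := by
  have h1 : EuclideanDomain.gcd w v ∣ w := EuclideanDomain.gcd_dvd_left w v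
  have h2 : EuclideanDomain.gcd w v ∣ v := EuclideanDomain.gcd_dvd_right w v
  have h3 := EuclideanDomain.gcd_eq_gcd_ab w v
  obtain ⟨D, hD⟩ : ∃ D, D = EuclideanDomain.gcd w v := ⟨_, rfl⟩
  obtain ⟨a, ha⟩ : ∃ a, a = EuclideanDomain.gcdA w v := ⟨_, rfl⟩
  obtain ⟨b, hb⟩ : ∃ b, b = EuclideanDomain.gcdB w v := ⟨_, rfl⟩
  rw [← hD] at h1 h2 h3
  rw [← ha, ← hb] at h3
  obtain ⟨w₀, hw₀⟩ := h1
  obtain ⟨v₀, hv₀⟩ := h2
  have hD0 : D ≠ 0 := by
    rintro rfl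
    exact hv (by rw [hv₀, zero_mul])
  have hc : D.leadingCoeff ≠ 0 := leadingCoeff_ne_zero.2 hD0
  have hcc : C D.leadingCoeff⁻¹ * C D.leadingCoeff = (1 : F[X]) := by
    rw [← C_mul, inv_mul_cancel₀ hc, C_1]
  refine ⟨D * C D.leadingCoeff⁻¹, C D.leadingCoeff * v₀, C D.leadingCoeff * w₀,
    monic_mul_leadingCoeff_inv hD0, ?_, ?_, ?_⟩
  · calc w = D * w₀ := hw₀
      _ = D * (C D.leadingCoeff⁻¹ * C D.leadingCoeff) * w₀ := by rw [hcc, mul_one]
      _ = _ := by ring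
  · calc v = D * v₀ := hv₀
      _ = D * (C D.leadingCoeff⁻¹ * C D.leadingCoeff) * v₀ := by rw [hcc, mul_one]
      _ = _ := by ring
  · have h4 : D * (w₀ * a + v₀ * b) = D * 1 := by
      calc D * (w₀ * a + v₀ * b) = (D * w₀) * a + (D * v₀) * b := by ring
        _ = D * 1 := by rw [← hw₀, ← hv₀, ← h3, mul_one]
    have h5 := mul_left_cancel₀ hD0 h4
    refine ⟨C D.leadingCoeff⁻¹ * b, C D.leadingCoeff⁻¹ * a, ?_⟩
    calc C D.leadingCoeff⁻¹ * b * (C D.leadingCoeff * v₀) +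
          C D.leadingCoeff⁻¹ * a * (C D.leadingCoeff * w₀) =
          (C D.leadingCoeff⁻¹ * C D.leadingCoeff) * (w₀ * a + v₀ * b) := by ring
      _ = 1 := by rw [hcc, h5, one_mul]

end XRL1

theorem p_RL1 (F : Type) [Field F] [Fintype F] [CharP F 5] (hB0 : D5.S_B0 F) (hS8 : Q5.S_S8 F) :
    S_RL1 F := by
  intro g l v k hl hv _ hLO
  obtain ⟨hPOL, -⟩ := hB0
  obtain ⟨-, hb1, hcop⟩ := hS8.1 g l hl
  have hc2 : (bb g l).1.natDegree ≤ rr g l := by
    have h := hcop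
    unfold Cop at h
    tauto
  obtain ⟨-, z, α, ⟨-, hk1, hz, hzd, -⟩, hvz, hα⟩ := hLO
  have hα0 : α ≠ 0 := by
    rintro rfl
    rw [mul_zero] at hvz
    exact (mul_ne_zero hv hz) hvz
  rw [hPOL, degree_eq_natDegree hα0, Nat.cast_lt] at hα
  have hdeg : v.natDegree + z.natDegree = 5 * (bb g l).1.natDegree + α.natDegree := by
    have h := congrArg natDegree hvz
    rw [natDegree_mul hv hz, natDegree_mul (pow_ne_zero _ hb1) hα0, natDegree_pow] at h
    exact h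
  refine ⟨hb1, hc2, by omega, ?_⟩
  obtain ⟨δ, v', w', hδ, hw, hv', hco⟩ := XRL1.exists_gcd ((bb g l).1 ^ 5) v hv
  have hδ0 : δ ≠ 0 := hδ.ne_zero
  have hv0 : v' ≠ 0 := by
    rintro rfl
    exact hv (by rw [hv', mul_zero])
  refine ⟨δ, hδ, ⟨w', hw⟩, ⟨v', hv'⟩, ?_⟩
  have h1 : v' * z = w' * α := by
    apply mul_left_cancel₀ hδ0
    calc δ * (v' * z) = (δ * v') * z := by ring
      _ = (δ * w') * α := by rw [← hv', ← hw, hvz]
      _ = δ * (w' * α) := by ring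
  have h2 : v' ∣ α := hco.dvd_of_dvd_mul_left ⟨z, h1.symm⟩
  have h3 : v'.natDegree ≤ α.natDegree := natDegree_le_of_dvd h2 hα0
  have h4 : v.natDegree = δ.natDegree + v'.natDegree := by
    conv_lhs => rw [hv']
    exact natDegree_mul hδ0 hv0
  omega

end Q5R
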