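import Pool.Agent.H461.Q5R.Stm4

/-!
# Q5R: the statement RL2, low part, sum over `v` (helper706; adapted from Q5.L2)
-/

open Polynomial
open scoped Classical

noncomputable section

namespace Q5R

open D5 Q5

namespace XRL2

theorem five_le (F : Type) [Field F] [Fintype F] [CharP F 5] : (5 : ℝ) ≤ qq F := by
  have h1 : (5 : ℕ) ∣ Fintype.card F :=
    (CharP.cast_eq_zero_iff F 5 (Fintype.card F)).1 (Nat.cast_card_eq_zero F)
  have h2 : 5 ≤ Fintype.card F := Nat.le_of_dvd Fintype.card_pos h1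
  unfold qq
  exact_mod_cast h2

section

variable {F : Type} [Field F] [Fintype F]

/-- the number of the nonzero multiples of `δ` -/
theorem cnt (hq : 5 ≤ qq F) (b1 : ∀ n (g : F[X]), g ∈ POL F n ↔ g.degree < n)
    (b4 : ∀ n, (POL F n).card = Fintype.card F ^ n) (n i : ℕ) {δ : F[X]} (hδ : δ ≠ 0)
    (hi : δ.natDegree = i) :
    ((((POL F n).filter (fun v => v ≠ 0)).filter (fun v => δ ∣ v)).card : ℝ) ≤
      qq F ^ ((n : ℝ) - (i : ℝ)) := by
  have hq0 : 0 < qq F := by linarith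
  rcases le_or_gt i n with h | h
  · have h1 : ((POL F n).filter (fun v => v ≠ 0)).filter (fun v => δ ∣ v) ⊆
        (POL F (n - i)).image (fun w => δ * w) := by
      intro v hv
      rw [Finset.mem_filter, Finset.mem_filter, b1] at hv
      obtain ⟨⟨hv1, hv0⟩, w, rfl⟩ := hv
      have hw0 : w ≠ 0 := right_ne_zero_of_mul hv0
      rw [degree_eq_natDegree hv0, natDegree_mul hδ hw0, hi] at hv1
      have hv2 : i + w.natDegree < n := by exact_mod_cast hv1
      rw [Finset.mem_image]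
      refine ⟨w, ?_, rfl⟩
      rw [b1, degree_eq_natDegree hw0]
      exact_mod_cast (by omega : w.natDegree < n - i)
    have h2 := (Finset.card_le_card h1).trans Finset.card_image_le
    rw [b4] at h2
    have h3 : qq F ^ ((n : ℝ) - (i : ℝ)) = ((Fintype.card F ^ (n - i) : ℕ) : ℝ) := by
      rw [← Nat.cast_sub h, Real.rpow_natCast]
      unfold qq
      push_cast
      ring
    rw [h3]
    exact_mod_cast h2
  · have h1 : ((POL F n).filter (fun v => v ≠ 0)).filter (fun v => δ ∣ v) = ∅ := by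
      rw [Finset.filter_eq_empty_iff]
      intro v hv hd
      rw [Finset.mem_filter, b1] at hv
      obtain ⟨hv1, hv0⟩ := hv
      rw [degree_eq_natDegree hv0] at hv1
      have hv2 : v.natDegree < n := by exact_mod_cast hv1
      have := natDegree_le_of_dvd hd hv0
      omega
    rw [h1, Finset.card_empty, Nat.cast_zero]
    exact (Real.rpow_pos_of_pos hq0 _).le

/-- the sum over a set of nonzero `v` of degree `< n` -/
theorem gen [CharP F 5] (hq : 5 ≤ qq F) (b1 : ∀ n (g : F[X]), g ∈ POL F n ↔ g.degree < n)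
    (b2 : ∀ n (f : F[X]), f ∈ MON F n ↔ f.Monic ∧ f.natDegree = n)
    (b4 : ∀ n, (POL F n).card = Fintype.card F ^ n) (hDV : S_DV F) (g : ℕ) (l : Fin g → F)
    {b : F[X]} (hb : b ≠ 0) (n : ℕ) (S : Finset F[X])
    (hS : ∀ v ∈ S, v ≠ 0 ∧ v ∈ POL F n ∧ ∃ k : ℕ, KR g l v = Fintype.card F ^ k ∧
      ∃ δ : F[X], δ.Monic ∧ δ ∣ b ^ 5 ∧ δ ∣ v ∧ k + 5 * b.natDegree ≤ 2 * g + 2 + δ.natDegree) :
    ∑ v ∈ S, Real.sqrt (KR g l v : ℝ) ≤
      2 ^ b.natDegree * qq F ^ ((g : ℝ) + 1 - 5 / 2 * (b.natDegree : ℝ) + (n : ℝ)) := by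
  have hq0 : 0 < qq F := by linarith
  have hq1 : 1 ≤ qq F := by linarith
  obtain ⟨B, hB⟩ : ∃ B, B = b ^ 5 := ⟨_, rfl⟩
  have hB0' : B ≠ 0 := by
    rw [hB]
    exact pow_ne_zero 5 hb
  have hBd : B.natDegree = 5 * b.natDegree := by rw [hB, natDegree_pow]
  obtain ⟨c, hc⟩ : ∃ c : ℝ, c = qq F ^ ((2 * (g : ℝ) + 2 - 5 * (b.natDegree : ℝ)) / 2) := ⟨_, rfl⟩
  have hc0 : 0 < c := by
    rw [hc]
    exact Real.rpow_pos_of_pos hq0 _
  have hterm : ∀ (i : ℕ) (δ v : F[X]), 0 ≤ c * (if δ ∣ v then qq F ^ ((i : ℝ) / 2) else 0) := by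
    intro i δ v
    apply mul_nonneg hc0.le
    split_ifs
    · exact (Real.rpow_pos_of_pos hq0 _).le
    · exact le_rfl
  have key : ∀ v ∈ S, Real.sqrt (KR g l v : ℝ) ≤ ∑ i ∈ Finset.range (5 * b.natDegree + 1),
      ∑ δ ∈ (MON F i).filter (fun m => m ∣ b ^ 5), c *
        (if δ ∣ v then qq F ^ ((i : ℝ) / 2) else 0) := by
    intro v hv
    obtain ⟨hv0, -, k, hKK, δ, hm, hδB, hδv, hle⟩ := hS v hv
    have h1 : δ.natDegree ∈ Finset.range (5 * b.natDegree + 1) := by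
      rw [Finset.mem_range, ← hBd]
      rw [← hB] at hδB
      exact Nat.lt_succ_of_le (natDegree_le_of_dvd hδB hB0')
    have h2 : δ ∈ (MON F δ.natDegree).filter (fun m => m ∣ b ^ 5) := by
      rw [Finset.mem_filter, b2]
      exact ⟨⟨hm, rfl⟩, hδB⟩
    have h3 : Real.sqrt (KR g l v : ℝ) ≤ c *
        (if δ ∣ v then qq F ^ ((δ.natDegree : ℝ) / 2) else 0) := by
      rw [if_pos hδv, hc, ← Real.rpow_add hq0, hKK, Real.sqrt_eq_rpow]
      have h4 : ((Fintype.card F ^ k : ℕ) : ℝ) = qq F ^ (k : ℝ) := by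
        rw [Real.rpow_natCast]
        unfold qq
        push_cast
        ring
      rw [h4, ← Real.rpow_mul hq0.le]
      apply Real.rpow_le_rpow_of_exponent_le hq1
      have h5 : (k : ℝ) + 5 * (b.natDegree : ℝ) ≤ 2 * (g : ℝ) + 2 + (δ.natDegree : ℝ) := by
        exact_mod_cast hle
      linarith
    refine h3.trans ?_
    have h6 := Finset.single_le_sum (f := fun δ' : F[X] => c *
        (if δ' ∣ v then qq F ^ ((δ.natDegree : ℝ) / 2) else 0))
      (fun δ' _ => hterm δ.natDegree δ' v) h2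
    have h7 := Finset.single_le_sum (f := fun i : ℕ => ∑ δ ∈ (MON F i).filter (fun m => m ∣ b ^ 5), c *
        (if δ ∣ v then qq F ^ ((i : ℝ) / 2) else 0))
      (fun i _ => Finset.sum_nonneg fun δ' _ => hterm i δ' v) h1
    exact h6.trans h7
  calc ∑ v ∈ S, Real.sqrt (KR g l v : ℝ)
      ≤ ∑ v ∈ S, ∑ i ∈ Finset.range (5 * b.natDegree + 1),
          ∑ δ ∈ (MON F i).filter (fun m => m ∣ b ^ 5),
          c * (if δ ∣ v then qq F ^ ((i : ℝ) / 2) else 0) :=
        Finset.sum_le_sum key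
    _ ≤ ∑ v ∈ (POL F n).filter (fun v => v ≠ 0), ∑ i ∈ Finset.range (5 * b.natDegree + 1),
          ∑ δ ∈ (MON F i).filter (fun m => m ∣ b ^ 5),
          c * (if δ ∣ v then qq F ^ ((i : ℝ) / 2) else 0) := by
        apply Finset.sum_le_sum_of_subset_of_nonneg
        · intro v hv
          obtain ⟨h0, h1, -⟩ := hS v hv
          rw [Finset.mem_filter]
          exact ⟨h1, h0⟩
        · intro v _ _
          exact Finset.sum_nonneg fun i _ => Finset.sum_nonneg fun δ _ => hterm i δ v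
    _ = ∑ i ∈ Finset.range (5 * b.natDegree + 1), ∑ δ ∈ (MON F i).filter (fun m => m ∣ b ^ 5),
          c * ∑ v ∈ (POL F n).filter (fun v => v ≠ 0),
            (if δ ∣ v then qq F ^ ((i : ℝ) / 2) else 0) := by
        rw [Finset.sum_comm]
        refine Finset.sum_congr rfl fun i _ => ?_
        rw [Finset.sum_comm]
        refine Finset.sum_congr rfl fun δ _ => ?_
        rw [Finset.mul_sum]
    _ ≤ ∑ i ∈ Finset.range (5 * b.natDegree + 1), ∑ δ ∈ (MON F i).filter (fun m => m ∣ b ^ 5),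
          c * (qq F ^ ((n : ℝ) - (i : ℝ)) * qq F ^ ((i : ℝ) / 2)) := by
        refine Finset.sum_le_sum fun i _ => Finset.sum_le_sum fun δ hδ => ?_
        rw [Finset.mem_filter, b2] at hδ
        refine mul_le_mul_of_nonneg_left ?_ hc0.le
        rw [← Finset.sum_filter, Finset.sum_const, nsmul_eq_mul]
        exact mul_le_mul_of_nonneg_right (cnt hq b1 b4 n i hδ.1.1.ne_zero hδ.1.2)
          (Real.rpow_pos_of_pos hq0 _).le
    _ = (c * qq F ^ (n : ℝ)) * ∑ i ∈ Finset.range (5 * b.natDegree + 1),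
          (((MON F i).filter (fun δ => δ ∣ b ^ 5)).card : ℝ) * qq F ^ (-(i : ℝ) / 2) := by
        rw [Finset.mul_sum]
        refine Finset.sum_congr rfl fun i _ => ?_
        rw [Finset.sum_const, nsmul_eq_mul]
        have e : qq F ^ ((n : ℝ) - (i : ℝ)) * qq F ^ ((i : ℝ) / 2) = qq F ^ (n : ℝ) * qq F ^ (-(i : ℝ) / 2) := by
          rw [← Real.rpow_add hq0, ← Real.rpow_add hq0]
          congr 1
          ring
        rw [e]
        ring
    _ ≤ (c * qq F ^ (n : ℝ)) * 2 ^ b.natDegree := by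
        refine mul_le_mul_of_nonneg_left (hDV b hb) ?_
        exact mul_nonneg hc0.le (Real.rpow_pos_of_pos hq0 _).le
    _ = 2 ^ b.natDegree * qq F ^ ((g : ℝ) + 1 - 5 / 2 * (b.natDegree : ℝ) + (n : ℝ)) := by
        rw [hc, ← Real.rpow_add hq0, mul_comm]
        congr 2
        ring

end

end XRL2

open XRL2

theorem p_RL2 (F : Type) [Field F] [Fintype F] [CharP F 5] (hB0 : D5.S_B0 F) (hDV : Q5.S_DV F)
    (hRL1 : S_RL1 F) : S_RL2 F := by
  obtain ⟨b1, b2, -, b4, -, -⟩ := hB0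
  have hq := five_le F
  have hq0 : 0 < qq F := by linarith
  have hq1 : 1 ≤ qq F := by linarith
  intro g h u l hu hl hdh
  obtain ⟨S, hS⟩ : ∃ S, S = (POL F (g + u)).filter (fun v => v ≠ 0 ∧ ∃ k, LOWR g l v k) := ⟨_, rfl⟩
  rw [← hS]
  have hmem : ∀ v ∈ S, v ≠ 0 ∧ v ∈ POL F (g + u) ∧ ∃ k, LOWR g l v k := by
    intro v hv
    rw [hS, Finset.mem_filter] at hv
    exact ⟨hv.2.1, hv.1, hv.2.2⟩
  have hup : ∀ v : F[X], v ≠ 0 → v ∈ POL F (g + u) → v ∈ POL F (g + 1) := by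
    intro v hv0 hv
    rw [b1, degree_eq_natDegree hv0] at hv ⊢
    have hv2 : v.natDegree < g + u := by exact_mod_cast hv
    exact_mod_cast (by omega : v.natDegree < g + 1)
  have hdr : ((bb g l).1.natDegree : ℝ) + h = (rr g l : ℝ) := by exact_mod_cast hdh
  have hpow : (2 : ℝ) ^ (bb g l).1.natDegree ≤ 2 ^ (rr g l) :=
    pow_le_pow_right₀ (by norm_num) (by omega)
  constructor
  · intro h0
    rcases S.eq_empty_or_nonempty with he | ⟨v0, hv0⟩
    · rw [he, Finset.sum_empty]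
      have := Real.rpow_pos_of_pos hq0 (2 * (g : ℝ) + u + 1 - 5 / 2 * (rr g l : ℝ))
      positivity
    obtain ⟨hv00, hv0g, k0, hk0⟩ := hmem v0 hv0
    obtain ⟨hb0, -, -, -⟩ := hRL1 g l v0 k0 hl hv00 (hup v0 hv00 hv0g) hk0
    have hgen := gen hq b1 b2 b4 hDV g l hb0 (g + u) S (fun v hv => by
      obtain ⟨hv1, hv2, k, hk⟩ := hmem v hv
      obtain ⟨-, -, -, δ, hm, hδB, hδv, hle⟩ := hRL1 g l v k hl hv1 (hup v hv1 hv2) hk
      obtain ⟨-, z, α, hGE, -⟩ := hk
      exact ⟨hv1, hv2, k, hGE.1, δ, hm, hδB, hδv, hle⟩)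
    refine hgen.trans ?_
    have hE : (g : ℝ) + 1 - 5 / 2 * ((bb g l).1.natDegree : ℝ) + ((g + u : ℕ) : ℝ) =
        2 * (g : ℝ) + u + 1 - 5 / 2 * (rr g l : ℝ) := by
      rw [← hdr, h0]
      push_cast
      ring
    rw [hE]
    exact mul_le_mul_of_nonneg_right hpow (Real.rpow_pos_of_pos hq0 _).le
  · intro h1
    rcases S.eq_empty_or_nonempty with he | ⟨v0, hv0⟩
    · rw [he, Finset.sum_empty]
      have := Real.rpow_pos_of_pos hq0 (2 * (g : ℝ) + 2 - 5 / 2 * (rr g l : ℝ) - 5 / 2 * (h : ℝ))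
      positivity
    obtain ⟨hv00, hv0g, k0, hk0⟩ := hmem v0 hv0
    obtain ⟨hb0, -, hdeg0, -⟩ := hRL1 g l v0 k0 hl hv00 (hup v0 hv00 hv0g) hk0
    have h5 : 5 * h ≤ g := by omega
    have hgen := gen hq b1 b2 b4 hDV g l hb0 (g + 1 - 5 * h) S (fun v hv => by
      obtain ⟨hv1, hv2, k, hk⟩ := hmem v hv
      obtain ⟨-, -, hdeg, δ, hm, hδB, hδv, hle⟩ := hRL1 g l v k hl hv1 (hup v hv1 hv2) hk
      obtain ⟨-, z, α, hGE, -⟩ := hk
      refine ⟨hv1, ?_, k, hGE.1, δ, hm, hδB, hδv, hle⟩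
      rw [b1, degree_eq_natDegree hv1]
      exact_mod_cast (by omega : v.natDegree < g + 1 - 5 * h))
    refine hgen.trans ?_
    have hn : ((g + 1 - 5 * h : ℕ) : ℝ) = (g : ℝ) + 1 - 5 * (h : ℝ) := by
      rw [Nat.cast_sub (by omega)]
      push_cast
      ring
    have hE : (g : ℝ) + 1 - 5 / 2 * ((bb g l).1.natDegree : ℝ) + ((g + 1 - 5 * h : ℕ) : ℝ) =
        2 * (g : ℝ) + 2 - 5 / 2 * (rr g l : ℝ) - 5 / 2 * (h : ℝ) := by
      rw [← hdr, hn]
      ring
    rw [hE]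
    exact mul_le_mul_of_nonneg_right hpow (Real.rpow_pos_of_pos hq0 _).le

end Q5R
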