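import Pool.Agent.H461.Q5R.Stm4

/-!
# Q5R RL3: the low part, sum over l (edit of Q5 L3)
-/

open Polynomial
open scoped Classical

noncomputable section

namespace Q5R

open D5 Q5

namespace XRL3

/-- the bound of RL2 -/
def MM (q : ℝ) (g e : ℕ) (x : ℕ × ℕ) : ℝ :=
  if x.2 = 0 then 2 ^ x.1 * q ^ (2 * (g : ℝ) + e + 1 - 5 / 2 * (x.1 : ℝ))
  else 2 ^ x.1 * q ^ (2 * (g : ℝ) + 2 - 5 / 2 * (x.1 : ℝ) - 5 / 2 * (x.2 : ℝ))

theorem MM_nonneg {q : ℝ} (hq : 0 < q) (g e : ℕ) (x : ℕ × ℕ) : 0 ≤ MM q g e x := by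
  unfold MM
  split_ifs <;> positivity

/-- the factor of `d` -/
def aa (u : ℝ) (d : ℕ) : ℝ := if d = 0 then 0 else (2 * u) ^ d

/-- the factor of `h` -/
def ch (u : ℝ) (h : ℕ) : ℝ := if h = 0 then 1 else u ^ 5 * (u ^ 7) ^ (h - 1)

theorem geom_le {r : ℝ} (h0 : 0 ≤ r) (h1 : r < 1) (n : ℕ) :
    ∑ i ∈ Finset.range n, r ^ i ≤ (1 - r)⁻¹ := by
  have h3 := mul_neg_geom_sum r n
  have h4 : 0 < 1 - r := by linarith
  rw [← one_div, le_div_iff₀ h4, mul_comm, h3]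
  have : 0 ≤ r ^ n := pow_nonneg h0 _
  linarith

theorem sum_aa {u : ℝ} (h0 : 0 < u) (h1 : u ≤ 9 / 20) (g : ℕ) :
    ∑ d ∈ Finset.range (g + 1), aa u d ≤ 2 * u * 10 := by
  rw [Finset.sum_range_succ']
  have e1 : ∀ d ∈ Finset.range g, aa u (d + 1) = 2 * u * (2 * u) ^ d := by
    intro d _
    unfold aa
    rw [if_neg (Nat.succ_ne_zero d), pow_succ]
    ring
  have e2 : aa u 0 = 0 := if_pos rfl
  rw [Finset.sum_congr rfl e1, ← Finset.mul_sum, e2, add_zero]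
  refine mul_le_mul_of_nonneg_left ?_ (by positivity)
  refine (geom_le (by positivity) (by linarith) g).trans ?_
  rw [inv_le_comm₀ (by linarith) (by norm_num)]
  linarith

theorem sum_ch {u : ℝ} (h0 : 0 < u) (h1 : u ≤ 9 / 20) (g : ℕ) :
    ∑ h ∈ Finset.range (g + 1), ch u h ≤ 3 / 2 := by
  rw [Finset.sum_range_succ']
  have e1 : ∀ h ∈ Finset.range g, ch u (h + 1) = u ^ 5 * (u ^ 7) ^ h := by
    intro h _
    unfold ch
    rw [if_neg (Nat.succ_ne_zero h), Nat.add_sub_cancel]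
  have e2 : ch u 0 = 1 := if_pos rfl
  rw [Finset.sum_congr rfl e1, ← Finset.mul_sum, e2]
  have h7 : u ^ 7 ≤ (9 / 20) ^ 7 := pow_le_pow_left₀ h0.le h1 7
  have h8 : u ^ 7 ≤ 1 / 10 := h7.trans (by norm_num)
  have h9 : ∑ i ∈ Finset.range g, (u ^ 7) ^ i ≤ 10 / 9 := by
    refine (geom_le (by positivity) (by linarith) g).trans ?_
    rw [inv_le_comm₀ (by linarith) (by norm_num)]
    linarith
  have h10 : u ^ 5 * ∑ i ∈ Finset.range g, (u ^ 7) ^ i ≤ u ^ 5 * (10 / 9) :=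
    mul_le_mul_of_nonneg_left h9 (by positivity)
  have h11 : u ^ 5 ≤ (9 / 20) ^ 5 := pow_le_pow_left₀ h0.le h1 5
  have h12 : u ^ 5 ≤ 9 / 20 := h11.trans (by norm_num)
  linarith

theorem key {q : ℝ} (hq : 1 ≤ q) (g e d h : ℕ) (hd : 1 ≤ d) (hh : h ≤ d) :
    2 * q ^ (2 * d - h) * MM q g e (d, h) ≤
      2 * q ^ (2 * (g : ℝ) + e + 1) * (aa (q ^ (-(1 / 2) : ℝ)) d * ch (q ^ (-(1 / 2) : ℝ)) h) := by
  have hq0 : 0 < q := by linarith
  have ea : aa (q ^ (-(1 / 2) : ℝ)) d = 2 ^ d * q ^ (-(1 / 2) * (d : ℝ)) := by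
    unfold aa
    rw [if_neg (by omega), mul_pow, ← Real.rpow_natCast (q ^ (-(1 / 2) : ℝ)) d, ← Real.rpow_mul hq0.le]
  have ed : q ^ (2 * d - h) = q ^ (2 * (d : ℝ) - (h : ℝ)) := by
    rw [← Real.rpow_natCast, Nat.cast_sub (by omega)]
    congr 1
    push_cast
    ring
  rw [ea, ed]
  rcases Nat.eq_zero_or_pos h with h0 | h0
  · subst h0
    have e1 : MM q g e (d, 0) = 2 ^ d * q ^ (2 * (g : ℝ) + e + 1 - 5 / 2 * (d : ℝ)) := if_pos rfl
    have e2 : ch (q ^ (-(1 / 2) : ℝ)) 0 = 1 := if_pos rfl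
    have e3 : q ^ (2 * (d : ℝ) - ((0 : ℕ) : ℝ)) * q ^ (2 * (g : ℝ) + e + 1 - 5 / 2 * (d : ℝ)) =
        q ^ (2 * (g : ℝ) + e + 1) * q ^ (-(1 / 2) * (d : ℝ)) := by
      rw [← Real.rpow_add hq0, ← Real.rpow_add hq0]
      congr 1
      push_cast
      ring
    rw [e1, e2]
    refine le_of_eq ?_
    linear_combination (2 * 2 ^ d) * e3
  · obtain ⟨m, rfl⟩ : ∃ m, h = m + 1 := ⟨h - 1, by omega⟩
    have e1 : MM q g e (d, m + 1) = 2 ^ d * q ^ (2 * (g : ℝ) + 2 - 5 / 2 * (d : ℝ) -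
        5 / 2 * ((m + 1 : ℕ) : ℝ)) := if_neg (Nat.succ_ne_zero m)
    have e2 : ch (q ^ (-(1 / 2) : ℝ)) (m + 1) = q ^ (-(5 / 2) : ℝ) * q ^ (-(7 / 2) * (m : ℝ)) := by
      unfold ch
      rw [if_neg (Nat.succ_ne_zero m), Nat.add_sub_cancel, ← pow_mul,
        ← Real.rpow_natCast (q ^ (-(1 / 2) : ℝ)) (7 * m), ← Real.rpow_mul hq0.le,
        ← Real.rpow_natCast (q ^ (-(1 / 2) : ℝ)) 5, ← Real.rpow_mul hq0.le]
      congr 2
      · push_cast
        ring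
      · push_cast
        ring
    have e3 : q ^ (2 * (d : ℝ) - ((m + 1 : ℕ) : ℝ)) * q ^ (2 * (g : ℝ) + 2 - 5 / 2 * (d : ℝ) -
        5 / 2 * ((m + 1 : ℕ) : ℝ)) * q ^ (e : ℝ) =
        q ^ (2 * (g : ℝ) + e + 1) * (q ^ (-(1 / 2) * (d : ℝ)) *
          (q ^ (-(5 / 2) : ℝ) * q ^ (-(7 / 2) * (m : ℝ)))) := by
      rw [← Real.rpow_add hq0, ← Real.rpow_add hq0, ← Real.rpow_add hq0, ← Real.rpow_add hq0,
        ← Real.rpow_add hq0]
      congr 1
      push_cast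
      ring
    have e4 : 1 ≤ q ^ (e : ℝ) := Real.one_le_rpow hq (Nat.cast_nonneg e)
    rw [e1, e2]
    have e5 : 0 ≤ 2 * q ^ (2 * (d : ℝ) - ((m + 1 : ℕ) : ℝ)) *
        (2 ^ d * q ^ (2 * (g : ℝ) + 2 - 5 / 2 * (d : ℝ) - 5 / 2 * ((m + 1 : ℕ) : ℝ))) := by
      positivity
    refine (le_mul_of_one_le_right e5 e4).trans (le_of_eq ?_)
    linear_combination (2 * 2 ^ d) * e3

variable {F : Type} [Field F] [Fintype F] [CharP F 5]

theorem five_le : 5 ≤ qq F := by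
  have h1 : 5 ∣ Fintype.card F := (CharP.cast_eq_zero_iff F 5 _).1 (FiniteField.cast_card_eq_zero F)
  have h2 : 0 < Fintype.card F := Fintype.card_pos
  have h3 := Nat.le_of_dvd h2 h1
  unfold qq
  exact_mod_cast h3

end XRL3

open XRL3 in
theorem p_RL3 (F : Type) [Field F] [Fintype F] [CharP F 5] (hE4 : D5.S_E4 F) (hS8 : Q5.S_S8 F)
    (hS10 : Q5.S_S10 F) (hRL2 : S_RL2 F) : S_RL3 F := by
  intro g e he
  have hq5 := five_le (F := F)
  have hq : 0 < qq F := by linarith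
  obtain ⟨q, hqe⟩ : ∃ q, q = qq F := ⟨_, rfl⟩
  obtain ⟨u, hu⟩ : ∃ u : ℝ, u = q ^ (-(1 / 2) : ℝ) := ⟨_, rfl⟩
  have hq' : 0 < q := by rw [hqe]; exact hq
  have hu0 : 0 < u := by rw [hu]; exact Real.rpow_pos_of_pos hq' _
  have huu : u * u = q⁻¹ := by
    rw [hu, ← Real.rpow_add hq', ← Real.rpow_neg_one]
    norm_num
  have hu1 : u ≤ 9 / 20 := by
    have h1 : q⁻¹ ≤ 1 / 5 := by
      rw [inv_le_comm₀ hq' (by norm_num), hqe]
      norm_num
      exact hq5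
    by_contra hcon
    push Not at hcon
    nlinarith
  set I : Finset (ℕ × ℕ) := (Finset.range (g + 1) ×ˢ Finset.range (g + 1)).filter
    (fun x => 1 ≤ x.1 ∧ 2 * x.1 ≤ g ∧ x.2 ≤ x.1) with hI
  set T : ℕ × ℕ → Finset (Fin g → F) := fun x => (Finset.univ : Finset (Fin g → F)).filter
    (fun l => l ≠ 0 ∧ rr g l = x.1 ∧ (bb g l).1.natDegree + x.2 = x.1) with hT
  -- one form
  have hone : ∀ l ∈ (Finset.univ : Finset (Fin g → F)).filter (fun l => l ≠ 0),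
      ∑ v ∈ (POL F (g + e)).filter (fun v => v ≠ 0 ∧ ∃ k, LOWR g l v k), Real.sqrt (KR g l v : ℝ) ≤
        ∑ x ∈ I, if l ∈ T x then MM q g e x else 0 := by
    intro l hl
    have hl0 := (Finset.mem_filter.1 hl).2
    have hnn : ∀ x ∈ I, 0 ≤ (if l ∈ T x then MM q g e x else 0) := by
      intro x _
      split_ifs
      · exact MM_nonneg hq' g e x
      · exact le_rfl
    by_cases h2 : 2 * rr g l ≤ g
    · have hd1 : 1 ≤ rr g l := by
        rcases Nat.eq_zero_or_pos (rr g l) with h | h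
        · exact absurd (hE4.2.2.2 g l h) hl0
        · exact h
      have hdeg : (bb g l).1.natDegree ≤ rr g l := (hS8.1 g l hl0).2.2.2.1
      obtain ⟨h, hh⟩ : ∃ h, (bb g l).1.natDegree + h = rr g l := ⟨_, Nat.add_sub_cancel' hdeg⟩
      have hx : (rr g l, h) ∈ I := by
        rw [hI, Finset.mem_filter, Finset.mem_product, Finset.mem_range, Finset.mem_range]
        refine ⟨⟨?_, ?_⟩, hd1, h2, ?_⟩
        · show rr g l < g + 1
          omega
        · show h < g + 1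
          omega
        · show h ≤ rr g l
          omega
      have hTx : l ∈ T (rr g l, h) := by
        rw [hT]
        exact Finset.mem_filter.2 ⟨Finset.mem_univ _, hl0, rfl, hh⟩
      have h3 := Finset.single_le_sum hnn hx
      refine le_trans ?_ h3
      rw [if_pos hTx]
      obtain ⟨hL0, hL1⟩ := hRL2 g h e l he hl0 hh
      unfold MM
      rw [hqe]
      split_ifs with h4
      · exact hL0 h4
      · exact hL1 (Nat.one_le_iff_ne_zero.2 h4)
    · have hempty : (POL F (g + e)).filter (fun v => v ≠ 0 ∧ ∃ k, LOWR g l v k) = ∅ := by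
        apply Finset.filter_eq_empty_iff.2
        rintro v _ ⟨_, k, hk⟩
        exact h2 hk.1
      rw [hempty, Finset.sum_empty]
      exact Finset.sum_nonneg hnn
  refine (Finset.sum_le_sum hone).trans ?_
  rw [Finset.sum_comm]
  -- one pair
  have hpair : ∀ x ∈ I, ∑ l ∈ (Finset.univ : Finset (Fin g → F)).filter (fun l => l ≠ 0),
      (if l ∈ T x then MM q g e x else 0) ≤
        2 * q ^ (2 * (g : ℝ) + e + 1) * (aa u x.1 * ch u x.2) := by
    intro x hx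
    rw [hI, Finset.mem_filter] at hx
    obtain ⟨_, hx1, hx2, hx3⟩ := hx
    have h1 : ∑ l ∈ (Finset.univ : Finset (Fin g → F)).filter (fun l => l ≠ 0),
        (if l ∈ T x then MM q g e x else 0) ≤ ((T x).card : ℝ) * MM q g e x := by
      rw [← Finset.sum_filter, Finset.sum_const, nsmul_eq_mul]
      refine mul_le_mul_of_nonneg_right ?_ (MM_nonneg hq' g e x)
      have h2 : (((Finset.univ : Finset (Fin g → F)).filter (fun l => l ≠ 0)).filter
          (fun l => l ∈ T x)).card ≤ (T x).card := by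
        refine Finset.card_le_card fun l hl => ?_
        exact (Finset.mem_filter.1 hl).2
      exact_mod_cast h2
    have h2 : ((T x).card : ℝ) ≤ 2 * q ^ (2 * x.1 - x.2) := by
      have h3 := hS10.2 g x.1 x.2 hx1 hx2 hx3
      rw [← hqe] at h3
      exact h3
    refine h1.trans ((mul_le_mul_of_nonneg_right h2 (MM_nonneg hq' g e x)).trans ?_)
    have h3 := key (by rw [hqe]; linarith : (1 : ℝ) ≤ q) g e x.1 x.2 hx1 hx3
    rw [← hu] at h3
    exact h3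
  refine (Finset.sum_le_sum hpair).trans ?_
  rw [← Finset.mul_sum]
  have haa : ∀ d, 0 ≤ aa u d := by
    intro d
    unfold aa
    split_ifs <;> positivity
  have hch : ∀ h, 0 ≤ ch u h := by
    intro h
    unfold ch
    split_ifs <;> positivity
  have hsum : ∑ x ∈ I, aa u x.1 * ch u x.2 ≤ (2 * u * 10) * (3 / 2) := by
    have h1 : ∑ x ∈ I, aa u x.1 * ch u x.2 ≤
        ∑ x ∈ Finset.range (g + 1) ×ˢ Finset.range (g + 1), aa u x.1 * ch u x.2 :=
      Finset.sum_le_sum_of_subset_of_nonneg (Finset.filter_subset _ _)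
        fun x _ _ => mul_nonneg (haa _) (hch _)
    refine h1.trans ?_
    rw [Finset.sum_product, ← Finset.sum_mul_sum]
    exact mul_le_mul (sum_aa hu0 hu1 g) (sum_ch hu0 hu1 g) (Finset.sum_nonneg fun h _ => hch h)
      (by positivity)
  have hs0 : 0 < q ^ (2 * (g : ℝ) + e + 1) := Real.rpow_pos_of_pos hq' _
  have hfin : q ^ (2 * (g : ℝ) + e + 1) * u = q ^ (2 * (g : ℝ) + e + 1 / 2) := by
    rw [hu, ← Real.rpow_add hq']
    congr 1
    ring
  have hs1 : 0 < q ^ (2 * (g : ℝ) + e + 1 / 2) := Real.rpow_pos_of_pos hq' _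
  rw [← hqe]
  calc 2 * q ^ (2 * (g : ℝ) + e + 1) * ∑ x ∈ I, aa u x.1 * ch u x.2
      ≤ 2 * q ^ (2 * (g : ℝ) + e + 1) * ((2 * u * 10) * (3 / 2)) :=
        mul_le_mul_of_nonneg_left hsum (by positivity)
    _ = 60 * (q ^ (2 * (g : ℝ) + e + 1) * u) := by ring
    _ = 60 * q ^ (2 * (g : ℝ) + e + 1 / 2) := by rw [hfin]
    _ ≤ 120 * q ^ (2 * (g : ℝ) + e + 1 / 2) := by linarith

end Q5R
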