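import Pool.Agent.H461.Q5R.Stm4

/-!
# Task RSC (helper339): scaling
-/

open Polynomial
open scoped Classical

noncomputable section

namespace Q5R

open D5 Q5

namespace XRSC

variable {F : Type} [Field F] [Fintype F]

omit [Fintype F] in
lemma Lam_C (g : ℕ) (l : Fin g → F) (c : F) (w : F[X]) : Lam g l (C c * w) = c * Lam g l w := by
  unfold Lam
  rw [Finset.mul_sum]
  refine Finset.sum_congr rfl fun j _ => ?_
  rw [coeff_C_mul]
  ring

omit [Fintype F] in
lemma Lam_zero_iff (g : ℕ) (l : Fin g → F) {c : F} (hc : c ≠ 0) (v z y : F[X]) :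
    Lam g l (C c * v * z * y) = 0 ↔ Lam g l (v * z * y) = 0 := by
  have e : C c * v * z * y = C c * (v * z * y) := by ring
  rw [e, Lam_C, mul_eq_zero]
  exact ⟨fun h => h.resolve_left hc, fun h => Or.inr h⟩

lemma KR_C (g : ℕ) (l : Fin g → F) {c : F} (hc : c ≠ 0) (v : F[X]) :
    KR g l (C c * v) = KR g l v := by
  unfold KR
  congr 1
  ext z
  simp only [Finset.mem_filter, Lam_zero_iff g l hc]

lemma EXR_C (g : ℕ) (l : Fin g → F) {c : F} (hc : c ≠ 0) (v : F[X]) :
    EXR g l (C c * v) ↔ EXR g l v := by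
  unfold EXR
  simp only [Lam_zero_iff g l hc]

lemma KR1_C (g : ℕ) (l : Fin g → F) {c : F} (hc : c ≠ 0) (v : F[X]) :
    KR1 g l (C c * v) = KR1 g l v := by
  unfold KR1
  simp only [EXR_C g l hc, KR_C g l hc]

/-- grouping the polynomials of degree `g` by the leading coefficient -/
lemma group (hB0 : D5.S_B0 F) (g : ℕ) (h : F[X] → ℝ)
    (hs : ∀ (c : F) (v : F[X]), c ≠ 0 → h (C c * v) = h v) (p : F → Prop) :
    ∑ v ∈ (DEG F g).filter (fun v => p (v.coeff g)), h v =
      (((Finset.univ : Finset F).filter (fun c => c ≠ 0 ∧ p c)).card : ℝ) *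
        ∑ m ∈ MON F g, h m := by
  have h1 : ∑ v ∈ (DEG F g).filter (fun v => p (v.coeff g)), h v =
      ∑ x ∈ ((Finset.univ : Finset F).filter (fun c => c ≠ 0 ∧ p c)) ×ˢ MON F g, h x.2 := by
    refine Finset.sum_nbij' (fun v => (v.coeff g, C (v.coeff g)⁻¹ * v))
      (fun x => C x.1 * x.2) ?_ ?_ ?_ ?_ ?_
    · intro v hv
      obtain ⟨h1, h2⟩ := Finset.mem_filter.1 hv
      obtain ⟨h3, h4⟩ := (hB0.2.2.1 g v).1 h1
      have h5 : v.coeff g ≠ 0 := by
        rw [← h4]
        exact leadingCoeff_ne_zero.2 h3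
      refine Finset.mem_product.2 ⟨Finset.mem_filter.2 ⟨Finset.mem_univ _, h5, h2⟩,
        (hB0.2.1 g _).2 ⟨?_, ?_⟩⟩
      · show (C (v.coeff g)⁻¹ * v).leadingCoeff = 1
        rw [leadingCoeff_mul, leadingCoeff_C]
        show (v.coeff g)⁻¹ * v.coeff v.natDegree = 1
        rw [h4]
        exact inv_mul_cancel₀ h5
      · show (C (v.coeff g)⁻¹ * v).natDegree = g
        rw [natDegree_C_mul (inv_ne_zero h5), h4]
    · rintro ⟨c, m⟩ hx
      obtain ⟨h1, h2⟩ := Finset.mem_product.1 hx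
      obtain ⟨-, h3, h4⟩ := Finset.mem_filter.1 h1
      obtain ⟨h5, h6⟩ := (hB0.2.1 g m).1 h2
      have h7 : m.coeff g = 1 := by
        rw [← h6]
        exact h5
      refine Finset.mem_filter.2 ⟨(hB0.2.2.1 g _).2 ⟨mul_ne_zero (C_ne_zero.2 h3) h5.ne_zero,
        ?_⟩, ?_⟩
      · show (C c * m).natDegree = g
        rw [natDegree_C_mul h3]
        exact h6
      · show p ((C c * m).coeff g)
        rw [coeff_C_mul, h7, mul_one]
        exact h4
    · intro v hv
      obtain ⟨h1, h2⟩ := Finset.mem_filter.1 hv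
      obtain ⟨h3, h4⟩ := (hB0.2.2.1 g v).1 h1
      have h5 : v.coeff g ≠ 0 := by
        rw [← h4]
        exact leadingCoeff_ne_zero.2 h3
      show C (v.coeff g) * (C (v.coeff g)⁻¹ * v) = v
      rw [← mul_assoc, ← C_mul, mul_inv_cancel₀ h5, C_1, one_mul]
    · rintro ⟨c, m⟩ hx
      obtain ⟨h1, h2⟩ := Finset.mem_product.1 hx
      obtain ⟨-, h3, h4⟩ := Finset.mem_filter.1 h1
      obtain ⟨h5, h6⟩ := (hB0.2.1 g m).1 h2
      have h7 : m.coeff g = 1 := by
        rw [← h6]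
        exact h5
      show ((C c * m).coeff g, C ((C c * m).coeff g)⁻¹ * (C c * m)) = (c, m)
      rw [coeff_C_mul, h7, mul_one, ← mul_assoc, ← C_mul]
      have h3' : c ≠ 0 := h3
      rw [inv_mul_cancel₀ h3', C_1, one_mul]
    · intro v hv
      obtain ⟨h1, h2⟩ := Finset.mem_filter.1 hv
      obtain ⟨h3, h4⟩ := (hB0.2.2.1 g v).1 h1
      have h5 : v.coeff g ≠ 0 := by
        rw [← h4]
        exact leadingCoeff_ne_zero.2 h3
      show h v = h (C (v.coeff g)⁻¹ * v)
      rw [hs _ _ (inv_ne_zero h5)]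
  rw [h1, Finset.sum_product]
  show ∑ _x ∈ (Finset.univ : Finset F).filter (fun c => c ≠ 0 ∧ p c), ∑ m ∈ MON F g, h m = _
  rw [Finset.sum_const, nsmul_eq_mul]

lemma card_all (p : F → Prop) (hp : ∀ c, p c) :
    (((Finset.univ : Finset F).filter (fun c => c ≠ 0 ∧ p c)).card : ℝ) = qq F - 1 := by
  have h1 : (Finset.univ : Finset F).filter (fun c => c ≠ 0 ∧ p c) = Finset.univ.erase 0 := by
    ext c
    simp only [Finset.mem_filter, Finset.mem_univ, true_and, Finset.mem_erase, and_true]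
    exact ⟨fun h => h.1, fun h => ⟨h, hp c⟩⟩
  rw [h1, Finset.card_erase_of_mem (Finset.mem_univ _), Finset.card_univ,
    Nat.cast_sub (Fintype.card_pos (α := F) : 1 ≤ Fintype.card F), Nat.cast_one]
  rfl

lemma card_fix (p : F → Prop) (hp : ∀ c, p c → c ^ 5 = c) :
    (((Finset.univ : Finset F).filter (fun c => c ≠ 0 ∧ p c)).card : ℝ) ≤ 4 := by
  have h1 : (Finset.univ : Finset F).filter (fun c => c ≠ 0 ∧ p c) ⊆
      (nthRoots 4 (1 : F)).toFinset := by
    intro c hc
    obtain ⟨-, h2, h3⟩ := Finset.mem_filter.1 hc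
    rw [Multiset.mem_toFinset, mem_nthRoots (by norm_num)]
    have h4 : c * c ^ 4 = c * 1 := by
      calc c * c ^ 4 = c ^ 5 := by ring
        _ = c := hp c h3
        _ = c * 1 := (mul_one c).symm
    exact mul_left_cancel₀ h2 h4
  have h2 := (Finset.card_le_card h1).trans
    ((Multiset.toFinset_card_le _).trans (card_nthRoots 4 _))
  exact_mod_cast h2

/-- the numbers -/
lemma num {q n S : ℝ} (hq : 0 ≤ q) (hS : 0 ≤ S) (hn : n ≤ 4) : q * (n * S) ≤ 4 * (q * S) := by
  calc q * (n * S) ≤ q * (4 * S) :=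
        mul_le_mul_of_nonneg_left (mul_le_mul_of_nonneg_right hn hS) hq
    _ = 4 * (q * S) := by ring

end XRSC

open XRSC in
theorem p_RSC (F : Type) [Field F] [Fintype F] [CharP F 5] (hB0 : D5.S_B0 F) : S_RSC F := by
  intro g
  obtain ⟨h, hh⟩ : ∃ h : F[X] → ℝ, h = fun v =>
      ∑ l ∈ (Finset.univ : Finset (Fin g → F)).filter (fun l => l ≠ 0),
        Real.sqrt (KR1 g l v : ℝ) := ⟨_, rfl⟩
  have hs : ∀ (c : F) (v : F[X]), c ≠ 0 → h (C c * v) = h v := by
    intro c v hc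
    rw [hh]
    exact Finset.sum_congr rfl fun l _ => by rw [KR1_C g l hc]
  have h0 : ∀ v, 0 ≤ h v := by
    intro v
    rw [hh]
    exact Finset.sum_nonneg fun l _ => Real.sqrt_nonneg _
  have g1 := group hB0 g h hs (fun c => c ^ 5 = c)
  have g2 := group hB0 g h hs (fun _ => True)
  rw [Finset.filter_true] at g2
  have hS : 0 ≤ ∑ m ∈ MON F g, h m := Finset.sum_nonneg fun m _ => h0 m
  have hq : 0 ≤ qq F - 1 := by
    have : (1 : ℝ) ≤ qq F := by
      unfold qq
      exact_mod_cast (Fintype.card_pos (α := F) : 1 ≤ Fintype.card F)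
    linarith
  have h1 : (qq F - 1) * ∑ v ∈ (DEG F g).filter (fun v => v.coeff g ^ 5 = v.coeff g), h v ≤
      4 * ∑ v ∈ DEG F g, h v := by
    rw [g1, g2, card_all (fun _ => True) (fun _ => trivial)]
    exact num hq hS (card_fix (fun c => c ^ 5 = c) fun c hc => hc)
  rw [hh] at h1
  exact h1

end Q5R
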