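import Pool.Agent.H461.Q5R.Stm4

/-!
# Project Q5R, RT0 (helper898 for helper461; edit of `Pool.Agent.H461.Q5.T0` of helper111)
-/

set_option autoImplicit false

open Polynomial
open scoped Classical

noncomputable section

namespace Q5R

open D5 Q5

namespace XRT0

theorem qq_ge (F : Type) [Field F] [Fintype F] [CharP F 5] : (5 : ℝ) ≤ qq F := by
  obtain ⟨n, _, hn⟩ := FiniteField.card F 5
  unfold qq
  rw [hn]
  have h1 : 5 ^ 1 ≤ 5 ^ (n : ℕ) := Nat.pow_le_pow_right (by norm_num) n.pos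
  have h2 : 5 ≤ 5 ^ (n : ℕ) := by simpa using h1
  exact_mod_cast h2

theorem geo {r : ℝ} (h0 : 0 ≤ r) (h1 : r ≤ 2 / 3) (m : ℕ) : ∑ k ∈ Finset.Icc 1 m, r ^ k ≤ 3 * r := by
  have h : (∑ k ∈ Finset.Icc 1 m, r ^ k) * (1 - r) = r * (1 - r ^ m) := by
    induction m with
    | zero => simp
    | succ m ih =>
      rw [Finset.sum_Icc_succ_top (by omega), add_mul, ih, pow_succ]
      ring
  have h2 : (0 : ℝ) ≤ r ^ m := by positivity
  have h3 : 0 ≤ ∑ k ∈ Finset.Icc 1 m, r ^ k := Finset.sum_nonneg fun k _ => by positivity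
  have h4 : r * (1 - r ^ m) ≤ r := by nlinarith
  nlinarith

theorem term {q N M j g k : ℝ} (hq : 0 < q) (hN : 0 ≤ N) (hX : N ≤ 2 * q ^ (M + j + 1))
    (hY : N ≤ 5 * q ^ (M + g + 1 - 2 * k)) :
    N * q ^ (k / 2) ≤ 29 / 10 * q ^ (M + (3 * j + 2 * g) / 5 + 1 - 3 / 10 * k) := by
  have h1 : N ^ 5 ≤ (2 * q ^ (M + j + 1)) ^ 3 * (5 * q ^ (M + g + 1 - 2 * k)) ^ 2 := by
    calc N ^ 5 = N ^ 3 * N ^ 2 := by ring
      _ ≤ _ := mul_le_mul (pow_le_pow_left₀ hN hX 3) (pow_le_pow_left₀ hN hY 2) (by positivity)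
          (by positivity)
  have e1 : (q ^ (M + j + 1)) ^ 3 * (q ^ (M + g + 1 - 2 * k)) ^ 2 * (q ^ (k / 2)) ^ 5 =
      (q ^ (M + (3 * j + 2 * g) / 5 + 1 - 3 / 10 * k)) ^ 5 := by
    rw [← Real.rpow_natCast, ← Real.rpow_natCast, ← Real.rpow_natCast, ← Real.rpow_natCast,
      ← Real.rpow_mul hq.le, ← Real.rpow_mul hq.le, ← Real.rpow_mul hq.le, ← Real.rpow_mul hq.le,
      ← Real.rpow_add hq, ← Real.rpow_add hq]
    congr 1
    push_cast
    ring
  have h2 : (N * q ^ (k / 2)) ^ 5 ≤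
      (29 / 10 * q ^ (M + (3 * j + 2 * g) / 5 + 1 - 3 / 10 * k)) ^ 5 := by
    have h3 : (0 : ℝ) ≤ (q ^ (k / 2)) ^ 5 := by positivity
    calc (N * q ^ (k / 2)) ^ 5 = N ^ 5 * (q ^ (k / 2)) ^ 5 := by rw [mul_pow]
      _ ≤ (2 * q ^ (M + j + 1)) ^ 3 * (5 * q ^ (M + g + 1 - 2 * k)) ^ 2 *
          (q ^ (k / 2)) ^ 5 := mul_le_mul_of_nonneg_right h1 h3
      _ = 200 * ((q ^ (M + j + 1)) ^ 3 * (q ^ (M + g + 1 - 2 * k)) ^ 2 *
          (q ^ (k / 2)) ^ 5) := by ring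
      _ = 200 * (q ^ (M + (3 * j + 2 * g) / 5 + 1 - 3 / 10 * k)) ^ 5 := by rw [e1]
      _ ≤ (29 / 10) ^ 5 * (q ^ (M + (3 * j + 2 * g) / 5 + 1 - 3 / 10 * k)) ^ 5 := by
          refine mul_le_mul_of_nonneg_right ?_ (by positivity)
          norm_num
      _ = _ := by rw [mul_pow]
  exact (pow_le_pow_iff_left₀ (by positivity) (by positivity) (by norm_num)).1 h2

end XRT0

theorem p_RT0 (F : Type) [Field F] [Fintype F] [CharP F 5] (hB0 : D5.S_B0 F) (hS10 : S_S10 F)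
    (hR11 : S_R11 F) : S_RT0 F := by
  intro g d n j a ha hnj hd
  obtain ⟨_, _, _, _, _, hDEG⟩ := hB0
  have hq5 := XRT0.qq_ge F
  obtain ⟨q, hq⟩ : ∃ q : ℝ, q = qq F := ⟨_, rfl⟩
  rw [← hq] at hq5 ⊢
  have hq0 : 0 < q := by linarith
  have hq1 : 1 ≤ q := by linarith
  have hcard : ((Fintype.card F : ℕ) : ℝ) = q := by rw [hq]; rfl
  obtain ⟨μ, hμ⟩ : ∃ μ : ℕ, μ = min (2 * d) g := ⟨_, rfl⟩
  obtain ⟨U, hU⟩ : ∃ U : Finset ((Fin g → F) × F[X]), U = (Finset.univ : Finset (Fin g → F)) ×ˢ DEG F j :=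
    ⟨_, rfl⟩
  obtain ⟨r, hr⟩ : ∃ r : ℝ, r = q ^ (-(3 / 10) : ℝ) := ⟨_, rfl⟩
  have hr0 : 0 < r := by rw [hr]; positivity
  have hr1 : r ≤ 2 / 3 := by
    have h1 : r ^ 10 ≤ (2 / 3 : ℝ) ^ 10 := by
      have e : r ^ 10 = (q ^ 3)⁻¹ := by
        rw [hr, ← Real.rpow_natCast, ← Real.rpow_mul hq0.le, ← Real.rpow_natCast q 3,
          ← Real.rpow_neg hq0.le]
        congr 1
        push_cast
        ring
      rw [e]
      have h2 : (5 : ℝ) ^ 3 ≤ q ^ 3 := pow_le_pow_left₀ (by norm_num) hq5 3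
      have h3 : (q ^ 3)⁻¹ ≤ ((5 : ℝ) ^ 3)⁻¹ := inv_anti₀ (by positivity) h2
      refine h3.trans ?_
      norm_num
    exact (pow_le_pow_iff_left₀ hr0.le (by norm_num) (by norm_num)).1 h1
  obtain ⟨B, hB⟩ : ∃ B : ℝ, B = q ^ ((μ : ℝ) + (3 * (j : ℝ) + 2 * (g : ℝ)) / 5 + 1) := ⟨_, rfl⟩
  have hBp : 0 < B := by rw [hB]; positivity
  -- the bound for fixed `k`
  have hk : ∀ k, 1 ≤ k → ((U.filter (fun p => p.1 ≠ 0 ∧ rr g p.1 = d ∧ Squarefree p.2 ∧
      BIGR g p.1 (a ^ 2 * p.2) k)).card : ℝ) * Real.sqrt (q ^ k) ≤ 29 / 10 * B * r ^ k := by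
    intro k hk1
    have hR := hR11 g d n j k a ha hnj hk1 hd
    rw [← hU, ← hq, ← hμ] at hR
    obtain ⟨N, hN⟩ : ∃ N : ℕ, N = (U.filter (fun p => p.1 ≠ 0 ∧ rr g p.1 = d ∧ Squarefree p.2 ∧
      BIGR g p.1 (a ^ 2 * p.2) k)).card := ⟨_, rfl⟩
    rw [← hN] at hR ⊢
    have hN0 : (0 : ℝ) ≤ N := Nat.cast_nonneg N
    have hX : (N : ℝ) ≤ 2 * q ^ ((μ : ℝ) + j + 1) := by
      have h1 : N ≤ ((Finset.univ : Finset (Fin g → F)).filter (fun l => l ≠ 0 ∧ rr g l = d)).card *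
          (Fintype.card F * Fintype.card F ^ j) := by
        rw [hN]
        calc (U.filter (fun p => p.1 ≠ 0 ∧ rr g p.1 = d ∧ Squarefree p.2 ∧
              BIGR g p.1 (a ^ 2 * p.2) k)).card
            ≤ (((Finset.univ : Finset (Fin g → F)).filter (fun l => l ≠ 0 ∧ rr g l = d)) ×ˢ
                DEG F j).card := by
              refine Finset.card_le_card ?_
              intro p hp
              rw [Finset.mem_filter, hU, Finset.mem_product] at hp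
              rw [Finset.mem_product, Finset.mem_filter]
              exact ⟨⟨Finset.mem_univ _, hp.2.1, hp.2.2.1⟩, hp.1.2⟩
          _ = ((Finset.univ : Finset (Fin g → F)).filter (fun l => l ≠ 0 ∧ rr g l = d)).card *
                (DEG F j).card := Finset.card_product _ _
          _ ≤ _ := by
              refine Nat.mul_le_mul_left _ ?_
              rw [hDEG j]
              exact Nat.mul_le_mul_right _ (Nat.sub_le _ _)
      have h2 := hS10.1 g d hd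
      rw [← hq, ← hμ] at h2
      have h3 : (N : ℝ) ≤ (((Finset.univ : Finset (Fin g → F)).filter
          (fun l => l ≠ 0 ∧ rr g l = d)).card : ℝ) * (q * q ^ j) := by
        rw [← hcard]
        exact_mod_cast h1
      calc (N : ℝ) ≤ (((Finset.univ : Finset (Fin g → F)).filter
            (fun l => l ≠ 0 ∧ rr g l = d)).card : ℝ) * (q * q ^ j) := h3
        _ ≤ 2 * q ^ μ * (q * q ^ j) := mul_le_mul_of_nonneg_right h2 (by positivity)
        _ = 2 * q ^ (μ + j + 1) := by ring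
        _ = 2 * q ^ ((μ : ℝ) + j + 1) := by
            rw [← Real.rpow_natCast]
            congr 2
            push_cast
            ring
    have hY : (N : ℝ) ≤ 5 * q ^ ((μ : ℝ) + g + 1 - 2 * (k : ℝ)) := by
      have e2k : q ^ (2 * k) = q ^ (2 * (k : ℝ)) := by
        rw [← Real.rpow_natCast]
        congr 1
        push_cast
        ring
      rw [Real.rpow_sub hq0, ← e2k, mul_div_assoc', le_div_iff₀ (by positivity)]
      refine hR.trans (le_of_eq ?_)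
      rw [← Real.rpow_natCast]
      congr 2
      push_cast
      ring
    have h5 := XRT0.term hq0 hN0 hX hY
    have e1 : Real.sqrt (q ^ k) = q ^ ((k : ℝ) / 2) := by
      rw [Real.sqrt_eq_rpow, ← Real.rpow_natCast, ← Real.rpow_mul hq0.le]
      congr 1
      ring
    have e2 : q ^ ((μ : ℝ) + (3 * (j : ℝ) + 2 * (g : ℝ)) / 5 + 1 - 3 / 10 * (k : ℝ)) = B * r ^ k := by
      rw [hB, hr, ← Real.rpow_natCast, ← Real.rpow_mul hq0.le, ← Real.rpow_add hq0]
      congr 1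
      ring
    rw [e1]
    refine h5.trans (le_of_eq ?_)
    rw [e2]
    ring
  -- the sum over `k`
  rw [← hU]
  have hsum : ∑ p ∈ U.filter (fun p => p.1 ≠ 0 ∧ rr g p.1 = d ∧ Squarefree p.2 ∧
      ∃ k, BIGR g p.1 (a ^ 2 * p.2) k), Real.sqrt (KR g p.1 (a ^ 2 * p.2) : ℝ) ≤
      ∑ k ∈ Finset.Icc 1 (2 * g + 2), ((U.filter (fun p => p.1 ≠ 0 ∧ rr g p.1 = d ∧
      Squarefree p.2 ∧ BIGR g p.1 (a ^ 2 * p.2) k)).card : ℝ) * Real.sqrt (q ^ k) := by
    calc ∑ p ∈ U.filter (fun p => p.1 ≠ 0 ∧ rr g p.1 = d ∧ Squarefree p.2 ∧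
          ∃ k, BIGR g p.1 (a ^ 2 * p.2) k), Real.sqrt (KR g p.1 (a ^ 2 * p.2) : ℝ)
        ≤ ∑ p ∈ U.filter (fun p => p.1 ≠ 0 ∧ rr g p.1 = d ∧ Squarefree p.2 ∧
          ∃ k, BIGR g p.1 (a ^ 2 * p.2) k), ∑ k ∈ Finset.Icc 1 (2 * g + 2),
            (if BIGR g p.1 (a ^ 2 * p.2) k then Real.sqrt (q ^ k) else 0) := by
          refine Finset.sum_le_sum fun p hp => ?_
          rw [Finset.mem_filter] at hp
          obtain ⟨_, _, _, _, k, hBIG⟩ := hp
          have hBIG' := hBIG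
          obtain ⟨z, hGE, _⟩ := hBIG'
          obtain ⟨hKK0, hk1, _, hdeg, _⟩ := hGE
          have hmem : k ∈ Finset.Icc 1 (2 * g + 2) := Finset.mem_Icc.2 ⟨hk1, by omega⟩
          have hKK : (KR g p.1 (a ^ 2 * p.2) : ℝ) = q ^ k := by
            rw [hKK0, ← hcard]
            push_cast
            rfl
          have h1 := Finset.single_le_sum
            (f := fun k => (if BIGR g p.1 (a ^ 2 * p.2) k then Real.sqrt (q ^ k) else 0))
            (fun i _ => by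
              split_ifs
              · exact Real.sqrt_nonneg _
              · exact le_rfl) hmem
          refine le_trans (le_of_eq ?_) h1
          show _ = (if BIGR g p.1 (a ^ 2 * p.2) k then Real.sqrt (q ^ k) else 0)
          rw [if_pos hBIG, hKK]
      _ = ∑ k ∈ Finset.Icc 1 (2 * g + 2), ∑ p ∈ U.filter (fun p => p.1 ≠ 0 ∧ rr g p.1 = d ∧
          Squarefree p.2 ∧ ∃ k, BIGR g p.1 (a ^ 2 * p.2) k),
            (if BIGR g p.1 (a ^ 2 * p.2) k then Real.sqrt (q ^ k) else 0) := Finset.sum_comm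
      _ ≤ _ := by
          refine Finset.sum_le_sum fun k _ => ?_
          rw [← Finset.sum_filter, Finset.sum_const, nsmul_eq_mul]
          refine mul_le_mul_of_nonneg_right ?_ (Real.sqrt_nonneg _)
          refine Nat.cast_le.2 (Finset.card_le_card ?_)
          intro p hp
          rw [Finset.mem_filter, Finset.mem_filter] at hp
          rw [Finset.mem_filter]
          exact ⟨hp.1.1, hp.1.2.1, hp.1.2.2.1, hp.1.2.2.2.1, hp.2⟩
  refine hsum.trans ?_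
  calc ∑ k ∈ Finset.Icc 1 (2 * g + 2), ((U.filter (fun p => p.1 ≠ 0 ∧ rr g p.1 = d ∧
          Squarefree p.2 ∧ BIGR g p.1 (a ^ 2 * p.2) k)).card : ℝ) * Real.sqrt (q ^ k)
      ≤ ∑ k ∈ Finset.Icc 1 (2 * g + 2), 29 / 10 * B * r ^ k :=
        Finset.sum_le_sum fun k hk' => hk k (Finset.mem_Icc.1 hk').1
    _ = 29 / 10 * B * ∑ k ∈ Finset.Icc 1 (2 * g + 2), r ^ k := by rw [Finset.mul_sum]
    _ ≤ 29 / 10 * B * (3 * r) := mul_le_mul_of_nonneg_left (XRT0.geo hr0.le hr1 _) (by positivity)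
    _ = 87 / 10 * (B * r) := by ring
    _ ≤ 13 * (B * r) := mul_le_mul_of_nonneg_right (by norm_num) (by positivity)
    _ ≤ 13 * q ^ ((μ : ℝ) + (3 * (j : ℝ) + 2 * (g : ℝ)) / 5 + 3 / 4) := by
        refine mul_le_mul_of_nonneg_left ?_ (by norm_num)
        rw [hB, hr, ← Real.rpow_add hq0]
        exact Real.rpow_le_rpow_of_exponent_le hq1 (by linarith)
    _ = _ := by rw [hμ]

end Q5R
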