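import Pool.Agent.H461.Q5R.Stm4

/-!
# Project Q5R, RT1 (helper346, edit of `Q5.T1` by helper399): summation over `a`, `j`, `d`
-/

open Polynomial
open scoped Classical

noncomputable section

namespace Q5R

open D5 Q5

namespace XRT1

theorem ub {α ι : Type} (s : Finset α) (I : Finset ι) (P : ι → α → Prop) (f : α → ℝ)
    (hf : ∀ x, 0 ≤ f x) (h : ∀ x ∈ s, ∃ i ∈ I, P i x) :
    ∑ x ∈ s, f x ≤ ∑ i ∈ I, ∑ x ∈ s.filter (fun x => P i x), f x := by
  simp_rw [Finset.sum_filter]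
  rw [Finset.sum_comm]
  refine Finset.sum_le_sum fun x hx => ?_
  obtain ⟨i, hi, hP⟩ := h x hx
  have h1 : (if P i x then f x else 0) ≤ ∑ i ∈ I, (if P i x then f x else 0) :=
    Finset.single_le_sum (f := fun i => if P i x then f x else 0)
      (fun i _ => by
        show 0 ≤ (if P i x then f x else 0)
        split_ifs
        · exact hf x
        · exact le_rfl) hi
  rwa [if_pos hP] at h1

theorem cov {α β : Type} (s : Finset α) (u : Finset β) (φ : β → α) (f : α → ℝ)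
    (hf : ∀ x, 0 ≤ f x) (h : ∀ x ∈ s, ∃ y ∈ u, φ y = x) :
    ∑ x ∈ s, f x ≤ ∑ y ∈ u, f (φ y) := by
  refine (ub s u (fun y x => φ y = x) f hf h).trans (Finset.sum_le_sum fun y _ => ?_)
  have h1 : s.filter (fun x => φ y = x) ⊆ {φ y} := by
    intro x hx
    rw [Finset.mem_filter] at hx
    rw [Finset.mem_singleton]
    exact hx.2.symm
  refine (Finset.sum_le_sum_of_subset_of_nonneg h1 (fun x _ _ => hf x)).trans ?_
  rw [Finset.sum_singleton]

theorem geo {x : ℝ} (hx : 2613 / 1000 ≤ x) (m : ℕ) :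
    x * ∑ i ∈ Finset.range m, x ^ i ≤ 162 / 100 * x ^ m := by
  have h1 : (∑ i ∈ Finset.range m, x ^ i) * (x - 1) = x ^ m - 1 := geom_sum_mul x m
  have h2 : 0 ≤ ∑ i ∈ Finset.range m, x ^ i :=
    Finset.sum_nonneg fun i _ => pow_nonneg (by linarith) i
  have h3 : x * ∑ i ∈ Finset.range m, x ^ i ≤
      162 / 100 * ((∑ i ∈ Finset.range m, x ^ i) * (x - 1)) := by
    have h4 : 0 ≤ (162 / 100 * (x - 1) - x) * ∑ i ∈ Finset.range m, x ^ i :=
      mul_nonneg (by linarith) h2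
    linarith
  rw [h1] at h3
  linarith

theorem geo' {y : ℝ} (hy0 : 0 ≤ y) (hy : y ≤ 7252 / 10000) (m : ℕ) :
    ∑ i ∈ Finset.range m, y ^ i ≤ 364 / 100 := by
  have h1 : (∑ i ∈ Finset.range m, y ^ i) * (1 - y) = 1 - y ^ m := geom_sum_mul_neg y m
  have h2 : 0 ≤ ∑ i ∈ Finset.range m, y ^ i := Finset.sum_nonneg fun i _ => by positivity
  have h3 : 0 ≤ y ^ m := by positivity
  have h4 : (∑ i ∈ Finset.range m, y ^ i) * (2748 / 10000) ≤
      (∑ i ∈ Finset.range m, y ^ i) * (1 - y) := mul_le_mul_of_nonneg_left (by linarith) h2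
  linarith

theorem geoq {q : ℝ} (hq : 5 ≤ q) (g : ℕ) : ∑ i ∈ Finset.range (g + 1), q ^ i ≤ 5 / 4 * q ^ g := by
  induction g with
  | zero => norm_num
  | succ g ih =>
    rw [Finset.sum_range_succ, pow_succ q g]
    have h1 : 0 ≤ (q - 5) * q ^ g := mul_nonneg (by linarith) (pow_nonneg (by linarith) g)
    linarith

/-- The sum over `d`. -/
theorem sumd {q : ℝ} (hq : 5 ≤ q) (g : ℕ) :
    ∑ d ∈ Finset.Icc 1 ((g + 1) / 2), q ^ (min (2 * d) g) ≤ 5 / 4 * q ^ g := by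
  have hinj : Set.InjOn (fun d : ℕ => min (2 * d) g)
      (Finset.Icc 1 ((g + 1) / 2) : Finset ℕ) := by
    intro d hd e he h
    rw [Finset.mem_coe, Finset.mem_Icc] at hd he
    have h' : min (2 * d) g = min (2 * e) g := h
    omega
  have h1 : ∑ i ∈ (Finset.Icc 1 ((g + 1) / 2)).image (fun d : ℕ => min (2 * d) g), q ^ i =
      ∑ d ∈ Finset.Icc 1 ((g + 1) / 2), q ^ (min (2 * d) g) := Finset.sum_image hinj
  rw [← h1]
  refine le_trans (Finset.sum_le_sum_of_subset_of_nonneg ?_ fun i _ _ =>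
    pow_nonneg (by linarith) i) (geoq hq g)
  intro i hi
  rw [Finset.mem_image] at hi
  obtain ⟨d, -, rfl⟩ := hi
  rw [Finset.mem_range]
  omega

/-- The sum over `n, j`. -/
theorem sumnj {t : ℝ} (ht : 1379 / 1000 ≤ t) (g e : ℕ) :
    (∑ p ∈ (Finset.range g ×ˢ Finset.range g).filter (fun p => 2 * p.1 + p.2 < g),
      t ^ (5 * p.1 + (3 * p.2 + e))) * t ^ 3 ≤ 162 / 100 * (364 / 100) * t ^ (3 * g + e) := by
  have h0 : 0 < t := by linarith
  have h2 : (2613 / 1000 : ℝ) ≤ t ^ 3 := by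
    have : (1379 / 1000 : ℝ) ^ 3 ≤ t ^ 3 := pow_le_pow_left₀ (by norm_num) ht 3
    norm_num at this
    linarith
  rw [Finset.sum_filter, Finset.sum_product, Finset.sum_mul]
  have key : ∀ n ∈ Finset.range g, (∑ j ∈ Finset.range g,
      (if 2 * n + j < g then t ^ (5 * n + (3 * j + e)) else 0)) * t ^ 3 ≤
      162 / 100 * t ^ (3 * g + e) * (t⁻¹) ^ n := by
    intro n _
    rw [← Finset.sum_filter]
    have e1 : (Finset.range g).filter (fun j => 2 * n + j < g) = Finset.range (g - 2 * n) := by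
      ext j
      rw [Finset.mem_filter, Finset.mem_range, Finset.mem_range]
      omega
    rw [e1]
    by_cases hn : 2 * n < g
    · have e2 : ∀ j, t ^ (5 * n + (3 * j + e)) = t ^ (5 * n + e) * (t ^ 3) ^ j := by
        intro j
        rw [← pow_mul, ← pow_add]
        congr 1
        ring
      simp_rw [e2]
      rw [← Finset.mul_sum]
      have h3 := mul_le_mul_of_nonneg_left (geo h2 (g - 2 * n))
        (by positivity : (0 : ℝ) ≤ t ^ (5 * n + e))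
      have e3 : t ^ (5 * n + e) * (∑ i ∈ Finset.range (g - 2 * n), (t ^ 3) ^ i) * t ^ 3 =
          t ^ (5 * n + e) * (t ^ 3 * ∑ i ∈ Finset.range (g - 2 * n), (t ^ 3) ^ i) := by ring
      rw [e3]
      refine h3.trans (le_of_eq ?_)
      have e4 : t ^ (5 * n + e) * (162 / 100 * (t ^ 3) ^ (g - 2 * n)) =
          162 / 100 * (t ^ (5 * n + e) * (t ^ 3) ^ (g - 2 * n)) := by ring
      rw [e4, mul_assoc]
      congr 1
      rw [inv_pow, ← div_eq_mul_inv, eq_div_iff (by positivity), ← pow_mul, ← pow_add, ← pow_add]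
      congr 1
      omega
    · have e3 : g - 2 * n = 0 := by omega
      rw [e3, Finset.range_zero, Finset.sum_empty, zero_mul]
      positivity
  refine (Finset.sum_le_sum key).trans ?_
  rw [← Finset.mul_sum]
  have h5 : t⁻¹ ≤ 7252 / 10000 := by
    rw [inv_le_comm₀ h0 (by norm_num)]
    norm_num
    linarith
  have h6 := geo' (inv_nonneg.2 h0.le) h5 g
  have h7 : 0 ≤ 162 / 100 * t ^ (3 * g + e) := by positivity
  have h8 := mul_le_mul_of_nonneg_left h6 h7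
  linarith

end XRT1

open XRT1 in
theorem p_RT1 (F : Type) [Field F] [Fintype F] [CharP F 5] (hB0 : D5.S_B0 F) (hSQ : D5.S_SQ F)
    (hE4 : D5.S_E4 F) (hRT0 : S_RT0 F) : S_RT1 F := by
  obtain ⟨hP, hM, hD, -, hcM, -⟩ := hB0
  obtain ⟨-, -, hr1, hr2⟩ := hE4
  intro g u hu
  -- the fifth root of `q`
  have hq5 : (5 : ℝ) ≤ qq F := by
    have h1 : 5 ≤ Fintype.card F := by
      have h2 : (5 : ℕ) ∣ Fintype.card F := by
        have h3 := (CharP.cast_eq_zero_iff F 5 (Fintype.card F)).1 (FiniteField.cast_card_eq_zero F)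
        exact h3
      exact Nat.le_of_dvd Fintype.card_pos h2
    unfold qq
    exact_mod_cast h1
  have hq0 : (0 : ℝ) < qq F := by linarith
  obtain ⟨t, ht⟩ : ∃ t : ℝ, t = qq F ^ (1 / 5 : ℝ) := ⟨_, rfl⟩
  obtain ⟨s, hs⟩ : ∃ s : ℝ, s = qq F ^ (3 / 4 : ℝ) := ⟨_, rfl⟩
  obtain ⟨r, hr⟩ : ∃ r : ℝ, r = qq F ^ (3 / 20 : ℝ) := ⟨_, rfl⟩
  have ht0 : 0 < t := by rw [ht]; positivity
  have hs0 : 0 < s := by rw [hs]; positivity
  have hr0 : 0 < r := by rw [hr]; positivity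
  have ht5 : t ^ 5 = qq F := by
    rw [ht, ← Real.rpow_natCast, ← Real.rpow_mul hq0.le]
    norm_num
  have hrs : r * t ^ 3 = s := by
    rw [hr, ht, hs, ← Real.rpow_natCast, ← Real.rpow_mul hq0.le, ← Real.rpow_add hq0]
    norm_num
  have ht1 : 1379 / 1000 ≤ t := by
    by_contra hlt
    push Not at hlt
    have h1 : t ^ 5 ≤ (1379 / 1000 : ℝ) ^ 5 := pow_le_pow_left₀ ht0.le hlt.le 5
    rw [ht5] at h1
    norm_num at h1
    linarith
  have hrp : ∀ d j : ℕ, qq F ^ (((min (2 * d) g : ℕ) : ℝ) + (3 * (j : ℝ) + 2 * (g : ℝ)) / 5 + 3 / 4) =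
      qq F ^ (min (2 * d) g) * t ^ (3 * j + 2 * g) * s := by
    intro d j
    rw [Real.rpow_add hq0, Real.rpow_add hq0, Real.rpow_natCast, ← hs]
    congr 2
    rw [ht, ← Real.rpow_natCast, ← Real.rpow_mul hq0.le]
    congr 1
    push_cast
    ring
  -- the set of the pairs
  obtain ⟨A, hA⟩ : ∃ A : Finset (Fin g → F), A = (Finset.univ : Finset (Fin g → F)).filter
    (fun l => l ≠ 0) := ⟨_, rfl⟩
  obtain ⟨f, hf⟩ : ∃ f : (Fin g → F) × F[X] → ℝ, f = fun p => Real.sqrt (KR g p.1 p.2 : ℝ) :=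
    ⟨_, rfl⟩
  have hf0 : ∀ p, 0 ≤ f p := fun p => by rw [hf]; exact Real.sqrt_nonneg _
  obtain ⟨S, hS⟩ : ∃ S : Finset ((Fin g → F) × F[X]), S =
    (A ×ˢ POL F (g + u)).filter (fun p => p.2 ≠ 0 ∧ ∃ k, BIGR g p.1 p.2 k) := ⟨_, rfl⟩
  have hsum : ∑ p ∈ S, f p = ∑ l ∈ A, ∑ v ∈ (POL F (g + u)).filter (fun v => v ≠ 0 ∧ ∃ k, BIGR g l v k),
      Real.sqrt (KR g l v : ℝ) := by
    rw [hS, hf, Finset.sum_filter, Finset.sum_product]
    refine Finset.sum_congr rfl fun l _ => ?_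
    rw [Finset.sum_filter]
  rw [← hA, ← hsum]
  obtain ⟨I, hI⟩ : ∃ I : Finset (ℕ × ℕ), I = (Finset.range (g + u) ×ˢ Finset.range (g + u)).filter
    (fun p => 2 * p.1 + p.2 < g + u) := ⟨_, rfl⟩
  obtain ⟨P2, hP2⟩ : ∃ P2 : ℕ → F[X] → (Fin g → F) × F[X] → Prop, ∀ j a x, P2 j a x ↔
      ∃ b ∈ DEG F j, Squarefree b ∧ x.2 = a ^ 2 * b := ⟨fun j a x => _, fun _ _ _ => Iff.rfl⟩
  obtain ⟨P1, hP1⟩ : ∃ P1 : ℕ × ℕ × ℕ → (Fin g → F) × F[X] → Prop, ∀ i x, P1 i x ↔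
      (rr g x.1 = i.1 ∧ ∃ a ∈ MON F i.2.1, P2 i.2.2 a x) := ⟨fun i x => _, fun _ _ => Iff.rfl⟩
  -- splitting
  have hsplit : ∀ x ∈ S, ∃ i ∈ Finset.Icc 1 ((g + 1) / 2) ×ˢ I, P1 i x := by
    rintro ⟨l, v⟩ hx
    rw [hS, Finset.mem_filter, Finset.mem_product, hA, Finset.mem_filter] at hx
    obtain ⟨⟨⟨-, hl⟩, hv⟩, hv0, -⟩ := hx
    simp only at hl hv hv0
    obtain ⟨a, b, ha, hb0, hb, hab⟩ := hSQ v hv0
    have hdeg : v.natDegree = 2 * a.natDegree + b.natDegree := by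
      rw [hab, natDegree_mul (pow_ne_zero 2 ha.ne_zero) hb0, natDegree_pow]
    have hvg : v.natDegree < g + u := (natDegree_lt_iff_degree_lt hv0).2 ((hP (g + u) v).1 hv)
    refine ⟨(rr g l, (a.natDegree, b.natDegree)), ?_, (hP1 _ _).2 ⟨rfl, a, (hM _ a).2 ⟨ha, rfl⟩,
      (hP2 _ _ _).2 ⟨b, (hD _ b).2 ⟨hb0, rfl⟩, hb, hab⟩⟩⟩
    have h1 := hr1 g l
    have h2 : 1 ≤ rr g l := by
      by_contra h3
      exact hl (hr2 g l (by omega))
    rw [Finset.mem_product, Finset.mem_Icc, hI, Finset.mem_filter, Finset.mem_product,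
      Finset.mem_range, Finset.mem_range]
    simp only
    omega
  have h1 := ub S (Finset.Icc 1 ((g + 1) / 2) ×ˢ I) P1 f hf0 hsplit
  have h2 : ∀ i ∈ Finset.Icc 1 ((g + 1) / 2) ×ˢ I, ∑ x ∈ S.filter (fun x => P1 i x), f x ≤
      13 * s * (qq F ^ (min (2 * i.1) g) * t ^ (5 * i.2.1 + (3 * i.2.2 + 2 * g))) := by
    rintro ⟨d, n, j⟩ hi
    rw [Finset.mem_product, Finset.mem_Icc, hI, Finset.mem_filter] at hi
    simp only at hi ⊢
    obtain ⟨⟨hd1, hd2⟩, -, hnj⟩ := hi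
    have h3 := ub (S.filter (fun x => P1 (d, n, j) x)) (MON F n) (P2 j) f hf0 (fun x hx => by
          rw [Finset.mem_filter] at hx
          obtain ⟨-, a, ha, hb⟩ := (hP1 _ _).1 hx.2
          exact ⟨a, ha, hb⟩)
    refine h3.trans ?_
    have h4 : ∀ a ∈ MON F n, ∑ x ∈ (S.filter (fun x => P1 (d, n, j) x)).filter (fun x => P2 j a x), f x ≤
        13 * (qq F ^ (min (2 * d) g) * t ^ (3 * j + 2 * g) * s) := by
      intro a ha
      have h5 := hRT0 g d n j a ha (by omega) hd1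
      rw [hrp] at h5
      refine le_trans ?_ h5
      have h6 := cov ((S.filter (fun x => P1 (d, n, j) x)).filter (fun x => P2 j a x))
        (((Finset.univ : Finset (Fin g → F)) ×ˢ DEG F j).filter (fun p => p.1 ≠ 0 ∧ rr g p.1 = d ∧
          Squarefree p.2 ∧ ∃ k, BIGR g p.1 (a ^ 2 * p.2) k))
        (fun p : (Fin g → F) × F[X] => (p.1, a ^ 2 * p.2)) f hf0 ?_
      · rw [hf] at h6 ⊢
        exact h6
      rintro ⟨l, v⟩ hx
      rw [Finset.mem_filter, Finset.mem_filter, hS, Finset.mem_filter, Finset.mem_product, hA,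
        Finset.mem_filter] at hx
      obtain ⟨⟨⟨⟨⟨-, hl⟩, -⟩, -, k, hk⟩, hp1⟩, hp2⟩ := hx
      obtain ⟨hrk, -⟩ := (hP1 _ _).1 hp1
      obtain ⟨b, hb, hbs, hv⟩ := (hP2 _ _ _).1 hp2
      simp only at hk hrk hv hl
      refine ⟨(l, b), ?_, ?_⟩
      · rw [Finset.mem_filter, Finset.mem_product]
        refine ⟨⟨Finset.mem_univ _, hb⟩, hl, hrk, hbs, k, ?_⟩
        simp only
        rw [← hv]
        exact hk
      · simp only
        rw [← hv]
    refine (Finset.sum_le_sum h4).trans (le_of_eq ?_)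
    rw [Finset.sum_const, hcM, nsmul_eq_mul, pow_add t (5 * n), pow_mul t 5 n, ht5]
    unfold qq
    push_cast
    ring
  refine h1.trans ((Finset.sum_le_sum h2).trans ?_)
  rw [Finset.sum_product]
  simp only
  simp_rw [← Finset.mul_sum]
  rw [← Finset.sum_mul]
  have h6 := sumd hq5 g
  have h7 := sumnj ht1 (g + u) (2 * g)
  rw [← hI] at h7
  obtain ⟨z1, hz1⟩ : ∃ z1 : ℝ, z1 = ∑ d ∈ Finset.Icc 1 ((g + 1) / 2), qq F ^ (min (2 * d) g) :=
    ⟨_, rfl⟩
  obtain ⟨z2, hz2⟩ : ∃ z2 : ℝ, z2 = ∑ p ∈ I, t ^ (5 * p.1 + (3 * p.2 + 2 * g)) := ⟨_, rfl⟩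
  rw [← hz1] at h6 ⊢
  rw [← hz2] at h7 ⊢
  have h8 : 0 ≤ z2 := by
    rw [hz2]
    exact Finset.sum_nonneg fun _ _ => by positivity
  have h9 : 0 ≤ z1 := by
    rw [hz1]
    exact Finset.sum_nonneg fun _ _ => by positivity
  have hfin : qq F ^ (2 * (g : ℝ) + u + 3 / 20) = qq F ^ g * qq F ^ g * qq F ^ u * r := by
    rw [Real.rpow_add hq0, ← hr]
    congr 1
    rw [← pow_add, ← pow_add, ← Real.rpow_natCast]
    congr 1
    push_cast
    ring
  have htg : t ^ (3 * (g + u) + 2 * g) ≤ qq F ^ g * qq F ^ u := by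
    rw [← ht5, ← pow_mul, ← pow_mul, ← pow_add]
    exact pow_le_pow_right₀ (by linarith) (by omega)
  have h7' : z2 * t ^ 3 ≤ 162 / 100 * (364 / 100) * (qq F ^ g * qq F ^ u) :=
    h7.trans (mul_le_mul_of_nonneg_left htg (by norm_num))
  rw [hfin, ← hrs]
  have h10 : z1 * (z2 * t ^ 3) ≤ 5 / 4 * qq F ^ g * (162 / 100 * (364 / 100) * (qq F ^ g * qq F ^ u)) :=
    mul_le_mul h6 h7' (by positivity) (by positivity)
  have h11 := mul_le_mul_of_nonneg_left h10 (by positivity : (0 : ℝ) ≤ 13 * r)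
  have h12 : 13 * (r * t ^ 3) * (z1 * z2) = 13 * r * (z1 * (z2 * t ^ 3)) := by ring
  rw [h12]
  refine h11.trans ?_
  have h13 : 0 ≤ qq F ^ g * qq F ^ g * qq F ^ u * r := by positivity
  have h14 : 13 * r * (5 / 4 * qq F ^ g * (162 / 100 * (364 / 100) * (qq F ^ g * qq F ^ u))) =
      (13 * (5 / 4) * (162 / 100) * (364 / 100)) * (qq F ^ g * qq F ^ g * qq F ^ u * r) := by ring
  rw [h14]
  exact mul_le_mul_of_nonneg_right (by norm_num) h13

end Q5R
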