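import Pool.Agent.H461.Q5R.Stm4

/-!
# T2: assembly of the two parts (edit of D5.T2 of helper102, by helper969)
-/

set_option linter.unusedSectionVars false

open Polynomial
open scoped Classical

noncomputable section

namespace Q5R

open D5 Q5

namespace XRT2

variable {F : Type} [Field F] [Fintype F] [CharP F 5]

theorem one_lt_qq : 1 < qq F := by
  unfold qq
  exact_mod_cast Fintype.one_lt_card

theorem KR1_le (g : ℕ) (l : Fin g → F) (v : F[X]) : KR1 g l v ≤ KR g l v := by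
  unfold KR1
  split_ifs
  · exact le_refl _
  · exact Nat.zero_le _

/-- the bound for one form `l` and one `v` -/
theorem point (hR3 : S_R3 F) (g : ℕ) (l : Fin g → F) (v : F[X]) (hv : v ∈ POL F (g + 1)) (hv0 : v ≠ 0) :
    Real.sqrt (KR1 g l v : ℝ) ≤ 1 ∨ (∃ k, BIGR g l v k) ∨ ∃ k, LOWR g l v k := by
  by_cases hE : EXR g l v
  · rcases hR3 g l v hv hv0 hE with h1 | ⟨k, z, hz⟩
    · left
      have h2 : KR1 g l v ≤ 1 := (KR1_le g l v).trans (le_of_eq h1)
      have h3 : ((KR1 g l v : ℕ) : ℝ) ≤ 1 := by exact_mod_cast h2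
      calc Real.sqrt (KR1 g l v : ℝ) ≤ Real.sqrt 1 := Real.sqrt_le_sqrt h3
        _ = 1 := Real.sqrt_one
    · right
      by_cases hL : 2 * rr g l ≤ g ∧ ∃ α ∈ POL F (3 * g + 3 - k - 5 * rr g l),
          v * z = (bb g l).1 ^ 5 * α
      · right
        obtain ⟨h1, α, hα, he⟩ := hL
        exact ⟨k, h1, z, α, hz, he, hα⟩
      · left
        exact ⟨k, z, hz, fun h1 h2 => hL ⟨h1, h2⟩⟩
  · left
    have h1 : KR1 g l v = 0 := by
      unfold KR1
      rw [if_neg hE]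
    rw [h1, Nat.cast_zero, Real.sqrt_zero]
    exact zero_le_one

/-- the sum over `v` for one form `l` -/
theorem inner (hB0 : D5.S_B0 F) (hR3 : S_R3 F) (g u : ℕ) (hu : u ≤ 1) (l : Fin g → F) :
    ∑ v ∈ (POL F (g + u)).filter (fun v => v ≠ 0), Real.sqrt (KR1 g l v : ℝ) ≤ qq F ^ (g + u) +
      ∑ v ∈ (POL F (g + u)).filter (fun v => v ≠ 0 ∧ ∃ k, BIGR g l v k), Real.sqrt (KR g l v : ℝ) +
      ∑ v ∈ (POL F (g + u)).filter (fun v => v ≠ 0 ∧ ∃ k, LOWR g l v k), Real.sqrt (KR g l v : ℝ) := by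
  obtain ⟨N, hN⟩ : ∃ N, N = (POL F (g + u)).filter (fun v => v ≠ 0 ∧ ∃ k, BIGR g l v k) := ⟨_, rfl⟩
  obtain ⟨O, hO⟩ : ∃ O, O = (POL F (g + u)).filter (fun v => v ≠ 0 ∧ ∃ k, LOWR g l v k) := ⟨_, rfl⟩
  rw [← hN, ← hO]
  have h1 : ∀ v ∈ (POL F (g + u)).filter (fun v => v ≠ 0), Real.sqrt (KR1 g l v : ℝ) ≤
      1 + (if v ∈ N then Real.sqrt (KR g l v : ℝ) else 0) +
        (if v ∈ O then Real.sqrt (KR g l v : ℝ) else 0) := by
    intro v hv
    obtain ⟨hv1, hv0⟩ := Finset.mem_filter.1 hv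
    have hs : 0 ≤ Real.sqrt (KR g l v : ℝ) := Real.sqrt_nonneg _
    have hK : Real.sqrt (KR1 g l v : ℝ) ≤ Real.sqrt (KR g l v : ℝ) :=
      Real.sqrt_le_sqrt (by exact_mod_cast KR1_le g l v)
    have hi1 : 0 ≤ (if v ∈ N then Real.sqrt (KR g l v : ℝ) else 0) := by
      split_ifs
      · exact hs
      · exact le_refl _
    have hi2 : 0 ≤ (if v ∈ O then Real.sqrt (KR g l v : ℝ) else 0) := by
      split_ifs
      · exact hs
      · exact le_refl _
    have hv2 : v ∈ POL F (g + 1) := by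
      rw [hB0.1] at hv1 ⊢
      refine hv1.trans_le ?_
      exact_mod_cast Nat.add_le_add_left hu g
    rcases point hR3 g l v hv2 hv0 with h | h | h
    · linarith
    · have : v ∈ N := by rw [hN]; exact Finset.mem_filter.2 ⟨hv1, hv0, h⟩
      rw [if_pos this]
      linarith
    · have : v ∈ O := by rw [hO]; exact Finset.mem_filter.2 ⟨hv1, hv0, h⟩
      rw [if_pos this]
      linarith
  refine (Finset.sum_le_sum h1).trans ?_
  rw [Finset.sum_add_distrib, Finset.sum_add_distrib, Finset.sum_ite_mem, Finset.sum_ite_mem]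
  have h2 : ∑ v ∈ (POL F (g + u)).filter (fun v => v ≠ 0), (1 : ℝ) ≤ qq F ^ (g + u) := by
    rw [Finset.sum_const, nsmul_eq_mul, mul_one]
    have h3 : ((POL F (g + u)).filter (fun v => v ≠ 0)).card ≤ Fintype.card F ^ (g + u) := by
      rw [← hB0.2.2.2.1 (g + u)]
      exact Finset.card_le_card (Finset.filter_subset _ _)
    unfold qq
    exact_mod_cast h3
  refine add_le_add (add_le_add h2 ?_) ?_
  · exact Finset.sum_le_sum_of_subset_of_nonneg Finset.inter_subset_right fun v _ _ => Real.sqrt_nonneg _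
  · exact Finset.sum_le_sum_of_subset_of_nonneg Finset.inter_subset_right fun v _ _ => Real.sqrt_nonneg _

end XRT2

open XRT2 in
theorem p_RT2 (F : Type) [Field F] [Fintype F] [CharP F 5] (hB0 : D5.S_B0 F) (hR3 : S_R3 F)
    (hRT1 : S_RT1 F) (hRL3 : S_RL3 F) : S_RT2 F := by
  intro g u hu
  have hq := one_lt_qq (F := F)
  have hq0 : 0 < qq F := by linarith
  rw [Finset.sum_comm]
  have e1 : ∀ l ∈ (Finset.univ : Finset (Fin g → F)).filter (fun l => l ≠ 0),
      ∑ v ∈ (POL F (g + u)).filter (fun v => v ≠ 0), Real.sqrt (KR1 g l v : ℝ) ≤ qq F ^ (g + u) +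
      ∑ v ∈ (POL F (g + u)).filter (fun v => v ≠ 0 ∧ ∃ k, BIGR g l v k), Real.sqrt (KR g l v : ℝ) +
      ∑ v ∈ (POL F (g + u)).filter (fun v => v ≠ 0 ∧ ∃ k, LOWR g l v k), Real.sqrt (KR g l v : ℝ) :=
    fun l _ => inner hB0 hR3 g u hu l
  refine (Finset.sum_le_sum e1).trans ?_
  rw [Finset.sum_add_distrib, Finset.sum_add_distrib]
  have e4 : ∑ l ∈ (Finset.univ : Finset (Fin g → F)).filter (fun l => l ≠ 0), qq F ^ (g + u) ≤
      qq F ^ (2 * g + u) := by
    rw [Finset.sum_const, nsmul_eq_mul]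
    have e5 : ((((Finset.univ : Finset (Fin g → F)).filter (fun l => l ≠ 0)).card : ℕ) : ℝ) ≤ qq F ^ g := by
      have e6 : ((Finset.univ : Finset (Fin g → F)).filter (fun l => l ≠ 0)).card ≤ Fintype.card F ^ g := by
        refine (Finset.card_le_card (Finset.filter_subset _ _)).trans (le_of_eq ?_)
        rw [Finset.card_univ, Fintype.card_fun, Fintype.card_fin]
      unfold qq
      exact_mod_cast e6
    calc _ ≤ qq F ^ g * qq F ^ (g + u) := mul_le_mul_of_nonneg_right e5 (pow_pos hq0 _).le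
      _ = qq F ^ (2 * g + u) := by rw [← pow_add]; congr 1; ring
  have e7 := hRT1 g u hu
  have e8 := hRL3 g u hu
  have e9 : qq F ^ (2 * g + u) ≤ qq F ^ (2 * (g : ℝ) + u + 1 / 2) := by
    rw [← Real.rpow_natCast (qq F) (2 * g + u)]
    refine Real.rpow_le_rpow_of_exponent_le hq.le ?_
    push_cast
    linarith
  have e10 : qq F ^ (2 * (g : ℝ) + u + 3 / 20) ≤ qq F ^ (2 * (g : ℝ) + u + 1 / 2) :=
    Real.rpow_le_rpow_of_exponent_le hq.le (by linarith)
  linarith [Real.rpow_pos_of_pos hq0 (2 * (g : ℝ) + u + 1 / 2)]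

end Q5R
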