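import Pool.Agent.H461.Q5R.Stm4

/-!
# Task RU: the logarithmic derivatives of the units are five in number
-/

open Polynomial
open scoped Classical

noncomputable section

namespace Q5R

open D5 Q5

namespace XRU

set_option linter.unusedSectionVars false

variable {F : Type} [Field F] [Fintype F] [CharP F 5]

theorem five_zero : (5 : F[X]) = 0 := by
  have h : ((5 : ℕ) : F[X]) = 0 := by
    have h1 : ((5 : ℕ) : F) = 0 := CharP.cast_eq_zero F 5
    rw [← map_natCast (C : F →+* F[X]) 5, h1, map_zero]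
  exact_mod_cast h

theorem cc_mul (f v w : F[X]) : cc f v * cc f w = cc f (v * w) := by
  ext <;> simp [cc]

theorem cc_add (f v w : F[X]) : cc f v + cc f w = cc f (v + w) := by
  ext <;> simp [cc]

theorem cc_neg (f v : F[X]) : - cc f v = cc f (-v) := by
  ext <;> simp [cc]

theorem cc_inj {f v w : F[X]} (h : cc f v = cc f w) : v = w := congrArg QuadraticAlgebra.re h

theorem cc_Cpow (f : F[X]) (c : F) (m : ℕ) : cc f (C c) ^ m = cc f (C (c ^ m)) := by
  induction m with
  | zero =>
    rw [pow_zero, pow_zero, C_1]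
    rfl
  | succ m ih => rw [pow_succ, ih, cc_mul, pow_succ, C_mul]

theorem re_cc_mul (f v : F[X]) (x : OO f) : (cc f v * x).re = v * x.re := by
  simp [cc]

theorem im_cc_mul (f v : F[X]) (x : OO f) : (cc f v * x).im = v * x.im := by
  simp [cc]

theorem pol_mem {v : F[X]} {n : ℕ} (h : v.natDegree < n) : v ∈ POL F n := by
  unfold POL
  rw [Finset.mem_image]
  refine ⟨fun i => v.coeff i, Finset.mem_univ _, ?_⟩
  conv_rhs => rw [v.as_sum_range' n h]
  rw [Finset.sum_range]
  exact Finset.sum_congr rfl fun i _ => C_mul_X_pow_eq_monomial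

/-- the norm -/
def N (f : F[X]) (x : OO f) : F[X] := x.re ^ 2 - f * x.im ^ 2

theorem N_mul (f : F[X]) (x y : OO f) : N f (x * y) = N f x * N f y := by
  simp only [N, QuadraticAlgebra.re_mul, QuadraticAlgebra.im_mul]
  ring

theorem re_pow5 (f : F[X]) (x : OO f) : (x ^ 5).re = x.re ^ 5 := by
  have h5 := five_zero (F := F)
  rw [show x ^ 5 = x * x * x * x * x by ring]
  simp only [QuadraticAlgebra.re_mul, QuadraticAlgebra.im_mul]
  linear_combination (2 * x.re ^ 3 * x.im ^ 2 * f + x.re * x.im ^ 4 * f ^ 2) * h5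

theorem re_pow5n (f : F[X]) (x : OO f) (j : ℕ) : (x ^ 5 ^ j).re = x.re ^ 5 ^ j := by
  induction j with
  | zero => simp
  | succ j ih => rw [pow_succ, pow_mul, re_pow5, ih, pow_mul]

theorem not_tors {f : F[X]} (e : OO f) (ha : 0 < e.re.natDegree) (n : ℕ)
    (hn : Nat.Coprime 5 n) (hn0 : 0 < n) (d : F) (h : e ^ n = cc f (C d)) : False := by
  have h1 : 5 ^ n.totient ≡ 1 [MOD n] := Nat.ModEq.pow_totient hn
  have h0 : 1 ≤ 5 ^ n.totient := Nat.one_le_pow _ _ (by norm_num)
  obtain ⟨m, hm⟩ : n ∣ 5 ^ n.totient - 1 := (Nat.modEq_iff_dvd' h0).1 h1.symm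
  have h2 : 5 ^ n.totient = n * m + 1 := by omega
  have h3 : (e ^ 5 ^ n.totient).re = e.re ^ 5 ^ n.totient := re_pow5n f e _
  have h4 : e ^ (5 ^ n.totient) = cc f (C (d ^ m)) * e := by
    rw [h2, pow_succ, pow_mul, h, cc_Cpow]
  rw [h4, re_cc_mul] at h3
  have h7 := congrArg natDegree h3
  rw [natDegree_pow] at h7
  have h8 : (C (d ^ m) * e.re).natDegree ≤ e.re.natDegree := natDegree_C_mul_le _ _
  have h9 : 5 ^ 1 ≤ 5 ^ n.totient :=
    Nat.pow_le_pow_right (by norm_num) (Nat.totient_pos.2 hn0)
  nlinarith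

theorem re_one' (f : F[X]) : (1 : OO f).re = 1 := rfl

theorem im_one' (f : F[X]) : (1 : OO f).im = 0 := rfl

theorem dl_one (f : F[X]) : dl f 1 = 0 := by
  refine QuadraticAlgebra.ext ?_ ?_
  · simp only [dl, im_one', derivative_zero, zero_mul, mul_zero, add_zero]
    rfl
  · simp only [dl, re_one', derivative_one]
    rfl

theorem dl_C (hA1 : S_A1 F) (f : F[X]) (c : F) (x : OO f) :
    dl f (cc f (C c) * x) = cc f (C c) * dl f x := by
  obtain ⟨-, hmul, -, -, hcc⟩ := hA1 f
  rw [hmul, hcc, derivative_C]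
  have : (⟨0, 0⟩ : OO f) = 0 := rfl
  rw [this, mul_zero, add_zero]

theorem dl_pow (hA1 : S_A1 F) (f : F[X]) (x : OO f) (v : F[X]) (h : dl f x = cc f v * x)
    (k : ℕ) : dl f (x ^ k) = cc f ((k : F[X]) * v) * x ^ k := by
  obtain ⟨-, hmul, -, -, -⟩ := hA1 f
  induction k with
  | zero =>
    rw [pow_zero, dl_one]
    ext <;> simp [cc]
  | succ k ih =>
    have h1 : cc f (((k + 1 : ℕ) : F[X]) * v) = cc f ((k : F[X]) * v) + cc f v := by
      rw [cc_add]
      push_cast
      rw [add_mul, one_mul]
    rw [pow_succ, hmul, ih, h, h1]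
    ring

theorem nat_mod (k : ℕ) : ((k % 5 : ℕ) : F[X]) = (k : F[X]) := by
  have h5 := five_zero (F := F)
  have h : k = 5 * (k / 5) + k % 5 := (Nat.div_add_mod k 5).symm
  have h2 : (k : F[X]) = 5 * ((k / 5 : ℕ) : F[X]) + ((k % 5 : ℕ) : F[X]) := by
    conv_lhs => rw [h]
    push_cast
    ring
  rw [h2, h5]
  ring

theorem nat_inj {i j : ℕ} (hi : i < 5) (hj : j < 5) (h : (i : F[X]) = (j : F[X])) : i = j := by
  have h1 : ((i : ℕ) : F) = (j : F) := by
    have h2 := congrArg (fun p : F[X] => p.coeff 0) h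
    simpa using h2
  have h3 := (CharP.natCast_eq_natCast F 5).1 h1
  have h4 : i % 5 = j % 5 := h3
  rwa [Nat.mod_eq_of_lt hi, Nat.mod_eq_of_lt hj] at h4

end XRU

open XRU in
theorem p_RU (F : Type) [Field F] [Fintype F] [CharP F 5] (hA1 : D5.S_A1 F) (hRA : S_RA F)
    (hRU2 : S_RU2 F) : S_RU F := by
  intro f hf
  have h5 := five_zero (F := F)
  obtain ⟨hdd, hker, -, -⟩ := hRA f hf
  have : IsDomain (OO f) := hdd.toIsDomain
  obtain ⟨e, e', hee, him, hu⟩ := hRU2 f hf
  have hmul := (hA1 f).2.1
  have hfd : 0 < f.natDegree := hf.2.2.2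
  have hf0 : f ≠ 0 := by
    rintro rfl
    simp at hfd
  -- the norm of `e` is a constant
  have hN : N f e * N f e' = 1 := by
    rw [← N_mul, hee]
    simp only [N, re_one', im_one']
    ring
  obtain ⟨c0, hc0, hc1⟩ := Polynomial.isUnit_iff.1 (IsUnit.of_mul_eq_one _ hN)
  have hc0' : c0 ≠ 0 := hc0.ne_zero
  have hN' : e.re ^ 2 - f * e.im ^ 2 = C c0 := hc1.symm
  have hN2 : e.re ^ 2 = f * e.im ^ 2 + C c0 := by linear_combination hN'
  have hdeg : 2 * e.re.natDegree = f.natDegree + 2 * e.im.natDegree := by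
    have h := congrArg natDegree hN2
    rw [natDegree_pow, natDegree_add_C, natDegree_mul hf0 (pow_ne_zero 2 him),
      natDegree_pow] at h
    exact h
  have hre : 0 < e.re.natDegree := by omega
  -- the logarithmic derivative of `e`
  have hder : e.re * derivative e.re - e.im * (derivative e.im * f + 3 * (e.im * derivative f)) = 0 := by
    have h := congrArg derivative hN2
    rw [derivative_add, derivative_C, derivative_mul, derivative_pow, derivative_pow] at h
    simp only [Nat.cast_ofNat, map_ofNat, Nat.add_one_sub_one, pow_one] at h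
    linear_combination 3 * h + (e.im * derivative e.im * f - e.re * derivative e.re) * h5
  let w : OO f := e' * dl f e
  have hw : dl f e = w * e := by
    show dl f e = e' * dl f e * e
    linear_combination (-dl f e) * hee
  have hwim : w.im = 0 := by
    let s : OO f := ⟨e.re, -e.im⟩
    have hs : s * e = cc f (C c0) := by
      rw [← hN']
      refine QuadraticAlgebra.ext ?_ ?_
      · simp only [s, cc, QuadraticAlgebra.re_mul]
        ring
      · simp only [s, cc, QuadraticAlgebra.im_mul]
        ring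
    have h1 : cc f (C c0) * w = s * dl f e := by
      rw [← hs, hw]
      ring
    have h2 := congrArg QuadraticAlgebra.im h1
    rw [im_cc_mul] at h2
    have h3 : (s * dl f e).im = e.re * derivative e.re -
        e.im * (derivative e.im * f + 3 * (e.im * derivative f)) := by
      simp only [s, dl, QuadraticAlgebra.im_mul]
      ring
    rw [h3, hder] at h2
    exact (mul_eq_zero.1 h2).resolve_left (C_ne_zero.2 hc0')
  let v1 : F[X] := w.re
  have hwv : w = cc f v1 := QuadraticAlgebra.ext rfl hwim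
  have hv : dl f e = cc f v1 * e := by rw [hw, hwv]
  have hv' : dl f e' = cc f (-v1) * e' := by
    have h1 : e * dl f e' + e' * dl f e = 0 := by
      rw [← hmul, hee, dl_one]
    rw [← cc_neg]
    have h2 : dl f e' = - (e' * (e' * dl f e)) := by
      linear_combination e' * h1 - dl f e' * hee
    rw [h2, hv]
    linear_combination (-(e' * cc f v1)) * hee
  -- `v1` is not zero
  have hunit : IsUnit e := IsUnit.of_mul_eq_one _ hee
  have hunit' : IsUnit e' := IsUnit.of_mul_eq_one _ (by rw [mul_comm]; exact hee)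
  have hv1 : v1 ≠ 0 := by
    intro h0
    have h1 : dl f e = 0 := by
      rw [hv, h0]
      have : cc f 0 = 0 := rfl
      rw [this, zero_mul]
    obtain ⟨y, hy⟩ := hker e h1
    have hyu : IsUnit y := by
      rw [hy] at hunit
      exact (isUnit_pow_iff (by norm_num)).1 hunit
    obtain ⟨c, k, hc, hk | hk⟩ := hu y hyu
    · rw [hk, mul_pow, cc_Cpow, ← pow_mul] at hy
      rcases Nat.eq_zero_or_pos k with rfl | hk0
      · rw [zero_mul, pow_zero, mul_one] at hy
        apply him
        rw [hy]
        rfl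
      · have h2 : e ^ (k * 5) = e ^ (k * 5 - 1) * e := by
          rw [← pow_succ]
          congr 1
          omega
        have h3 : e ^ (k * 5 - 1) * (cc f (C (c ^ 5))) = 1 := by
          have h4 : e * (e ^ (k * 5 - 1) * (cc f (C (c ^ 5)))) = e * 1 := by
            rw [mul_one]
            conv_rhs => rw [hy, h2]
            ring
          exact mul_left_cancel₀ hunit.ne_zero h4
        have h6 : cc f (C (c ^ 5)) * cc f (C ((c ^ 5)⁻¹)) = 1 := by
          rw [cc_mul, ← C_mul, mul_inv_cancel₀ (pow_ne_zero 5 hc), C_1]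
          rfl
        refine not_tors e hre (k * 5 - 1) ?_ (by omega) ((c ^ 5)⁻¹) ?_
        · rw [Nat.Prime.coprime_iff_not_dvd (by norm_num)]
          omega
        · linear_combination cc f (C ((c ^ 5)⁻¹)) * h3 - e ^ (k * 5 - 1) * h6
    · rw [hk, mul_pow, cc_Cpow, ← pow_mul] at hy
      refine not_tors e hre (k * 5 + 1) ?_ (by omega) (c ^ 5) ?_
      · rw [Nat.Prime.coprime_iff_not_dvd (by norm_num)]
        omega
      · have h2 : e ^ (k * 5) * e' ^ (k * 5) = 1 := by rw [← mul_pow, hee, one_pow]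
        have h4 : e ^ (k * 5) * e = e ^ (k * 5) * (cc f (C (c ^ 5)) * e' ^ (k * 5)) :=
          congrArg (fun z => e ^ (k * 5) * z) hy
        rw [pow_succ, h4]
        linear_combination cc f (C (c ^ 5)) * h2
  -- the set
  have hpol : ∀ k : ℕ, (k : F[X]) * v1 ∈ POL F f.natDegree := by
    intro k
    apply pol_mem
    have h1 : derivative e.re = v1 * e.im := by
      have h := congrArg QuadraticAlgebra.im hv
      rw [im_cc_mul] at h
      exact h
    have h2 : v1.natDegree + e.im.natDegree < e.re.natDegree := by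
      rw [← natDegree_mul hv1 him, ← h1]
      exact natDegree_derivative_lt (by omega)
    have h3 : ((k : F[X]) * v1).natDegree ≤ v1.natDegree := by
      rw [← C_eq_natCast]
      exact natDegree_C_mul_le _ _
    omega
  have hLU : LU f = (Finset.range 5).image (fun k : ℕ => (k : F[X]) * v1) := by
    ext v
    unfold LU
    rw [Finset.mem_filter, Finset.mem_image]
    constructor
    · rintro ⟨-, u, huu, hdu⟩
      obtain ⟨c, k, hc, hk | hk⟩ := hu u huu
      · refine ⟨k % 5, Finset.mem_range.2 (Nat.mod_lt _ (by norm_num)), ?_⟩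
        have h1 : dl f u = cc f ((k : F[X]) * v1) * u := by
          rw [hk, dl_C hA1, dl_pow hA1 f e v1 hv]
          ring
        have h2 := mul_right_cancel₀ huu.ne_zero (h1.symm.trans hdu)
        rw [nat_mod]
        exact cc_inj h2
      · refine ⟨(4 * k) % 5, Finset.mem_range.2 (Nat.mod_lt _ (by norm_num)), ?_⟩
        have h1 : dl f u = cc f ((k : F[X]) * (-v1)) * u := by
          rw [hk, dl_C hA1, dl_pow hA1 f e' (-v1) hv']
          ring
        have h2 := mul_right_cancel₀ huu.ne_zero (h1.symm.trans hdu)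
        rw [nat_mod]
        have h3 := cc_inj h2
        rw [← h3]
        push_cast
        linear_combination (k : F[X]) * v1 * h5
    · rintro ⟨k, -, rfl⟩
      exact ⟨hpol k, e ^ k, hunit.pow k, dl_pow hA1 f e v1 hv k⟩
  rw [hLU, Finset.card_image_of_injOn, Finset.card_range]
  intro i hi j hj hij
  have h1 := mul_right_cancel₀ hv1 hij
  exact nat_inj (Finset.mem_range.1 (Finset.mem_coe.1 hi)) (Finset.mem_range.1 (Finset.mem_coe.1 hj)) h1

end Q5R
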