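import Pool.Agent.H461.Q5R.Stm4

open Polynomial
open scoped Classical

noncomputable section

namespace Q5R

open D5 Q5

namespace XRU1

variable {F : Type} [Field F]

/-- square root from the top -/
theorem sqrt_aux (h2 : (2 : F) ≠ 0) (D : ℕ) (g : F[X]) (hg : g.Monic) (hd : g.natDegree = 2 * D)
    (k : ℕ) (hk : k ≤ D) :
    ∃ S : F[X], S.Monic ∧ S.natDegree = D ∧ (g - S ^ 2).degree < ((2 * D - k : ℕ) : WithBot ℕ) := by
  induction k with
  | zero =>
    refine ⟨X ^ D, monic_X_pow D, natDegree_X_pow D, ?_⟩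
    have h : (g - (X ^ D) ^ 2).degree < g.degree := by
      apply degree_sub_lt_left
      · rw [degree_eq_natDegree hg.ne_zero, hd, ← pow_mul, degree_X_pow, mul_comm]
      · exact hg.ne_zero
      · rw [hg.leadingCoeff, ← pow_mul]; exact (monic_X_pow _).leadingCoeff.symm
    rw [degree_eq_natDegree hg.ne_zero, hd] at h
    exact h
  | succ k ih =>
    obtain ⟨S, hS, hSd, hlt⟩ := ih (by omega)
    rw [degree_lt_iff_coeff_zero] at hlt
    have hdeg : (C ((g - S ^ 2).coeff (2 * D - k - 1) / 2) * X ^ (D - k - 1) : F[X]).degree <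
        S.degree := by
      rw [degree_eq_natDegree hS.ne_zero, hSd]
      refine lt_of_le_of_lt (degree_C_mul_X_pow_le _ _) ?_
      exact_mod_cast (by omega : D - k - 1 < D)
    refine ⟨S + C ((g - S ^ 2).coeff (2 * D - k - 1) / 2) * X ^ (D - k - 1),
      hS.add_of_left hdeg, ?_, ?_⟩
    · rw [natDegree_add_eq_left_of_degree_lt hdeg, hSd]
    · rw [degree_lt_iff_coeff_zero]
      intro j hj
      have he : g - (S + C ((g - S ^ 2).coeff (2 * D - k - 1) / 2) * X ^ (D - k - 1)) ^ 2 =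
          (g - S ^ 2) - C (2 * ((g - S ^ 2).coeff (2 * D - k - 1) / 2)) * (S * X ^ (D - k - 1)) -
            C (((g - S ^ 2).coeff (2 * D - k - 1) / 2) ^ 2) * X ^ (2 * (D - k - 1)) := by
        rw [C_mul, C_pow, mul_comm 2 (D - k - 1), pow_mul]
        have : (C (2 : F) : F[X]) = 2 := map_ofNat C 2
        rw [this]
        ring
      have h1 : (C (((g - S ^ 2).coeff (2 * D - k - 1) / 2) ^ 2) * X ^ (2 * (D - k - 1)) :
          F[X]).coeff j = 0 := by
        rw [coeff_C_mul, coeff_X_pow, if_neg (by omega), mul_zero]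
      rw [he, coeff_sub, coeff_sub, h1, sub_zero, coeff_C_mul, coeff_mul_X_pow',
        if_pos (by omega)]
      rcases Nat.lt_or_ge j (2 * D - k) with h | h
      · have hj' : j = 2 * D - k - 1 := by omega
        have h3 : j - (D - k - 1) = S.natDegree := by omega
        rw [h3, hS.coeff_natDegree, hj']
        field_simp
        ring
      · have h3 : S.coeff (j - (D - k - 1)) = 0 := coeff_eq_zero_of_natDegree_lt (by omega)
        rw [hlt j h, h3, mul_zero, sub_zero]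

theorem exists_b (S : F[X]) (M N : ℕ) : ∃ b : F[X], b ≠ 0 ∧ b.natDegree ≤ N ∧
    ∀ i < N, (b * S).coeff (M + i) = 0 := by
  have hfr : Module.finrank F (degreeLT F (N + 1)) = N + 1 := by
    rw [(degreeLTEquiv F (N + 1)).finrank_eq, Module.finrank_fin_fun]
  have : FiniteDimensional F (degreeLT F (N + 1)) :=
    Module.Finite.equiv (degreeLTEquiv F (N + 1)).symm
  let φ : degreeLT F (N + 1) →ₗ[F] (Fin N → F) :=
    LinearMap.pi (fun i : Fin N => (lcoeff F (M + i)).comp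
      ((LinearMap.mulRight F S).comp (degreeLT F (N + 1)).subtype))
  have hker : LinearMap.ker φ ≠ ⊥ := by
    apply LinearMap.ker_ne_bot_of_finrank_lt
    rw [hfr, Module.finrank_fin_fun]
    exact Nat.lt_succ_self N
  obtain ⟨b, hb, hb0⟩ := (Submodule.ne_bot_iff _).mp hker
  refine ⟨b, fun h => hb0 (Subtype.ext h), ?_, ?_⟩
  · have h := mem_degreeLT.mp b.2
    exact natDegree_le_of_degree_le (by
      exact Order.le_of_lt_succ (by exact_mod_cast h))
  · intro i hi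
    have h := congrFun (LinearMap.mem_ker.mp hb) ⟨i, hi⟩
    exact h

theorem exists_pair (h2 : (2 : F) ≠ 0) (f : F[X]) (m : ℕ) (hm : 0 < m) (hf : f.Monic)
    (hd : f.natDegree = 2 * m) (hns : ∀ a b : F[X], b ≠ 0 → a ^ 2 - f * b ^ 2 ≠ 0) (N : ℕ) :
    ∃ a b : F[X], b ≠ 0 ∧ N < b.natDegree + m ∧ (a ^ 2 - f * b ^ 2).degree < (m : WithBot ℕ) := by
  have hXf : (X ^ (2 * (2 * N + 1)) * f : F[X]).Monic := (monic_X_pow _).mul hf
  have hXd : (X ^ (2 * (2 * N + 1)) * f : F[X]).natDegree = 2 * (2 * N + 1 + m) := by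
    rw [natDegree_X_pow_mul _ hf.ne_zero, hd]; ring
  obtain ⟨S, hS, hSd, hlt⟩ := sqrt_aux h2 (2 * N + 1 + m) _ hXf hXd (2 * N + 1 + m) le_rfl
  have hE : (X ^ (2 * (2 * N + 1)) * f - S ^ 2 : F[X]).natDegree ≤ 2 * N + m := by
    rw [natDegree_le_iff_coeff_eq_zero]
    intro j hj
    exact (degree_lt_iff_coeff_zero _ _).mp hlt j (by omega)
  obtain ⟨b, hb0, hbd, hbc⟩ := exists_b S (N + 1) N
  have hdm := modByMonic_add_div (b * S) (X ^ (2 * N + 1) : F[X])
  set a := (b * S) /ₘ (X ^ (2 * N + 1)) with ha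
  set r := (b * S) %ₘ (X ^ (2 * N + 1)) with hr
  have hrd : r.natDegree ≤ N := by
    rw [natDegree_le_iff_coeff_eq_zero]
    intro j hj
    rcases Nat.lt_or_ge j (2 * N + 1) with h | h
    · have h3 : (X ^ (2 * N + 1) * a).coeff j = 0 := by
        rw [coeff_X_pow_mul', if_neg (by omega)]
      have h4 : (b * S).coeff j = 0 := by
        have := hbc (j - (N + 1)) (by omega)
        rwa [Nat.add_sub_cancel' (by omega : N + 1 ≤ j)] at this
      rw [← hdm, coeff_add, h3, add_zero] at h4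
      exact h4
    · have h3 := degree_modByMonic_lt (b * S) (monic_X_pow (R := F) (2 * N + 1))
      rw [degree_X_pow, ← hr] at h3
      exact (degree_lt_iff_coeff_zero _ _).mp h3 j h
  have hid : X ^ (2 * (2 * N + 1)) * (a ^ 2 - f * b ^ 2) =
      -(C 2 * (b * S * r)) + r ^ 2 - b ^ 2 * (X ^ (2 * (2 * N + 1)) * f - S ^ 2) := by
    have hC : (C (2 : F) : F[X]) = 2 := map_ofNat C 2
    have h5 : X ^ (2 * (2 * N + 1)) * a ^ 2 = (b * S - r) ^ 2 := by
      rw [← hdm, mul_comm 2 (2 * N + 1), pow_mul]; ring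
    rw [hC, mul_sub, h5]; ring
  have h6 : (C 2 * (b * S * r) : F[X]).natDegree ≤ b.natDegree + (2 * N + 1 + m) + N := by
    refine (natDegree_C_mul_le _ _).trans ?_
    refine (natDegree_mul_le).trans ?_
    have := natDegree_mul_le (p := b) (q := S)
    omega
  have h7 : (r ^ 2).natDegree ≤ 2 * N := by
    refine (natDegree_pow_le).trans ?_
    omega
  have h8 : (b ^ 2 * (X ^ (2 * (2 * N + 1)) * f - S ^ 2)).natDegree ≤
      2 * b.natDegree + (2 * N + m) := by
    refine (natDegree_mul_le).trans ?_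
    have := natDegree_pow_le (p := b) (n := 2)
    omega
  have h9 : (X ^ (2 * (2 * N + 1)) * (a ^ 2 - f * b ^ 2)).natDegree ≤
      max (max (b.natDegree + (2 * N + 1 + m) + N) (2 * N)) (2 * b.natDegree + (2 * N + m)) := by
    rw [hid]
    refine (natDegree_sub_le _ _).trans (max_le_max ?_ h8)
    refine (natDegree_add_le _ _).trans (max_le_max ?_ h7)
    rw [natDegree_neg]
    exact h6
  rw [natDegree_X_pow_mul _ (hns a b hb0)] at h9
  have h10 : (a ^ 2 - f * b ^ 2).natDegree + 2 * (2 * N + 1) ≤ b.natDegree + (2 * N + 1 + m) + N ∨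
      (a ^ 2 - f * b ^ 2).natDegree + 2 * (2 * N + 1) ≤ 2 * N ∨
      (a ^ 2 - f * b ^ 2).natDegree + 2 * (2 * N + 1) ≤ 2 * b.natDegree + (2 * N + m) := by
    rcases le_max_iff.mp h9 with h | h
    · rcases le_max_iff.mp h with h | h
      · exact Or.inl h
      · exact Or.inr (Or.inl h)
    · exact Or.inr (Or.inr h)
  refine ⟨a, b, hb0, by omega, ?_⟩
  rw [degree_eq_natDegree (hns a b hb0)]
  exact_mod_cast (by omega : (a ^ 2 - f * b ^ 2).natDegree < m)

theorem not_sq {f : F[X]} (hsq : Squarefree f) (hpos : 0 < f.natDegree) (a b : F[X]) (hb : b ≠ 0) :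
    a ^ 2 - f * b ^ 2 ≠ 0 := by
  intro h
  have h1 : a ^ 2 = f * b ^ 2 := sub_eq_zero.mp h
  have h2 : b ∣ a := by
    have h3 : b ^ 2 ∣ a ^ 2 := ⟨f, by rw [h1]; ring⟩
    exact (IsIntegrallyClosed.pow_dvd_pow_iff (by norm_num)).mp h3
  obtain ⟨t, rfl⟩ := h2
  have h4 : f = t * t := by
    have h5 : b ^ 2 * f = b ^ 2 * (t * t) := by
      linear_combination -h1
    exact mul_left_cancel₀ (pow_ne_zero 2 hb) h5
  have h6 : IsUnit t := hsq t ⟨1, by rw [mul_one]; exact h4⟩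
  have h7 : IsUnit f := by rw [h4]; exact h6.mul h6
  exact absurd (natDegree_eq_zero_of_isUnit h7) (by omega)

end XRU1

theorem p_RU1 (F : Type) [Field F] [Fintype F] [CharP F 5] : S_RU1 F := by
  intro f hf
  obtain ⟨hmon, hsq, ⟨m, hm⟩, hpos⟩ := hf
  have h2 : (2 : F) ≠ 0 := by
    intro h
    have h3 : ((2 : ℕ) : F) = 0 := by exact_mod_cast h
    rw [CharP.cast_eq_zero_iff F 5] at h3
    omega
  have hd : f.natDegree = 2 * m := by omega
  have hns : ∀ a b : F[X], b ≠ 0 → a ^ 2 - f * b ^ 2 ≠ 0 := fun a b hb => XRU1.not_sq hsq hpos a b hb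
  have hpair := XRU1.exists_pair h2 f m (by omega) hmon hd hns
  let A : Set ℕ := {D | ∃ a b : F[X], b ≠ 0 ∧ b.natDegree = D ∧ (a ^ 2 - f * b ^ 2).degree < (m : WithBot ℕ)}
  have hA : A.Infinite := by
    apply Set.infinite_of_forall_exists_gt
    intro D
    obtain ⟨a, b, hb, hbd, hn⟩ := hpair (D + m)
    exact ⟨b.natDegree, ⟨a, b, hb, rfl, hn⟩, by omega⟩
  have : Infinite A := hA.to_subtype
  have : Finite (degreeLT F m) := Finite.of_equiv _ (degreeLTEquiv F m).symm.toEquiv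
  choose a b hb hbd hn using fun D : A => D.2
  have hmod : ∀ (D : A) (p : F[X]), (p % (a D ^ 2 - f * b D ^ 2)).degree < (m : WithBot ℕ) :=
    fun D p => lt_trans (degree_mod_lt p (hns _ _ (hb D))) (hn D)
  obtain ⟨D₁, D₂, hne, heq⟩ := Finite.exists_ne_map_eq_of_infinite
    (fun D : A => ((⟨a D ^ 2 - f * b D ^ 2, mem_degreeLT.mpr (hn D)⟩,
      ⟨a D % (a D ^ 2 - f * b D ^ 2), mem_degreeLT.mpr (hmod D _)⟩,
      ⟨b D % (a D ^ 2 - f * b D ^ 2), mem_degreeLT.mpr (hmod D _)⟩) :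
        degreeLT F m × degreeLT F m × degreeLT F m))
  simp only [Prod.mk.injEq, Subtype.mk.injEq] at heq
  obtain ⟨e1, e2, e3⟩ := heq
  set n : F[X] := a D₁ ^ 2 - f * b D₁ ^ 2 with hndef
  have hn0 : n ≠ 0 := hns _ _ (hb D₁)
  have ha1 := EuclideanDomain.div_add_mod (a D₁) n
  have ha2 := EuclideanDomain.div_add_mod (a D₂) n
  have hb1 := EuclideanDomain.div_add_mod (b D₁) n
  have hb2 := EuclideanDomain.div_add_mod (b D₂) n
  rw [← e1] at e2 e3
  obtain ⟨s, hs⟩ : ∃ s, a D₂ = a D₁ + n * s := ⟨a D₂ / n - a D₁ / n, by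
    rw [mul_sub]
    linear_combination (ha1 - ha2 - e2)⟩
  obtain ⟨t, ht⟩ : ∃ t, b D₂ = b D₁ + n * t := ⟨b D₂ / n - b D₁ / n, by
    rw [mul_sub]
    linear_combination (hb1 - hb2 - e3)⟩
  refine ⟨1 + a D₁ * s - f * b D₁ * t, s * b D₁ - a D₁ * t, 1, ?_, one_ne_zero, ?_⟩
  · intro h0
    have h3 : a D₂ * b D₁ = a D₁ * b D₂ := by
      rw [hs, ht]; linear_combination n * h0
    have h4 : n * b D₂ ^ 2 = n * b D₁ ^ 2 := by
      have e1' : n = a D₂ ^ 2 - f * b D₂ ^ 2 := e1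
      calc n * b D₂ ^ 2 = (a D₁ ^ 2 - f * b D₁ ^ 2) * b D₂ ^ 2 := by rw [hndef]
        _ = (a D₁ * b D₂) ^ 2 - f * b D₁ ^ 2 * b D₂ ^ 2 := by ring
        _ = (a D₂ * b D₁) ^ 2 - f * b D₁ ^ 2 * b D₂ ^ 2 := by rw [h3]
        _ = (a D₂ ^ 2 - f * b D₂ ^ 2) * b D₁ ^ 2 := by ring
        _ = n * b D₁ ^ 2 := by rw [← e1']
    have h5 : b D₂ ^ 2 = b D₁ ^ 2 := mul_left_cancel₀ hn0 h4
    have h6 : (b D₂).natDegree = (b D₁).natDegree := by
      have := congrArg natDegree h5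
      rw [natDegree_pow, natDegree_pow] at this
      omega
    rw [hbd, hbd] at h6
    exact hne (Subtype.ext h6.symm)
  · have e1' : n = a D₂ ^ 2 - f * b D₂ ^ 2 := e1
    have h7 : n ^ 2 * ((1 + a D₁ * s - f * b D₁ * t) ^ 2 - f * (s * b D₁ - a D₁ * t) ^ 2) =
        n ^ 2 * 1 := by
      have h8 : a D₁ * a D₂ - f * b D₁ * b D₂ = n * (1 + a D₁ * s - f * b D₁ * t) := by
        rw [hs, ht]; linear_combination -hndef
      have h9 : a D₂ * b D₁ - a D₁ * b D₂ = n * (s * b D₁ - a D₁ * t) := by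
        rw [hs, ht]; ring
      calc n ^ 2 * ((1 + a D₁ * s - f * b D₁ * t) ^ 2 - f * (s * b D₁ - a D₁ * t) ^ 2)
          = (n * (1 + a D₁ * s - f * b D₁ * t)) ^ 2 - f * (n * (s * b D₁ - a D₁ * t)) ^ 2 := by ring
        _ = (a D₁ * a D₂ - f * b D₁ * b D₂) ^ 2 - f * (a D₂ * b D₁ - a D₁ * b D₂) ^ 2 := by
            rw [h8, h9]
        _ = (a D₁ ^ 2 - f * b D₁ ^ 2) * (a D₂ ^ 2 - f * b D₂ ^ 2) := by ring
        _ = n ^ 2 * 1 := by rw [← hndef, ← e1']; ring
    rw [C_1]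
    exact mul_left_cancel₀ (pow_ne_zero 2 hn0) h7

end Q5R
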