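import Pool.Agent.H461.Q5R.Stm4

/-!
# RU2: the structure of the units
-/

open Polynomial
open scoped Classical

noncomputable section

namespace Q5R

open D5 Q5

namespace XRU2

variable {F : Type} [Field F]

/-- the norm -/
def nm {f : F[X]} (u : OO f) : F[X] := u.re ^ 2 - f * u.im ^ 2

theorem mul_re {f : F[X]} (x y : OO f) : (x * y).re = x.re * y.re + f * (x.im * y.im) := by
  rw [QuadraticAlgebra.re_mul]
  ring

theorem mul_im {f : F[X]} (x y : OO f) : (x * y).im = x.re * y.im + x.im * y.re := by
  rw [QuadraticAlgebra.im_mul]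
  ring

theorem nm_mul {f : F[X]} (x y : OO f) : nm (x * y) = nm x * nm y := by
  unfold nm
  rw [mul_re, mul_im]
  ring

theorem nm_one {f : F[X]} : nm (1 : OO f) = 1 := by
  unfold nm
  rw [QuadraticAlgebra.re_one, QuadraticAlgebra.im_one]
  ring

theorem nm_unit {f : F[X]} {u : OO f} (hu : IsUnit u) : ∃ c : F, c ≠ 0 ∧ nm u = C c := by
  obtain ⟨w, hw⟩ := hu.exists_right_inv
  have h1 : nm u * nm w = 1 := by rw [← nm_mul, hw, nm_one]
  have h2 : IsUnit (nm u) := IsUnit.of_mul_eq_one _ h1
  obtain ⟨c, hc, h3⟩ := Polynomial.isUnit_iff.1 h2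
  exact ⟨c, hc.ne_zero, h3.symm⟩

theorem deg_rel {f : F[X]} (hf : GoodR f) {u : OO f} {c : F} (hn : nm u = C c) (hi : u.im ≠ 0) :
    2 * u.re.natDegree = f.natDegree + 2 * u.im.natDegree := by
  have hf0 : f ≠ 0 := hf.1.ne_zero
  have h1 : u.re ^ 2 = C c + f * u.im ^ 2 := by
    have : nm u = u.re ^ 2 - f * u.im ^ 2 := rfl
    rw [← hn, this]
    ring
  have h2 : (f * u.im ^ 2).natDegree = f.natDegree + 2 * u.im.natDegree := by
    rw [natDegree_mul hf0 (pow_ne_zero 2 hi), natDegree_pow]
  have h3 : (C c + f * u.im ^ 2).natDegree = (f * u.im ^ 2).natDegree := by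
    apply natDegree_add_eq_right_of_natDegree_lt
    rw [natDegree_C, h2]
    have := hf.2.2.2
    omega
  rw [← natDegree_pow, h1, h3, h2]

theorem cc_mul {f : F[X]} (p q : F[X]) : cc f p * cc f q = cc f (p * q) := by
  apply QuadraticAlgebra.ext
  · rw [mul_re]
    simp [cc]
  · rw [mul_im]
    simp [cc]

theorem cc_one {f : F[X]} : cc f 1 = 1 := by
  apply QuadraticAlgebra.ext
  · rw [QuadraticAlgebra.re_one]; rfl
  · rw [QuadraticAlgebra.im_one]; rfl

end XRU2

open XRU2 in
theorem p_RU2 (F : Type) [Field F] [Fintype F] [CharP F 5] (hRU1 : S_RU1 F) : S_RU2 F := by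
  intro f hf
  have hex : ∃ n : ℕ, ∃ u : OO f, IsUnit u ∧ u.im ≠ 0 ∧ u.re.natDegree = n := by
    obtain ⟨a, b, c, hb, hc, h⟩ := hRU1 f hf
    refine ⟨a.natDegree, (⟨a, b⟩ : OO f), ?_, hb, rfl⟩
    refine IsUnit.of_mul_eq_one (cc f (C c⁻¹) * (⟨a, -b⟩ : OO f)) ?_
    apply QuadraticAlgebra.ext
    · rw [mul_re, mul_re, mul_im, QuadraticAlgebra.re_one]
      simp only [cc]
      have h1 : a * (C c⁻¹ * a + f * (0 * -b)) + f * (b * (C c⁻¹ * -b + 0 * a)) =
          C c⁻¹ * (a ^ 2 - f * b ^ 2) := by ring
      rw [h1, h, ← C_mul, inv_mul_cancel₀ hc, C_1]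
    · rw [mul_im, mul_re, mul_im, QuadraticAlgebra.im_one]
      simp only [cc]
      ring
  obtain ⟨e, he, hei, hed⟩ := Nat.find_spec hex
  have hmin : ∀ u : OO f, IsUnit u → u.im ≠ 0 → e.re.natDegree ≤ u.re.natDegree := by
    intro u hu hui
    rw [hed]
    exact Nat.find_min' hex ⟨u, hu, hui, rfl⟩
  obtain ⟨c₀, hc₀, hn₀⟩ := nm_unit he
  have hdeg0 := deg_rel hf hn₀ hei
  have hm0 : 1 ≤ e.re.natDegree := by
    have := hf.2.2.2
    omega
  set e' : OO f := cc f (C c₀⁻¹) * (⟨e.re, - e.im⟩ : OO f) with he'
  have hee : e * e' = 1 := by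
    apply QuadraticAlgebra.ext
    · rw [he', mul_re, mul_re, mul_im, QuadraticAlgebra.re_one]
      simp only [cc]
      have h1 : e.re * (C c₀⁻¹ * e.re + f * (0 * -e.im)) + f * (e.im * (C c₀⁻¹ * -e.im + 0 * e.re)) =
          C c₀⁻¹ * (e.re ^ 2 - f * e.im ^ 2) := by ring
      have h2 : e.re ^ 2 - f * e.im ^ 2 = C c₀ := hn₀
      rw [h1, h2, ← C_mul, inv_mul_cancel₀ hc₀, C_1]
    · rw [he', mul_im, mul_re, mul_im, QuadraticAlgebra.im_one]
      simp only [cc]
      ring
  have hee' : e' * e = 1 := by rw [mul_comm]; exact hee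
  have hue' : IsUnit e' := IsUnit.of_mul_eq_one _ hee'
  refine ⟨e, e', hee, hei, ?_⟩
  have main : ∀ n : ℕ, ∀ u : OO f, IsUnit u → u.re.natDegree = n →
      ∃ (c : F) (k : ℕ), c ≠ 0 ∧ (u = cc f (C c) * e ^ k ∨ u = cc f (C c) * e' ^ k) := by
    intro n
    induction n using Nat.strong_induction_on with
    | _ n ih =>
      intro u hu hun
      obtain ⟨c, hc, hnu⟩ := nm_unit hu
      by_cases hui : u.im = 0
      · have h1 : u.re ^ 2 = C c := by
          have h2 : u.re ^ 2 - f * u.im ^ 2 = C c := hnu
          rw [hui] at h2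
          rw [← h2]
          ring
        have h3 : u.re.natDegree = 0 := by
          have h4 := congrArg natDegree h1
          rw [natDegree_pow, natDegree_C] at h4
          omega
        obtain ⟨d, hd⟩ := natDegree_eq_zero.1 h3
        refine ⟨d, 0, ?_, Or.inl ?_⟩
        · rintro rfl
          rw [C_0] at hd
          rw [← hd] at h1
          have : c = 0 := by
            have h5 : (C c : F[X]) = 0 := by rw [← h1]; ring
            exact C_eq_zero.1 h5
          exact hc this
        · rw [pow_zero, mul_one]
          apply QuadraticAlgebra.ext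
          · simp only [cc]
            exact hd.symm
          · simp only [cc]
            exact hui
      · have hdu := deg_rel hf hnu hui
        have hmn := hmin u hu hui
        obtain ⟨P, hP⟩ : ∃ P : F[X], P = u.re * e.re + f * (u.im * e.im) := ⟨_, rfl⟩
        obtain ⟨Q, hQ⟩ : ∃ Q : F[X], Q = u.re * e.re - f * (u.im * e.im) := ⟨_, rfl⟩
        have hPQ : P * Q = C c₀ * u.re ^ 2 + C c * e.re ^ 2 - C c * C c₀ := by
          have h1 : C c = u.re ^ 2 - f * u.im ^ 2 := hnu.symm
          have h2 : C c₀ = e.re ^ 2 - f * e.im ^ 2 := hn₀.symm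
          rw [hP, hQ, h1, h2]
          ring
        have hsum : P + Q = C 2 * (u.re * e.re) := by
          rw [hP, hQ, show (C 2 : F[X]) = 2 from rfl]
          ring
        have hre0 : u.re ≠ 0 := by
          intro h0
          rw [h0, natDegree_zero] at hmn
          omega
        have here0 : e.re ≠ 0 := by
          intro h0
          rw [h0, natDegree_zero] at hm0
          omega
        have h20 : (2 : F) ≠ 0 := by
          intro h0
          have h1 : ((2 : ℕ) : F) = 0 := by exact_mod_cast h0
          have h2 := (CharP.cast_eq_zero_iff F 5 2).1 h1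
          omega
        have hdsum : (P + Q).natDegree = u.re.natDegree + e.re.natDegree := by
          rw [hsum, natDegree_C_mul h20, natDegree_mul hre0 here0]
        have hdPQ : (P * Q).natDegree ≤ 2 * u.re.natDegree := by
          rw [hPQ]
          refine (natDegree_sub_le _ _).trans (max_le ((natDegree_add_le _ _).trans (max_le ?_ ?_)) ?_)
          · rw [natDegree_C_mul hc₀, natDegree_pow]
          · rw [natDegree_C_mul hc, natDegree_pow]
            omega
          · rw [← C_mul, natDegree_C]
            exact Nat.zero_le _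
        have hor : P.natDegree < u.re.natDegree ∨ Q.natDegree < u.re.natDegree := by
          by_contra hcon
          push Not at hcon
          obtain ⟨h1, h2⟩ := hcon
          have hP0 : P ≠ 0 := by
            rintro h0
            rw [h0, natDegree_zero] at h1
            omega
          have hQ0 : Q ≠ 0 := by
            rintro h0
            rw [h0, natDegree_zero] at h2
            omega
          rw [natDegree_mul hP0 hQ0] at hdPQ
          have h3 := natDegree_add_le P Q
          rw [hdsum] at h3
          have h4 : max P.natDegree Q.natDegree ≤ u.re.natDegree := max_le (by omega) (by omega)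
          omega
        rcases hor with h | h
        · -- `w = u e`
          have hw : (u * e).re = P := by rw [mul_re, hP]
          have hlt : (u * e).re.natDegree < n := by rw [hw, ← hun]; exact h
          obtain ⟨d, k, hd, hk⟩ := ih _ hlt (u * e) (hu.mul he) rfl
          have hu2 : u = (u * e) * e' := by rw [mul_assoc, hee, mul_one]
          rcases hk with hk | hk
          · rcases k with _ | k
            · refine ⟨d, 1, hd, Or.inr ?_⟩
              rw [hu2, hk, pow_zero, mul_one, pow_one]
            · refine ⟨d, k, hd, Or.inl ?_⟩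
              rw [hu2, hk, pow_succ]
              calc cc f (C d) * (e ^ k * e) * e' = cc f (C d) * e ^ k * (e * e') := by ring
                _ = _ := by rw [hee, mul_one]
          · refine ⟨d, k + 1, hd, Or.inr ?_⟩
            rw [hu2, hk, pow_succ]
            ring
        · -- `w = u e'`
          have hw : (u * e').re = C c₀⁻¹ * Q := by
            rw [mul_re, he', mul_re, mul_im, hQ]
            simp only [cc]
            ring
          have hlt : (u * e').re.natDegree < n := by
            rw [hw, natDegree_C_mul (inv_ne_zero hc₀), ← hun]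
            exact h
          obtain ⟨d, k, hd, hk⟩ := ih _ hlt (u * e') (hu.mul hue') rfl
          have hu2 : u = (u * e') * e := by rw [mul_assoc, hee', mul_one]
          rcases hk with hk | hk
          · refine ⟨d, k + 1, hd, Or.inl ?_⟩
            rw [hu2, hk, pow_succ]
            ring
          · rcases k with _ | k
            · refine ⟨d, 1, hd, Or.inl ?_⟩
              rw [hu2, hk, pow_zero, mul_one, pow_one]
            · refine ⟨d, k, hd, Or.inr ?_⟩
              rw [hu2, hk, pow_succ]
              calc cc f (C d) * (e' ^ k * e') * e = cc f (C d) * e' ^ k * (e' * e) := by ring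
                _ = _ := by rw [hee', mul_one]
  intro u hu
  exact main _ u hu rfl

end Q5R
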