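import Pool.Agent.H461.Q5R.Stm4

/-!
# Q5R RZ1: the average over the squarefree `f` of even degree
-/

open Polynomial
open scoped Classical

noncomputable section

namespace Q5R

open D5 Q5

namespace XRZ1

variable (F : Type) [Field F] [Fintype F] [CharP F 5]

/-- `q ≥ 5`. -/
theorem five_le_qq : (5 : ℝ) ≤ qq F := by
  obtain ⟨n, -, hn⟩ := FiniteField.card F 5
  have h1 : 5 ^ 1 ≤ 5 ^ (n : ℕ) := Nat.pow_le_pow_right (by norm_num) n.pos
  have h2 : 5 ≤ Fintype.card F := by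
    rw [hn]
    simpa using h1
  unfold qq
  exact_mod_cast h2

/-- `v = 0` is a solution. -/
theorem sol_card (hB1 : D5.S_B1 F) (f : F[X]) : (1 : ℝ) ≤ ((sol f).card : ℝ) := by
  obtain ⟨-, -, -, -, h5⟩ := hB1
  have h : 0 < (sol f).card := by
    refine Finset.card_pos.2 ⟨0, (h5 f 0).2 ?_⟩
    unfold IsSol d4
    simp
  exact_mod_cast h

/-- `5 cl5 f = #sol f` on `SQF`. -/
theorem cl5_eq (hB0 : D5.S_B0 F) (hRA9 : S_RA9 F) (g : ℕ) (f : F[X])
    (hf : f ∈ SQF F (2 * g + 2)) : 5 * (cl5 f : ℝ) = (((sol f).card : ℝ) - 1) + 1 := by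
  obtain ⟨-, h2, -, -, -, -⟩ := hB0
  unfold SQF at hf
  obtain ⟨hfM, hfS⟩ := Finset.mem_filter.1 hf
  obtain ⟨hm, hd⟩ := (h2 _ f).1 hfM
  have hG : GoodR f := ⟨hm, hfS, by rw [hd]; exact ⟨g + 1, by ring⟩, by rw [hd]; omega⟩
  have h := hRA9 f hG
  have h' : 5 * (cl5 f : ℝ) = ((sol f).card : ℝ) := by exact_mod_cast h
  rw [h']
  ring

/-- The numbers. -/
theorem final (q N Q S t A J e e₁ : ℝ) (hq : 5 ≤ q) (hN : N = Q - Q / q) (hQ : 0 < Q)
    (he : 0 < e) (he₁ : e₁ = e / 2) (ht0 : 0 < t) (ht : 1 / q = t * t) (hA : A = N + (S - J))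
    (hJ0 : 0 ≤ J) (hJ : J ≤ (5100 / q + e₁) * Q) (hS : |S - 5 * Q| ≤ 1801 * (t * Q)) :
    |A - 6 * N| ≤ (6000 * t + e) * N := by
  have hq0 : 0 < q := by linarith
  obtain ⟨hS1, hS2⟩ := abs_le.1 hS
  have hr : 1 / q ≤ 1 / 5 := one_div_le_one_div_of_le (by norm_num) hq
  have e1 : 5100 / q = 5100 * (1 / q) := by ring
  have e5 : Q / q = Q * (1 / q) := by ring
  rw [e5, ht] at hN
  rw [e1, ht] at hJ
  rw [ht] at hr
  subst he₁
  have ht9 : t ≤ 9 / 20 := by
    by_contra h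
    push Not at h
    have h1 : (9 / 20 : ℝ) * (9 / 20) < t * t := mul_lt_mul'' h h (by norm_num) (by norm_num)
    norm_num at h1
    linarith
  have htQ : 0 < t * Q := by positivity
  have heQ : 0 < e * Q := by positivity
  have k0 : t * t * Q ≤ 9 / 20 * (t * Q) := by
    have := mul_le_mul_of_nonneg_right ht9 htQ.le
    linarith
  have k00 : 0 < t * t * Q := by positivity
  have kr : t * t * Q ≤ 1 / 5 * Q := mul_le_mul_of_nonneg_right hr hQ.le
  have hN' : N = Q - t * t * Q := by rw [hN]; ring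
  have hNQ : 4 / 5 * Q ≤ N := by
    rw [hN']
    linarith
  have k1 : t * (4 / 5 * Q) ≤ t * N := mul_le_mul_of_nonneg_left hNQ ht0.le
  have k2 : e * (4 / 5 * Q) ≤ e * N := mul_le_mul_of_nonneg_left hNQ he.le
  have k3 : (6000 * t + e) * N = 6000 * (t * N) + e * N := by ring
  have k4 : J ≤ 5100 * (t * t * Q) + 1 / 2 * (e * Q) := by
    refine hJ.trans (le_of_eq ?_)
    ring
  have k5 : t * (4 / 5 * Q) = 4 / 5 * (t * Q) := by ring
  have k6 : e * (4 / 5 * Q) = 4 / 5 * (e * Q) := by ring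
  have k7 : 5 * N = 5 * Q - 5 * (t * t * Q) := by rw [hN']; ring
  rw [k5] at k1
  rw [k6] at k2
  rw [hA, abs_le, k3]
  constructor
  · linarith
  · linarith

end XRZ1

open XRZ1 in
theorem p_RZ1 (F : Type) [Field F] [Fintype F] [CharP F 5] (hB0 : D5.S_B0 F) (hB1 : D5.S_B1 F)
    (hRA9 : S_RA9 F) (hRF5 : S_RF5 F) (hRE9 : S_RE9 F) (hRY1 : S_RY1 F) : S_RZ1 F := by
  intro e he
  have hq := five_le_qq F
  have hq0 : 0 < qq F := by linarith
  obtain ⟨g₁, hg₁⟩ := hRY1 (e / 2) (by positivity)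
  refine ⟨g₁ + 1, fun g hg => ?_⟩
  have hY := hg₁ g (by omega)
  have hE := hRE9 g (by omega)
  have hQ : 0 < qq F ^ (2 * g + 2) := by positivity
  refine final (qq F) _ (qq F ^ (2 * g + 2))
    (∑ f ∈ MON F (2 * g + 2), (((sol f).card : ℝ) - 1)) _ _
    (∑ f ∈ (MON F (2 * g + 2)).filter (fun f => ¬ Squarefree f), (((sol f).card : ℝ) - 1))
    e (e / 2) hq ?_ hQ he rfl ?_ ?_ ?_ ?_ ?_ ?_
  · rw [hRF5 g]
    have : qq F ^ (2 * g + 2) / qq F = qq F ^ (2 * g + 1) := by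
      rw [pow_succ (qq F) (2 * g + 1)]
      field_simp
    rw [this]
  · exact Real.rpow_pos_of_pos hq0 _
  · rw [one_div, ← Real.rpow_add hq0, ← Real.rpow_neg_one]
    norm_num
  · rw [Finset.mul_sum, Finset.sum_congr rfl (fun f hf => cl5_eq F hB0 hRA9 g f hf),
      Finset.sum_add_distrib, Finset.sum_const, nsmul_eq_mul, mul_one]
    have h := Finset.sum_filter_add_sum_filter_not (MON F (2 * g + 2)) (fun f => Squarefree f)
      (fun f => ((sol f).card : ℝ) - 1)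
    unfold SQF
    linarith
  · exact Finset.sum_nonneg (fun f _ => by linarith [sol_card F hB1 f])
  · exact le_trans (Finset.sum_le_sum (fun f _ => by linarith)) hY
  · have h : qq F ^ (2 * (g : ℝ) + 3 / 2) =
        qq F ^ (-(1 / 2) : ℝ) * qq F ^ (2 * g + 2) := by
      rw [← Real.rpow_natCast, ← Real.rpow_add hq0]
      congr 1
      push_cast
      ring
    rw [← h]
    exact hE

end Q5R
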