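import Pool.Agent.H461.Q5R.Stm4

set_option autoImplicit false

/-!
# RZ2: at least 95 percent of the real class numbers are prime to 5 (by helper134)
-/

open Polynomial
open scoped Classical

noncomputable section

namespace Q5R

open D5 Q5

namespace XRZ2

variable {F : Type} [Field F] [Fintype F] [CharP F 5]

theorem good_of (hB0 : D5.S_B0 F) (g : ℕ) (f : F[X]) (hf : f ∈ SQF F (2 * g + 2)) : GoodR f := by
  unfold SQF at hf
  rw [Finset.mem_filter, hB0.2.1] at hf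
  refine ⟨hf.1.1, hf.2, ?_, ?_⟩
  · rw [hf.1.2]
    exact ⟨g + 1, by ring⟩
  · rw [hf.1.2]
    omega

/-- the elementary inequality -/
theorem ineq (hC2 : S_RC2 F) {f : F[X]} (hf : GoodR f) :
    5 - (cl5 f : ℝ) ≤ if ¬ 5 ∣ cln f then (4 : ℝ) else 0 := by
  obtain ⟨_, h1, r, hr⟩ := hC2 f hf
  rcases Nat.eq_zero_or_pos r with h0 | h0
  · rw [h0, pow_zero] at hr
    have h2 : ¬ 5 ∣ cln f := by
      rw [← h1, hr]
      exact lt_irrefl 1
    rw [if_pos h2, hr]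
    norm_num
  · have h2 : (5 : ℝ) ≤ (cl5 f : ℝ) := by
      rw [hr]
      push_cast
      calc (5 : ℝ) = 5 ^ 1 := (pow_one 5).symm
        _ ≤ 5 ^ r := pow_le_pow_right₀ (by norm_num) h0
    have h3 : (0 : ℝ) ≤ if ¬ 5 ∣ cln f then (4 : ℝ) else 0 := by
      split_ifs <;> norm_num
    linarith

end XRZ2

open XRZ2

theorem p_RZ2 (F : Type) [Field F] [Fintype F] [CharP F 5] (hB0 : D5.S_B0 F) (hRC2 : S_RC2 F)
    (hRZ1 : S_RZ1 F) : S_RZ2 F := by
  intro ε hε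
  obtain ⟨g₁, hg₁⟩ := hRZ1 ε hε
  refine ⟨g₁, fun g hg => ?_⟩
  have h1 := (abs_le.1 (hg₁ g hg)).2
  obtain ⟨S, hS⟩ : ∃ S : ℝ, S = ((SQF F (2 * g + 2)).card : ℝ) := ⟨_, rfl⟩
  obtain ⟨T, hT⟩ : ∃ T : ℝ, T = qq F ^ (-(1 / 2) : ℝ) := ⟨_, rfl⟩
  rw [← hS, ← hT] at h1
  rw [← hS, ← hT]
  have hS0 : 0 ≤ S := by
    rw [hS]
    exact Nat.cast_nonneg _
  have h2 := Finset.sum_le_sum fun f (hf : f ∈ SQF F (2 * g + 2)) =>
    ineq hRC2 (good_of hB0 g f hf)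
  rw [Finset.sum_sub_distrib, Finset.sum_const, nsmul_eq_mul, ← hS, ← Finset.sum_filter,
    Finset.sum_const, nsmul_eq_mul] at h2
  have h3 : 0 ≤ ε * S := by positivity
  have h4 : (19 / 20 - 300 * T - ε) * S = 19 / 20 * S - 300 * (T * S) - ε * S := by ring
  have h5 : (6000 * T + ε) * S = 6000 * (T * S) + ε * S := by ring
  rw [h4]
  rw [h5] at h1
  linarith

end Q5R
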