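import Pool.Agent.H506.D5.All3
import Pool.Agent.H461.Q5.S8
import Pool.Agent.H461.Q5.S9
import Pool.Agent.H461.Q5.S10
import Pool.Agent.H461.Q5.DV
import Pool.Agent.H461.Q5.F2
import Pool.Agent.H461.Q5R.RA
import Pool.Agent.H461.Q5R.RA7
import Pool.Agent.H461.Q5R.RU1
import Pool.Agent.H461.Q5R.RU2
import Pool.Agent.H461.Q5R.RU
import Pool.Agent.H461.Q5R.RA9
import Pool.Agent.H461.Q5R.RC2
import Pool.Agent.H461.Q5R.RF5
import Pool.Agent.H461.Q5R.R1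
import Pool.Agent.H461.Q5R.R2
import Pool.Agent.H461.Q5R.RG
import Pool.Agent.H461.Q5R.R3
import Pool.Agent.H461.Q5R.R4
import Pool.Agent.H461.Q5R.R7
import Pool.Agent.H461.Q5R.R11
import Pool.Agent.H461.Q5R.RT0
import Pool.Agent.H461.Q5R.RT1
import Pool.Agent.H461.Q5R.RL1
import Pool.Agent.H461.Q5R.RL2
import Pool.Agent.H461.Q5R.RL3
import Pool.Agent.H461.Q5R.RT2
import Pool.Agent.H461.Q5R.RSC
import Pool.Agent.H461.Q5R.RE9
import Pool.Agent.H461.Q5R.RY1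
import Pool.Agent.H461.Q5R.RZ1
import Pool.Agent.H461.Q5R.RZ2

/-!
# The average of the 5-torsion of real quadratic function fields in characteristic 5 is `6/5 + O(q^(-1/2))`: assembly
-/

open Polynomial
open scoped Classical

noncomputable section

namespace Q5R

theorem main (F : Type) [Field F] [Fintype F] [CharP F 5] :
    S_RA F ∧ S_RC2 F ∧ S_RF5 F ∧ S_RZ1 F ∧ S_RZ2 F := by
  have hB0 := D5.p_B0 F
  have hB1 := D5.p_B1 F hB0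
  have hE4 := D5.p_E4 F hB0
  have hH1 := D5.p_H1 F hB0
  have hH2 := D5.p_H2 F hB0
  have hH3 := D5.p_H3 F hB0 hH1 hH2
  have hFR := D5.p_FR F
  have hP0 := D5.p_P0 F hB0 hE4 hH1
  have hP0b := D5.p_P0b F hB0
  have hP1 := D5.p_P1 F hB0 hE4 hH3
  have hQ := D5.p_Q F hB0
  have hSQ := D5.p_SQ F
  have hA1 := D5.p_A1 F
  have hA1b := D5.p_A1b F hA1
  have hS8 := Q5.p_S8 F hB0 hFR hE4 hP0 hP1
  have hS9 := Q5.p_S9 F hB0 hFR hE4 hP0b hS8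
  have hS10 := Q5.p_S10 F hB0 hFR hP0b hS8 hS9
  have hDV := Q5.p_DV F hB0
  have hF2 := Q5.p_F2 F hB1
  have hRA := p_RA F
  have hRA7 := p_RA7 F hA1 hA1b hRA
  have hRU1 := p_RU1 F
  have hRU2 := p_RU2 F hRU1
  have hRU := p_RU F hA1 hRA hRU2
  have hRA9 := p_RA9 F hA1 hB1 hRA hRA7 hRU
  have hRC2 := p_RC2 F hRA
  have hRF5 := p_RF5 F hB0
  have hR1 := p_R1 F hB0
  have hR2 := p_R2 F hB0 hB1 hR1
  have hRG := p_RG F hB0 hE4 hH3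
  have hR3 := p_R3 F hB0 hRG
  have hR4 := p_R4 F hB0 hFR hP1
  have hR7 := p_R7 F hB0 hQ
  have hR11 := p_R11 F hB0 hFR hE4 hP0b hR4 hR7 hS8 hS9
  have hRT0 := p_RT0 F hB0 hS10 hR11
  have hRT1 := p_RT1 F hB0 hSQ hE4 hRT0
  have hRL1 := p_RL1 F hB0 hS8
  have hRL2 := p_RL2 F hB0 hDV hRL1
  have hRL3 := p_RL3 F hE4 hS8 hS10 hRL2
  have hRT2 := p_RT2 F hB0 hR3 hRT1 hRL3
  have hRSC := p_RSC F hB0
  have hRE9 := p_RE9 F hB0 hB1 hR2 hRT2 hRSC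
  have hRY1 := p_RY1 F hB0 hF2 hRE9
  have hRZ1 := p_RZ1 F hB0 hB1 hRA9 hRF5 hRE9 hRY1
  exact ⟨hRA, hRC2, hRF5, hRZ1, p_RZ2 F hB0 hRC2 hRZ1⟩

end Q5R
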