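import Pool.Agent.H461.Q5R.Stm4

/-!
# Q5R RY1: the polynomials `f` which are not squarefree (helper163, edit of `Q5/Y1.lean`, helper763)
-/

set_option linter.unusedSectionVars false

open Polynomial
open scoped Classical

noncomputable section

namespace Q5R

open D5 Q5

variable (F : Type) [Field F] [Fintype F] [CharP F 5]

namespace XRY1

/-- sum of the numbers of solutions -/
def SS (g : ℕ) : ℝ := ∑ f ∈ MON F (2 * g), ((sol f).card : ℝ)

theorem q5 : (5 : ℝ) ≤ qq F := by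
  unfold qq
  obtain ⟨n, hp, hn⟩ := FiniteField.card F 5
  rw [hn]
  have h2 : 5 ^ 1 ≤ 5 ^ (n : ℕ) := Nat.pow_le_pow_right (by norm_num) n.pos
  rw [pow_one] at h2
  exact_mod_cast h2

/-- the bound for large `g` -/
theorem large (hB0 : D5.S_B0 F) (hRE9 : S_RE9 F) {g : ℕ} (hg : 1 ≤ g) :
    SS F (g + 1) ≤ 812 * qq F ^ (2 * (g + 1)) := by
  have h1 := hRE9 g hg
  have hq := q5 F
  have hq0 : 0 < qq F := by linarith
  have e0 : 2 * g + 2 = 2 * (g + 1) := by ring
  rw [e0] at h1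
  have h2 : ∑ f ∈ MON F (2 * (g + 1)), (((sol f).card : ℝ) - 1) =
      SS F (g + 1) - qq F ^ (2 * (g + 1)) := by
    have h5 : ((MON F (2 * (g + 1))).card : ℝ) = qq F ^ (2 * (g + 1)) := by
      rw [hB0.2.2.2.2.1]
      unfold qq
      push_cast
      rfl
    rw [Finset.sum_sub_distrib, Finset.sum_const, nsmul_eq_mul, mul_one, h5]
    rfl
  rw [h2] at h1
  have h3 : 1801 * qq F ^ (2 * (g : ℝ) + 3 / 2) ≤ 806 * qq F ^ (2 * (g + 1)) := by
    have h4 : qq F ^ (2 * (g + 1)) = qq F ^ (2 * (g : ℝ) + 3 / 2) * qq F ^ (1 / 2 : ℝ) := by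
      rw [← Real.rpow_add hq0, ← Real.rpow_natCast]
      congr 1
      push_cast
      ring
    have h5 : (22354 / 10000 : ℝ) ≤ qq F ^ (1 / 2 : ℝ) := by
      rw [← Real.sqrt_eq_rpow]
      apply Real.le_sqrt_of_sq_le
      refine le_trans ?_ hq
      norm_num
    have h6 : 0 < qq F ^ (2 * (g : ℝ) + 3 / 2) := Real.rpow_pos_of_pos hq0 _
    rw [h4]
    have h7 := mul_le_mul_of_nonneg_left h5 h6.le
    linarith
  have h4 := (abs_le.1 h1).2
  linarith

/-- a polynomial which is not squarefree -/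
theorem split (hB0 : D5.S_B0 F) {g : ℕ} {f : F[X]} (hf : f ∈ MON F (2 * g))
    (hs : ¬ Squarefree f) : ∃ (d : ℕ) (P f₁ : F[X]), 1 ≤ d ∧ d ≤ g ∧ P ∈ MON F d ∧
      Irreducible P ∧ f₁ ∈ MON F (2 * (g - d)) ∧ f = P ^ 2 * f₁ := by
  rw [hB0.2.1] at hf
  obtain ⟨hm, hd⟩ := hf
  rw [squarefree_iff_irreducible_sq_not_dvd_of_ne_zero hm.ne_zero] at hs
  push Not at hs
  obtain ⟨x, hx, hxf⟩ := hs
  have hx0 : x ≠ 0 := hx.ne_zero
  obtain ⟨P, hP⟩ : ∃ P : F[X], P = x * C (leadingCoeff x)⁻¹ := ⟨_, rfl⟩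
  have hPm : P.Monic := by rw [hP]; exact monic_mul_leadingCoeff_inv hx0
  have hPi : Irreducible P := by rw [hP]; exact irreducible_mul_leadingCoeff_inv.2 hx
  have hlc : leadingCoeff x ≠ 0 := leadingCoeff_ne_zero.2 hx0
  have hPx : P ^ 2 ∣ x * x := by
    refine ⟨C (leadingCoeff x ^ 2), ?_⟩
    rw [hP]
    have e : C (leadingCoeff x)⁻¹ ^ 2 * C (leadingCoeff x ^ 2) = (1 : F[X]) := by
      rw [← C_pow, ← C_mul, ← mul_pow, inv_mul_cancel₀ hlc, one_pow, C_1]
    calc x * x = x ^ 2 * 1 := by ring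
      _ = x ^ 2 * (C (leadingCoeff x)⁻¹ ^ 2 * C (leadingCoeff x ^ 2)) := by rw [e]
      _ = _ := by ring
  obtain ⟨f₁, hf₁⟩ := hPx.trans hxf
  have hP2 : (P ^ 2).Monic := hPm.pow 2
  have hf₁m : f₁.Monic := by
    refine hP2.of_mul_monic_left ?_
    rw [← hf₁]
    exact hm
  have hdeg : 2 * g = 2 * P.natDegree + f₁.natDegree := by
    rw [← hd, hf₁, hP2.natDegree_mul hf₁m, hPm.natDegree_pow]
  have hP1 : 0 < P.natDegree := hPi.natDegree_pos
  refine ⟨P.natDegree, P, f₁, hP1, by omega, ?_, hPi, ?_, hf₁⟩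
  · rw [hB0.2.1]
    exact ⟨hPm, rfl⟩
  · rw [hB0.2.1]
    exact ⟨hf₁m, by omega⟩

/-- the sum over the polynomials which are not squarefree -/
theorem key (hB0 : D5.S_B0 F) (hF2 : Q5.S_F2 F) (g : ℕ) :
    ∑ f ∈ (MON F (2 * g)).filter (fun f => ¬ Squarefree f), ((sol f).card : ℝ) ≤
      ∑ d ∈ Finset.Icc 1 g, 5 * (qq F ^ d * SS F (g - d)) := by
  have h1 : ∀ f : F[X], f ∈ (MON F (2 * g)).filter (fun f => ¬ Squarefree f) →
      ∃ t : (_ : ℕ) × (F[X] × F[X]), t ∈ (Finset.Icc 1 g).sigma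
        (fun d => (MON F d) ×ˢ (MON F (2 * (g - d)))) ∧ f = t.2.1 ^ 2 * t.2.2 ∧
        ((sol f).card : ℝ) ≤ 5 * ((sol t.2.2).card : ℝ) := by
    intro f hf
    rw [Finset.mem_filter] at hf
    obtain ⟨d, P, f₁, hd1, hd2, hP, hPi, hf₁, he⟩ := split F hB0 hf.1 hf.2
    refine ⟨⟨d, (P, f₁)⟩, ?_, he, ?_⟩
    · rw [Finset.mem_sigma, Finset.mem_Icc, Finset.mem_product]
      exact ⟨⟨hd1, hd2⟩, hP, hf₁⟩
    · have hne : f₁ ≠ 0 := ((hB0.2.1 _ _).1 hf₁).1.ne_zero
      have h2 := hF2 P f₁ hPi hne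
      rw [← he] at h2
      exact_mod_cast h2
  choose! ψ hψ1 hψ2 hψ3 using h1
  have h5 : ∑ f ∈ (MON F (2 * g)).filter (fun f => ¬ Squarefree f), ((sol f).card : ℝ) ≤
      ∑ f ∈ (MON F (2 * g)).filter (fun f => ¬ Squarefree f),
        5 * ((sol (ψ f).2.2).card : ℝ) := Finset.sum_le_sum fun f hf => hψ3 f hf
  have hinj : Set.InjOn ψ ((MON F (2 * g)).filter (fun f => ¬ Squarefree f) : Finset F[X]) := by
    intro a ha b hb hab
    rw [hψ2 a ha, hψ2 b hb, hab]
  have h6 : ∑ f ∈ (MON F (2 * g)).filter (fun f => ¬ Squarefree f),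
        5 * ((sol (ψ f).2.2).card : ℝ) =
      ∑ t ∈ ((MON F (2 * g)).filter (fun f => ¬ Squarefree f)).image ψ,
        5 * ((sol t.2.2).card : ℝ) := by
    rw [Finset.sum_image hinj]
  have h7 : ∑ t ∈ ((MON F (2 * g)).filter (fun f => ¬ Squarefree f)).image ψ,
        5 * ((sol t.2.2).card : ℝ) ≤ ∑ t ∈ (Finset.Icc 1 g).sigma
        (fun d => (MON F d) ×ˢ (MON F (2 * (g - d)))), 5 * ((sol t.2.2).card : ℝ) := by
    refine Finset.sum_le_sum_of_subset_of_nonneg ?_ (fun t _ _ => by positivity)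
    intro t ht
    rw [Finset.mem_image] at ht
    obtain ⟨f, hf, rfl⟩ := ht
    exact hψ1 f hf
  have h8 : ∑ t ∈ (Finset.Icc 1 g).sigma
        (fun d => (MON F d) ×ˢ (MON F (2 * (g - d)))), 5 * ((sol t.2.2).card : ℝ) =
      ∑ d ∈ Finset.Icc 1 g, 5 * (qq F ^ d * SS F (g - d)) := by
    rw [Finset.sum_sigma]
    refine Finset.sum_congr rfl fun d _ => ?_
    rw [Finset.sum_product]
    have h9 : ((MON F d).card : ℝ) = qq F ^ d := by
      rw [hB0.2.2.2.2.1]
      unfold qq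
      push_cast
      rfl
    simp only [Finset.sum_const, nsmul_eq_mul]
    rw [h9]
    unfold SS
    rw [← Finset.mul_sum]
    ring
  exact h5.trans (h6.le.trans (h7.trans h8.le))

/-- the geometric sum -/
theorem geo {q : ℝ} (hq : 5 ≤ q) (g : ℕ) : ∑ d ∈ Finset.Icc 1 g, (1 / q) ^ d ≤ 5 / (4 * q) := by
  have hq0 : 0 < q := by linarith
  have h1 : ∀ g : ℕ, ∑ d ∈ Finset.Icc 1 g, (1 / q) ^ d = (1 - (1 / q) ^ g) / (q - 1) := by
    intro g
    induction g with
    | zero => simp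
    | succ g ih =>
      have h2 : q - 1 ≠ 0 := by
        have h3 : 0 < q - 1 := by linarith
        exact h3.ne'
      have h4 : q * (1 / q) = 1 := mul_one_div_cancel hq0.ne'
      rw [Finset.sum_Icc_succ_top (by omega), ih, div_add' _ _ _ h2, div_left_inj' h2, pow_succ]
      linear_combination ((1 / q) ^ g) * h4
  rw [h1]
  have h2 : 0 < (1 / q) ^ g := by positivity
  rw [div_le_div_iff₀ (by linarith) (by linarith)]
  nlinarith

end XRY1

theorem p_RY1 (F : Type) [Field F] [Fintype F] [CharP F 5] (hB0 : D5.S_B0 F)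
    (hF2 : Q5.S_F2 F) (hRE9 : S_RE9 F) : S_RY1 F := by
  intro ε hε
  obtain ⟨g₁, h1⟩ : ∃ g₁ : ℕ, ∀ g ≥ g₁, XRY1.SS F g ≤ 812 * qq F ^ (2 * g) := by
    refine ⟨2, fun g hg => ?_⟩
    obtain ⟨k, rfl⟩ : ∃ k, g = k + 1 := ⟨g - 1, by omega⟩
    exact XRY1.large F hB0 hRE9 (by omega)
  have hq := XRY1.q5 F
  have hq0 : 0 < qq F := by linarith
  have hr0 : 0 ≤ 1 / qq F := by positivity
  have hr1 : 1 / qq F < 1 := by
    rw [div_lt_one hq0]
    linarith
  have hSS0 : ∀ g, 0 ≤ XRY1.SS F g := fun g => by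
    unfold XRY1.SS
    positivity
  obtain ⟨C, hC, h2⟩ : ∃ C : ℝ, 0 < C ∧ ∀ g : ℕ, XRY1.SS F g ≤ C * qq F ^ (2 * g) := by
    refine ⟨812 + ∑ j ∈ Finset.range g₁, XRY1.SS F j, ?_, fun g => ?_⟩
    · have := Finset.sum_nonneg fun j (_ : j ∈ Finset.range g₁) => hSS0 j
      linarith
    · have hs := Finset.sum_nonneg fun j (_ : j ∈ Finset.range g₁) => hSS0 j
      have hp1 : (1 : ℝ) ≤ qq F ^ (2 * g) := one_le_pow₀ (by linarith)
      by_cases hg : g₁ ≤ g
      · have h := h1 g hg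
        have h' := mul_nonneg hs (zero_le_one.trans hp1)
        rw [add_mul]
        linarith
      · have h := Finset.single_le_sum (f := fun j => XRY1.SS F j) (fun j _ => hSS0 j)
          (Finset.mem_range.2 (not_le.1 hg))
        have h' := mul_le_mul_of_nonneg_left hp1 hs
        have h'' : (0 : ℝ) ≤ 812 * qq F ^ (2 * g) := by positivity
        rw [add_mul]
        linarith
  -- the tail
  have h3 : Filter.Tendsto (fun m : ℕ => 5 * C * g₁ * (1 / qq F) ^ m) Filter.atTop (nhds 0) := by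
    have h4 := (tendsto_pow_atTop_nhds_zero_of_lt_one hr0 hr1).const_mul (5 * C * (g₁ : ℝ))
    rwa [mul_zero] at h4
  obtain ⟨m₀, hm₀⟩ := Filter.eventually_atTop.1 (h3.eventually_lt_const hε)
  have main : ∀ g ≥ g₁ + m₀, ∑ f ∈ (MON F (2 * g)).filter (fun f => ¬ Squarefree f),
      ((sol f).card : ℝ) ≤ (5100 / qq F + ε) * qq F ^ (2 * g) := by
    intro g hg
    have hQ : 0 < qq F ^ (2 * g) := pow_pos hq0 _
    refine (XRY1.key F hB0 hF2 g).trans ?_
    have h5 : ∀ d ∈ Finset.Icc 1 g, 5 * (qq F ^ d * XRY1.SS F (g - d)) ≤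
        4060 * qq F ^ (2 * g) * (1 / qq F) ^ d +
        (if g - d < g₁ then 5 * C * qq F ^ (2 * g) * (1 / qq F) ^ (g - g₁) else 0) := by
      intro d hd
      rw [Finset.mem_Icc] at hd
      have hqd : 0 < qq F ^ d := pow_pos hq0 d
      have e0 : ∀ k : ℕ, 2 * g = k + d + d →
          qq F ^ d * qq F ^ k = qq F ^ (2 * g) * (1 / qq F) ^ d := by
        intro k hk
        have e2 : qq F ^ d * (1 / qq F) ^ d = 1 := by
          rw [← mul_pow, mul_one_div_cancel hq0.ne', one_pow]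
        rw [hk, pow_add, pow_add, mul_assoc (qq F ^ k * qq F ^ d), e2, mul_one, mul_comm]
      have e : qq F ^ d * qq F ^ (2 * (g - d)) = qq F ^ (2 * g) * (1 / qq F) ^ d :=
        e0 _ (by omega)
      have hpos : 0 < qq F ^ (2 * g) * (1 / qq F) ^ d := by positivity
      split_ifs with hc
      · have h6 := mul_le_mul_of_nonneg_left (h2 (g - d)) hqd.le
        have h7 : (1 / qq F) ^ d ≤ (1 / qq F) ^ (g - g₁) :=
          pow_le_pow_of_le_one hr0 hr1.le (by omega)
        have h8 : qq F ^ (2 * g) * (1 / qq F) ^ d ≤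
            qq F ^ (2 * g) * (1 / qq F) ^ (g - g₁) := mul_le_mul_of_nonneg_left h7 hQ.le
        have h9 : qq F ^ d * (C * qq F ^ (2 * (g - d))) =
            C * (qq F ^ (2 * g) * (1 / qq F) ^ d) := by
          rw [← e]
          ring
        have h10 := mul_le_mul_of_nonneg_left h8 hC.le
        rw [h9] at h6
        linarith
      · have h6 := mul_le_mul_of_nonneg_left (h1 (g - d) (by omega)) hqd.le
        have h9 : qq F ^ d * (812 * qq F ^ (2 * (g - d))) =
            812 * (qq F ^ (2 * g) * (1 / qq F) ^ d) := by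
          rw [← e]
          ring
        rw [h9] at h6
        linarith
    refine (Finset.sum_le_sum h5).trans ?_
    rw [Finset.sum_add_distrib, ← Finset.mul_sum]
    have h11 := XRY1.geo hq g
    have h12 : 4060 * qq F ^ (2 * g) * ∑ d ∈ Finset.Icc 1 g, (1 / qq F) ^ d ≤
        4060 * qq F ^ (2 * g) * (5 / (4 * qq F)) :=
      mul_le_mul_of_nonneg_left h11 (by positivity)
    have h13 : 4060 * qq F ^ (2 * g) * (5 / (4 * qq F)) ≤
        5100 / qq F * qq F ^ (2 * g) := by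
      have e : 4060 * qq F ^ (2 * g) * (5 / (4 * qq F)) =
          5075 / qq F * qq F ^ (2 * g) := by
        field_simp
        ring
      rw [e]
      refine mul_le_mul_of_nonneg_right ?_ hQ.le
      exact div_le_div_of_nonneg_right (by norm_num) hq0.le
    have h14 : ∑ d ∈ Finset.Icc 1 g,
        (if g - d < g₁ then 5 * C * qq F ^ (2 * g) * (1 / qq F) ^ (g - g₁) else 0) ≤
        ε * qq F ^ (2 * g) := by
      rw [← Finset.sum_filter, Finset.sum_const, nsmul_eq_mul]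
      have h15 : ((Finset.Icc 1 g).filter (fun d => g - d < g₁)).card ≤ g₁ := by
        have h16 : ((Finset.Icc 1 g).filter (fun d => g - d < g₁)) ⊆
            (Finset.range g₁).image (fun j => g - j) := by
          intro d hd
          rw [Finset.mem_filter, Finset.mem_Icc] at hd
          rw [Finset.mem_image]
          exact ⟨g - d, Finset.mem_range.2 hd.2, by omega⟩
        exact (Finset.card_le_card h16).trans (Finset.card_image_le.trans_eq (Finset.card_range _))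
      have h17 : ((((Finset.Icc 1 g).filter (fun d => g - d < g₁)).card : ℕ) : ℝ) ≤ g₁ := by
        exact_mod_cast h15
      have h18 := hm₀ (g - g₁) (by omega)
      have h19 : 0 ≤ 5 * C * qq F ^ (2 * g) * (1 / qq F) ^ (g - g₁) := by positivity
      refine (mul_le_mul_of_nonneg_right h17 h19).trans ?_
      have e : (g₁ : ℝ) * (5 * C * qq F ^ (2 * g) * (1 / qq F) ^ (g - g₁)) =
          (5 * C * g₁ * (1 / qq F) ^ (g - g₁)) * qq F ^ (2 * g) := by ring
      rw [e]
      exact mul_le_mul_of_nonneg_right h18.le hQ.le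
    rw [add_mul]
    linarith
  refine ⟨g₁ + m₀, fun g hg => ?_⟩
  exact main (g + 1) (by omega)

end Q5R
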