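import Pool.Agent.H461.Q5.Stm3

/-!
# Project D5/Q5, real case (helper461): the average of the 5-torsion of REAL quadratic function fields in characteristic 5 is `6/5 + O(q^(-1/2))`

`F` is a finite field of characteristic 5, `q = #F`, `f` monic squarefree of degree `2 g + 2`.  Most tasks are EDITS of finished files
`Pool/Agent/H461/Q5/*.lean` (imaginary case, degree `2 g + 1`), `Pool/Agent/H506/D5/*.lean` and `Pool/Agent/H731/P5/*.lean`.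
Here `v` has degree `≤ g` (`v ∈ POL (g+1)`), the forms live on `POL (2g+2)`; the linear forms `l : Fin g → F`, `rr`, `bb`, `VP`, `S8`, `S9`, `S10` are unchanged.
-/

open Polynomial
open scoped Classical

noncomputable section

namespace Q5R

open D5 Q5

/-- monic, squarefree, of positive even degree. -/
def GoodR {F : Type} [Field F] (f : F[X]) : Prop := f.Monic ∧ Squarefree f ∧ Even f.natDegree ∧ 0 < f.natDegree

/-- The order of the radical of `(z, y) ↦ Lam (v z y)` on the polynomials of degree `≤ 2g+1`. -/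
def KR {F : Type} [Field F] [Fintype F] (g : ℕ) (l : Fin g → F) (v : F[X]) : ℕ :=
  ((POL F (2 * g + 2)).filter (fun z => ∀ y ∈ POL F (2 * g + 2), Lam g l (v * z * y) = 0)).card

/-- The linear form `z ↦ Lam (v z X^(2g+2))` vanishes on the radical. -/
def EXR {F : Type} [Field F] [Fintype F] (g : ℕ) (l : Fin g → F) (v : F[X]) : Prop :=
  ∀ z ∈ POL F (2 * g + 2), (∀ y ∈ POL F (2 * g + 2), Lam g l (v * z * y) = 0) → Lam g l (v * z * X ^ (2 * g + 2)) = 0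

/-- `KR` if `EXR`, otherwise `0`. -/
def KR1 {F : Type} [Field F] [Fintype F] (g : ℕ) (l : Fin g → F) (v : F[X]) : ℕ := if EXR g l v then KR g l v else 0

/-- The radical has `q ^ k ≥ q` elements and is generated by `z` of degree exactly `2g+2-k`. -/
def GER {F : Type} [Field F] [Fintype F] (g : ℕ) (l : Fin g → F) (v : F[X]) (k : ℕ) (z : F[X]) : Prop :=
  KR g l v = Fintype.card F ^ k ∧ 1 ≤ k ∧ z ≠ 0 ∧ z.natDegree + k = 2 * g + 2 ∧ ∀ i, i < 2 * g + 2 + k → Lam g l (v * z * X ^ i) = 0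

/-- The radical comes from `b₁`. -/
def LOWR {F : Type} [Field F] [Fintype F] (g : ℕ) (l : Fin g → F) (v : F[X]) (k : ℕ) : Prop :=
  2 * rr g l ≤ g ∧ ∃ z α : F[X], GER g l v k z ∧ v * z = (bb g l).1 ^ 5 * α ∧ α ∈ POL F (3 * g + 3 - k - 5 * rr g l)

/-- The radical does not come from `b₁`. -/
def BIGR {F : Type} [Field F] [Fintype F] (g : ℕ) (l : Fin g → F) (v : F[X]) (k : ℕ) : Prop :=
  ∃ z : F[X], GER g l v k z ∧ (2 * rr g l ≤ g → ¬ ∃ α ∈ POL F (3 * g + 3 - k - 5 * rr g l), v * z = (bb g l).1 ^ 5 * α)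

/-- The pairs `(α, β)` which can occur. -/
def ABR (F : Type) [Field F] [Fintype F] (A A' : ℕ) : Finset (F[X] × F[X]) :=
  (POL F A ×ˢ POL F A').filter (fun p => (p.1 ≠ 0 ∨ p.2 ≠ 0) ∧ (p.2 ≠ 0 ∨ A = A'))

/-- The logarithmic derivatives of the units. -/
def LU {F : Type} [Field F] [Fintype F] (f : F[X]) : Finset F[X] :=
  (POL F f.natDegree).filter (fun v => ∃ u : OO f, IsUnit u ∧ dl f u = cc f v * u)

variable (F : Type) [Field F] [Fintype F] [CharP F 5]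

/-! ## Algebra -/

/-- **RA** (known: `Pool.Agent.H731.P5`, files A3, A4, A8, for all squarefree `f` of degree `≥ 1`) -/
def S_RA : Prop :=
  ∀ f : F[X], GoodR f → IsDedekindDomain (OO f) ∧
    (∀ x : OO f, dl f x = 0 → ∃ y : OO f, x = y ^ 5) ∧
    (∀ h₁ h₂ : OO f, h₁ ≠ 0 → h₂ ≠ 0 → h₁ * dl f h₂ = h₂ * dl f h₁ →
      ∃ c e : OO f, c ≠ 0 ∧ e ≠ 0 ∧ h₁ * e ^ 5 = h₂ * c ^ 5) ∧
    (∀ h : OO f, h ≠ 0 → ∀ I : Ideal (OO f), I ^ 5 = Ideal.span {h} → ∃ v : F[X], IsSol f v ∧ dl f h = cc f v * h)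

/-- **RA7** (uses `D5.S_A1`, `D5.S_A1b`, `D5.S_B1`, RA; edit of the files `D5/A5.lean`, `D5/A6.lean`, `D5/A7.lean`, where `Good` (odd degree) is used only for: `OO f` is a domain
(Dedekind), `f` is squarefree; `cc P` is a unit only if `P` is constant (for A5): if `cc P * (a + b s) = 1` then `P a = 1`). -/
def S_RA7 : Prop :=
  ∀ f : F[X], GoodR f → ∀ v : F[X], IsSol f v →
    ∃ h : OO f, h ≠ 0 ∧ dl f h = cc f v * h ∧ ∃ I : Ideal (OO f), I ^ 5 = Ideal.span {h}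

/-- **RU1** (PELL: existence of a nonconstant unit) `a² - f b² = c` with `b ≠ 0` and a constant `c ≠ 0`.
Proof: `deg f = 2m`, `m ≥ 1`, `f` monic.  (1) for every `M` there is `S` of degree `M + m` with `deg (X^(2M) f - S²) < M + m` (square root by undetermined coefficients from the top, characteristic `≠ 2`; induction:
if `deg (X^(2M) f - S²) ≤ M + m + i` change `S` by `c X^i`).  (2) For `N` and `M = 2N + 1` there are `b ≠ 0`, `deg b ≤ N`, and `a` with `deg (a X^M - b S) < M - N`: the coefficients of `b S` at `X^i`, `M - N ≤ i < M`, are `N` linear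
conditions on the `N + 1` coefficients of `b` (dimension or pigeonhole), and `a` = the quotient of `b S` by `X^M`, `deg a ≤ deg b + m`.  Then `X^(2M) (a² - f b²) = (a X^M - b S)(a X^M + b S) - b² (X^(2M) f - S²)` has degree `< 2M + m`, so
`n = a² - f b²` has degree `< m`, and `n ≠ 0` (`f` is not a square: squarefree of positive degree); and `2M ≤ deg (X^(2M) n) ≤ max (M - N - 1 + M + m + deg b, 2 deg b + M + m - 1)`, so `deg b ≥ N - m` or so: `deg b → ∞` with `N`.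
(3) Infinitely many `(a, b)`, finitely many `(n, a mod n, b mod n)`: two of them, `(a₁, b₁)`, `(a₂, b₂)`, `deg b₁ ≠ deg b₂`, with the same `n` and `a₁ ≡ a₂`, `b₁ ≡ b₂ mod n`.  Then `n` divides `a₁ a₂ - f b₁ b₂ ≡ a₁² - f b₁² = n ≡ 0` and `a₂ b₁ - a₁ b₂`;
the quotients `a, b` satisfy `a² - f b² = 1` (`(a₁a₂ - f b₁b₂)² - f (a₂b₁ - a₁b₂)² = n²`), and `b ≠ 0`: otherwise `a₂ b₁ = a₁ b₂` and then `b₂² n = b₂²(a₁² - f b₁²) = b₁² n`, `deg b₁ = deg b₂`. -/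
def S_RU1 : Prop :=
  ∀ f : F[X], GoodR f → ∃ (a b : F[X]) (c : F), b ≠ 0 ∧ c ≠ 0 ∧ a ^ 2 - f * b ^ 2 = C c

/-- **RU2** (uses RU1) the units: there are `e e' = 1`, `e` not constant, and every unit is a constant times a power of `e` or `e'`.
Proof: the units are the `u = a + b s` with `N(u) = a² - f b² = c` a nonzero constant (`u * conj u = c`; `N` is multiplicative; a unit of `F[X]` is constant).  Let `e = α + β s` be a unit with `β ≠ 0` and `deg α = m₀` minimal (RU1); `e' = conj e / c₀`, `c₀ = N(e)`.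
Claim, by strong induction on `deg a`: every unit `u = a + b s` is `c e^k` or `c e'^k`.  If `b = 0`, `u` is a constant.  Otherwise `deg a = m ≥ m₀` and `2 deg a = deg f + 2 deg b` (`deg a ≥ 1`).  Put `P = a α + f b β`, `Q = a α - f b β` (the first coordinates of `u e`, `u conj e`).
`P Q = a² α² - (a² - c)(α² - c₀) = c₀ a² + c α² - c c₀` has degree `≤ 2m`; and `P + Q = 2 a α` has degree `m + m₀`, so one of `P, Q` has degree `≥ m + m₀` and the other (nonzero or zero) has degree `≤ m - m₀ < m` (`m₀ ≥ 1`).  Say `deg Q < m`: apply the induction to `u e'`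
(first coordinate `Q/c₀`), so `u = c e^k e` or `u = c e'^k e` (`= c e'^(k-1)` or `c e`).  Similarly for `P`. -/
def S_RU2 : Prop :=
  ∀ f : F[X], GoodR f → ∃ e e' : OO f, e * e' = 1 ∧ e.im ≠ 0 ∧
    ∀ u : OO f, IsUnit u → ∃ (c : F) (k : ℕ), c ≠ 0 ∧ (u = cc f (C c) * e ^ k ∨ u = cc f (C c) * e' ^ k)

/-- **RU** (uses `D5.S_A1`, `D5.S_B1`, RA, RU2) `#LU f = 5`.
Proof: `δ e = w e` with `w = e' δ e = α + β s`; `N(e) = e conj e` is a nonzero constant `c₀`, and `0 = δ(c₀) = (w - conj w) c₀ = 2 β s c₀` (`δ (conj x) = - conj (δ x)`, see the proof of `D5.S_A8`), so `β = 0` and `w = cc v₁`, `v₁ ∈ F[X]`, of degree `< deg f`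
(`δ e = cc v₁ e` and degrees: for `e = a + b s`: `a' = v₁ b`, and `2 deg a = deg f + 2 deg b`, so `deg v₁ < deg a - deg b ≤ deg f`).  Every unit is `c e^k` or `c e'^k`, with `δ u = ± k v₁ u`; so `LU f = {k v₁ : k = 0, …, 4}`.  `v₁ ≠ 0`: otherwise `δ e = 0`, `e = y ^ 5` (RA), `y` is a unit,
`y = c e^k` or `c e'^k`, `e = c⁵ e^(5k)` or `c⁵ e'^(5k)`, so a power `e^n`, `n ≥ 1`, is a constant; but `e` has infinite order modulo constants: if `e^n = C c`, `n ≥ 1`, take `n = 5^t n'`, `5 ∤ n'`... simplest: the degree of the first coordinate of `e^n` is `n deg a`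
(if `lc a = η lc b`, `η = ±1`, then `lc` of the coordinates of `e^n` are `2^(n-1) (lc a)^n` and `η` times this: induction). -/
def S_RU : Prop := ∀ f : F[X], GoodR f → (LU f).card = 5

/-- **RA9** (uses `D5.S_A1`, `D5.S_B1`, RA, RA7, RU; edit of `D5/A9.lean`) for `f` monic squarefree of even degree `5 · #Cl[5] = #sol f`.
Proof: relation `R v c`: there are `h ≠ 0`, `I`, `I ^ 5 = (h)`, `δ h = v h`, class of `I` is `c`.  As in `D5.A9` every solution `v` has exactly one `c`, `c ^ 5 = 1`, and every `c` with `c ^ 5 = 1` has some solution `v`.  The solutions `v'` of the same `c` are the `v + w`, `w ∈ LU f`: `(x) I = (y) I'`,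
`x ^ 5 h = u y ^ 5 h'` with `u` a unit, `v = w_u + v'`; and `(u h, I)` has `v + w_u`.  So each `c` has exactly 5 solutions. -/
def S_RA9 : Prop := ∀ f : F[X], GoodR f → 5 * cl5 f = (sol f).card

/-- **RC2** (uses RA; compare `D5/C2.lean`; that the class group is finite: see `Pool/Agent/H731` and `Pool/Agent/Results/MP_16912e_nt/BoundedRealAndImaginary.lean`) -/
def S_RC2 : Prop :=
  ∀ f : F[X], GoodR f → 0 < cln f ∧ (1 < cl5 f ↔ 5 ∣ cln f) ∧ ∃ r : ℕ, cl5 f = 5 ^ r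

/-- **RF5** (uses B0; edit of `D5/MU.lean`, `D5/F5.lean`) -/
def S_RF5 : Prop := ∀ g : ℕ, ((SQF F (2 * g + 2)).card : ℝ) = qq F ^ (2 * g + 2) - qq F ^ (2 * g + 1)

/-! ## Analysis -/

/-- **R1** (uses B0; edit of `Q5/S1.lean`, with `n = 2g+2`) -/
def S_R1 : Prop :=
  ∀ (ψ : AddChar F ℂ), ψ ≠ 1 → ∀ (g : ℕ) (l : Fin g → F) (v : F[X]),
    ‖∑ f ∈ MON F (2 * g + 2), ψ (Lam g l (f ^ 2 * v))‖ ^ 2 ≤ qq F ^ (2 * g + 2) * (KR1 g l v : ℝ)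

/-- **R2** (uses B0, B1, R1; edit of `Q5/S2.lean`) Proof: B1 (3): `IsSol f v` iff `(f² v)_{5j+4} = v_j⁵` for all `j`; `deg (f² v) ≤ 5g+4`, so for `j > g` both sides are `0`; for `j = g` the coefficient of `X^(5g+4)` in `f² v` (`f²` monic of degree `4g+4`) is `v_g`; the conditions
`j < g` are counted with `l ∈ F^g` as in S2. -/
def S_R2 : Prop :=
  ∀ (g : ℕ) (v : F[X]), v ∈ POL F (g + 1) →
    (v.coeff g ^ 5 ≠ v.coeff g → (MON F (2 * g + 2)).filter (fun f => IsSol f v) = ∅) ∧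
    (v.coeff g ^ 5 = v.coeff g → |qq F ^ g * (((MON F (2 * g + 2)).filter (fun f => IsSol f v)).card : ℝ) - qq F ^ (2 * g + 2)| ≤
      ∑ l ∈ (Finset.univ : Finset (Fin g → F)).filter (fun l => l ≠ 0), Real.sqrt (qq F ^ (2 * g + 2) * (KR1 g l v : ℝ)))

/-- **RG** (uses B0, E4, H3; edit of `D5/G.lean` with `2g+2` in place of `2g+1`, `v ∈ POL (g+1)`) structure of the radical. -/
def S_RG : Prop :=
  ∀ (g : ℕ) (l : Fin g → F) (v : F[X]), v ∈ POL F (g + 1) → v ≠ 0 → ∃ (k : ℕ) (z : F[X]),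
    KR g l v = Fintype.card F ^ k ∧ k ≤ 2 * g + 2 ∧ z ≠ 0 ∧
      (1 ≤ k → z ∈ POL F (2 * g + 3 - k) ∧ ∀ i, i < 2 * g + 1 + k → Lam g l (v * z * X ^ i) = 0)

/-- **R3** (uses B0, RG; edit of `Q5/S3.lean`) -/
def S_R3 : Prop :=
  ∀ (g : ℕ) (l : Fin g → F) (v : F[X]), v ∈ POL F (g + 1) → v ≠ 0 → EXR g l v → KR g l v = 1 ∨ ∃ (k : ℕ) (z : F[X]), GER g l v k z

/-- **R4** (uses B0, FR, P1; edit of `Q5/S4.lean`) with `K_s = (2g+2+k+s)/5`, `J_s = g+1-K_s`: `w_s` (coefficients `w_{5i+s}`, `5i+s < 3g+3-k`) is in `POL J_s` as `(3g+3-k-s) + (2g+2+k+s) = 5(g+1)`; for `i < K_s`, `5i+4-s ≤ 2g+1+k`;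
the degree of `X^s α_s(X⁵)`, `α_s ∈ POL (J_s - d)`, is `≤ 5 (J_s-d-1) + s ≤ 3g+2-k-5d`. -/
def S_R4 : Prop :=
  ∀ (g : ℕ) (l : Fin g → F) (b₁ b₂ : F[X]), 1 ≤ rr g l → Val g l (rr g l) (fr b₁) (fr b₂) →
    ∀ (k : ℕ) (w : F[X]), k ≤ 2 * g + 2 → w ∈ POL F (3 * g + 3 - k) → (∀ i, i < 2 * g + 2 + k → Lam g l (w * X ^ i) = 0) →
      ∃ α β : F[X], w = b₁ ^ 5 * α + b₂ ^ 5 * β ∧ α ∈ POL F (3 * g + 3 - k - 5 * rr g l) ∧
        β ∈ POL F (3 * g + 3 - k - 5 * (g + 1 - rr g l))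

/-- **R7** (uses B0, Q; edit of `Q5/S7.lean` (simpler) or `D5/R1.lean`) Proof: by Q, `#PR ≤ ∑_{m monic, m ∣ b, α, β} q^(g+3+deg m-j)`.  For `deg m = i`: `q^i` polynomials `m`, `≤ q^(j+1-i)` polynomials `b`, `≤ q^(A-i) q^(A'-i)` pairs `(α, β)`, and none if `i ≥ A'`
(then `β = 0`, so `A = A'` and `α = 0`).  So the sum is `≤ q^(g+4+A+A') ∑_i q^(-i)`. -/
def S_R7 : Prop :=
  ∀ (g d₁ d₂ j A A' : ℕ), d₁ + d₂ = g + 1 → 1 ≤ d₁ → 1 ≤ d₂ → j ≤ g + 2 → A' ≤ A →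
    ∑ b ∈ (DEG F j).filter (fun b => Squarefree b), ∑ p ∈ ABR F A A', ((PR d₁ d₂ b p.1 p.2).card : ℝ) ≤ 2 * qq F ^ (g + 4 + A + A')

/-- **R11** (uses B0, FR, E4, P0b, R4, R7, S8, S9; compare the docstring of `Q5.S_S11` and the files `helper461_Q5_S11.lean`, `helper506_D5_X8.lean`, `D5/R2.lean`)
for `a` monic of degree `n`, `2n+j ≤ g`, `1 ≤ k`, `1 ≤ d`: the number `N` of the pairs `(l, b)` satisfies `N q^(2k) ≤ 5 q^(min (2d) g + g + 1)`.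
Proof: as S11: `w = a² b z` is in `POL (3g+3-k)`; for EVERY `(b₁, b₂) ∈ VP g l`, R4: `w = b₁⁵ α + b₂⁵ β`, `A = 3g+3-k-5d`, `A' = 3g+3-k-5(g+1-d)`, `(α, β) ∈ ABR A A'` (if `2d ≤ g` then `β ≠ 0`, by S8 and `BIGR`; if `2d = g+1` then `A = A'`), `(b₁, b₂) ∈ PR d (g+1-d) b α β`;
the `q - 1` nonzero multiples of `(α, β)` too; each `(b₁, b₂)` is valid for at most `q` forms `l` (P0b (1)); S9: `N · q^(g+4)/(2 q^μ) · (q-1) ≤ q · 2 q^(g+4+A+A')`, `q/(q-1) ≤ 5/4`, and `A + A' = g+1-2k` if `ABR` is not empty. -/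
def S_R11 : Prop :=
  ∀ (g d n j k : ℕ) (a : F[X]), a ∈ MON F n → 2 * n + j ≤ g → 1 ≤ k → 1 ≤ d →
    ((((Finset.univ : Finset (Fin g → F)) ×ˢ DEG F j).filter (fun p => p.1 ≠ 0 ∧ rr g p.1 = d ∧ Squarefree p.2 ∧
      BIGR g p.1 (a ^ 2 * p.2) k)).card : ℝ) * qq F ^ (2 * k) ≤ 5 * qq F ^ (min (2 * d) g + g + 1)

/-- **RT0** (uses B0, S10, R11; edit of `Q5/T0.lean`, simpler: no `g ≥ 45`) `N_k ≤ X = 2 q^μ q^(j+1)` (S10 (1), `μ = min (2d) g`) and `≤ Y = 5 q^(μ+g+1-2k)`, so `N_k ≤ X^(3/5) Y^(2/5) ≤ 2.9 q^(μ+(3/5)(j+1)+(2/5)(g+1)-(4/5)k)`; `√KR = q^(k/2)`; `∑_{k≥1} q^(-3k/10) ≤ 2.7 q^(-3/10)`. -/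
def S_RT0 : Prop :=
  ∀ (g d n j : ℕ) (a : F[X]), a ∈ MON F n → 2 * n + j ≤ g → 1 ≤ d →
    ∑ p ∈ ((Finset.univ : Finset (Fin g → F)) ×ˢ DEG F j).filter (fun p => p.1 ≠ 0 ∧ rr g p.1 = d ∧ Squarefree p.2 ∧
      ∃ k, BIGR g p.1 (a ^ 2 * p.2) k), Real.sqrt (KR g p.1 (a ^ 2 * p.2) : ℝ) ≤
      13 * qq F ^ ((min (2 * d) g : ℕ) + (3 * (j : ℝ) + 2 * (g : ℝ)) / 5 + 3 / 4)

/-- **RT1** (uses B0, SQ, E4, RT0; edit of `Q5/T1.lean`; `u = 0` or `1`) every `v ∈ POL (g+u)` is `a² b`, `2n+j < g+u`; `∑_{j ≤ g+u-1-2n} q^(3j/5) ≤ 1.62 q^(3(g+u-1-2n)/5)`, `∑_n q^n q^(-6n/5) ≤ 3.64`, `∑_{1 ≤ d, 2d ≤ g+1} q^(min (2d) g) ≤ 1.25 q^g`: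
total `≤ 96 q^(g + 3(g+u-1)/5 + 2g/5 + 3/4) = 96 q^(2g + 3/20 + 3u/5)`. -/
def S_RT1 : Prop :=
  ∀ g u : ℕ, u ≤ 1 → ∑ l ∈ (Finset.univ : Finset (Fin g → F)).filter (fun l => l ≠ 0),
    ∑ v ∈ (POL F (g + u)).filter (fun v => v ≠ 0 ∧ ∃ k, BIGR g l v k), Real.sqrt (KR g l v : ℝ) ≤ 100 * qq F ^ (2 * (g : ℝ) + u + 3 / 20)

/-- **RL1** (uses B0, S8; edit of `Q5/L1.lean`) Proof: `v z = b₁⁵ α`, `deg v + 2g+2-k = 5 deg b₁ + deg α`, `deg α ≤ 3g+2-k-5d`; `δ` = the monic gcd of `b₁⁵` and `v`. -/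
def S_RL1 : Prop :=
  ∀ (g : ℕ) (l : Fin g → F) (v : F[X]) (k : ℕ), l ≠ 0 → v ≠ 0 → v ∈ POL F (g + 1) → LOWR g l v k →
    (bb g l).1 ≠ 0 ∧ (bb g l).1.natDegree ≤ rr g l ∧ v.natDegree + 5 * rr g l ≤ g + 5 * (bb g l).1.natDegree ∧
      ∃ δ : F[X], δ.Monic ∧ δ ∣ (bb g l).1 ^ 5 ∧ δ ∣ v ∧ k + 5 * (bb g l).1.natDegree ≤ 2 * g + 2 + δ.natDegree

/-- **RL2** (uses B0, DV (Q5.S_DV), RL1; edit of `Q5/L2.lean`) `u = 0` or `1`.  `√KR = q^(k/2) ≤ ∑_{δ monic, δ ∣ b₁⁵, δ ∣ v} q^((2g+2-5(d-h)+deg δ)/2)`; the `v ≠ 0` divisible by `δ`: at most `q^(g+u-deg δ)` (`h = 0`) resp. `q^(g+1-5h-deg δ)` (`h ≥ 1`, `deg v ≤ g-5h` by RL1). -/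
def S_RL2 : Prop :=
  ∀ (g h u : ℕ) (l : Fin g → F), u ≤ 1 → l ≠ 0 → (bb g l).1.natDegree + h = rr g l →
    (h = 0 → ∑ v ∈ (POL F (g + u)).filter (fun v => v ≠ 0 ∧ ∃ k, LOWR g l v k), Real.sqrt (KR g l v : ℝ) ≤
      2 ^ (rr g l) * qq F ^ (2 * (g : ℝ) + u + 1 - 5 / 2 * (rr g l : ℝ))) ∧
    (1 ≤ h → ∑ v ∈ (POL F (g + u)).filter (fun v => v ≠ 0 ∧ ∃ k, LOWR g l v k), Real.sqrt (KR g l v : ℝ) ≤
      2 ^ (rr g l) * qq F ^ (2 * (g : ℝ) + 2 - 5 / 2 * (rr g l : ℝ) - 5 / 2 * (h : ℝ)))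

/-- **RL3** (uses E4, S8, S10, RL2; edit of `Q5/L3.lean`) total `≤ ∑_d 2^d 2 q^(2d) q^(2g+u+1-5d/2) (1 + ∑_{h≥1} q^(1-7h/2)) ≤ 2.1 q^(2g+u+1) ∑_{d≥1} (2/√q)^d ≤ 2.1 · 2/(1-2/√5) q^(2g+u+1/2)`. -/
def S_RL3 : Prop :=
  ∀ g u : ℕ, u ≤ 1 → ∑ l ∈ (Finset.univ : Finset (Fin g → F)).filter (fun l => l ≠ 0),
    ∑ v ∈ (POL F (g + u)).filter (fun v => v ≠ 0 ∧ ∃ k, LOWR g l v k), Real.sqrt (KR g l v : ℝ) ≤ 120 * qq F ^ (2 * (g : ℝ) + u + 1 / 2)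

/-- **RT2** (uses B0, R3, RT1, RL3; edit of `Q5/T2.lean`) -/
def S_RT2 : Prop :=
  ∀ g u : ℕ, u ≤ 1 → ∑ v ∈ (POL F (g + u)).filter (fun v => v ≠ 0),
    ∑ l ∈ (Finset.univ : Finset (Fin g → F)).filter (fun l => l ≠ 0), Real.sqrt (KR1 g l v : ℝ) ≤ 300 * qq F ^ (2 * (g : ℝ) + u + 1 / 2)

/-- **RSC** (uses B0) scaling: `KR1 g l (c v) = KR1 g l v` for `c ≠ 0`; grouping the `v` of degree exactly `g` by `v = c v₁`, `v₁` monic, and `#{c ≠ 0 : c ^ 5 = c} ≤ 4`. -/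
def S_RSC : Prop :=
  ∀ g : ℕ, (qq F - 1) * ∑ v ∈ (DEG F g).filter (fun v => v.coeff g ^ 5 = v.coeff g),
      ∑ l ∈ (Finset.univ : Finset (Fin g → F)).filter (fun l => l ≠ 0), Real.sqrt (KR1 g l v : ℝ) ≤
    4 * ∑ v ∈ DEG F g, ∑ l ∈ (Finset.univ : Finset (Fin g → F)).filter (fun l => l ≠ 0), Real.sqrt (KR1 g l v : ℝ)

/-- **RE9** (uses B0, B1, R2, RT2, RSC; edit of `Q5/E9.lean`) for `g ≥ 1`: `|∑_{f ∈ MON (2g+2)} (#sol f - 1) - 5 q^(2g+2)| ≤ 1801 q^(2g+3/2)`.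
Proof: the solutions `v ≠ 0` are in `POL (g+1)` (B1 (4), (5)) and have `v_g⁵ = v_g` (R2); the set `V` of the `v ∈ POL (g+1)` with `v_g⁵ = v_g` has `5 q^g` elements (`X⁵ - X` has 5 roots in `F`).  R2 divided by `q^g`: main term `(5 q^g - 1) q^(g+2)`; error `≤ q ∑_{v ∈ V, v ≠ 0} ∑_l √KR1`
`≤ q (300 q^(2g+1/2) + (4/(q-1)) 300 q^(2g+3/2)) ≤ q (300 + 1500) q^(2g+1/2)` (`v_g = 0`: RT2 with `u = 0`; `deg v = g`: RSC and RT2 with `u = 1`; `4/(q-1) ≤ 5/q`), and `q^(g+2) ≤ q^(2g+3/2)`. -/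
def S_RE9 : Prop :=
  ∀ g : ℕ, 1 ≤ g → |∑ f ∈ MON F (2 * g + 2), (((sol f).card : ℝ) - 1) - 5 * qq F ^ (2 * g + 2)| ≤ 1801 * qq F ^ (2 * (g : ℝ) + 3 / 2)

/-- **RY1** (uses B0, B1, F2 (Q5.S_F2), RE9; edit of `Q5/Y1.lean`) for every `ε > 0` and large `g`: `∑_{f ∈ MON (2g+2), f not squarefree} #sol f ≤ (5100/q + ε) q^(2g+2)`.
Proof: `S(g') = ∑_{f ∈ MON (2g'+2)} #sol f ≤ (1 + 5 + 1801/√q) q^(2g'+2) ≤ 812 q^(2g'+2)` for `g' ≥ 1`; `S(0) ≤ q² · q²` (`sol f ⊆ POL 2`).  `f = P² f₁`, `P` monic irreducible of degree `d`, `1 ≤ d ≤ g+1`, `f₁ ∈ MON (2(g+1-d))`; F2: the sum is at most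
`∑_{d=1}^{g-1} q^d 5 · 812 q^(2(g-d)+2) + 5 q^g q⁴ + 5 q^(g+1)` (`d = g+1`: `f₁ = 1`, `sol 1 ⊆ POL 0 = {0}`), `∑_{d≥1} q^(-d) ≤ 5/(4q)`. -/
def S_RY1 : Prop :=
  ∀ ε : ℝ, 0 < ε → ∃ g₀ : ℕ, ∀ g ≥ g₀,
    ∑ f ∈ (MON F (2 * g + 2)).filter (fun f => ¬ Squarefree f), ((sol f).card : ℝ) ≤ (5100 / qq F + ε) * qq F ^ (2 * g + 2)

/-- **RZ1** (uses B0, B1, RA9, RF5, RE9, RY1; edit of `Q5/Z1.lean`) for every `ε > 0` and large `g`: `|5 ∑_{f ∈ SQF (2g+2)} cl5 f - 6 #SQF| ≤ (6000 q^(-1/2) + ε) #SQF`.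
Proof: `5 cl5 f = #sol f` (RA9).  `∑_{SQF} (#sol f - 1)` differs from `5 q^(2g+2)` by at most `(1801 q^(-1/2) + 5100/q + ε) q^(2g+2)`; `#SQF = (1-1/q) q^(2g+2)`; so from `5 #SQF` by at most `(1801 q^(-1/2) + 5105/q + ε) q^(2g+2) ≤ (4090 q^(-1/2) + ε) (5/4) #SQF`. -/
def S_RZ1 : Prop :=
  ∀ ε : ℝ, 0 < ε → ∃ g₀ : ℕ, ∀ g ≥ g₀,
    |5 * ∑ f ∈ SQF F (2 * g + 2), (cl5 f : ℝ) - 6 * ((SQF F (2 * g + 2)).card : ℝ)| ≤
      (6000 * qq F ^ (-(1 / 2) : ℝ) + ε) * ((SQF F (2 * g + 2)).card : ℝ)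

/-- **RZ2** (uses B0, RC2, RZ1; edit of `Q5/Z2.lean`) `(5 - cl5 f)/4 ≤ 1` if `cl5 f = 1` and `≤ 0` otherwise; `(5 - 6/5)/4 = 19/20`, `6000/20 = 300`. -/
def S_RZ2 : Prop :=
  ∀ ε : ℝ, 0 < ε → ∃ g₀ : ℕ, ∀ g ≥ g₀,
    (19 / 20 - 300 * qq F ^ (-(1 / 2) : ℝ) - ε) * ((SQF F (2 * g + 2)).card : ℝ) ≤
      (((SQF F (2 * g + 2)).filter (fun f => ¬ 5 ∣ cln f)).card : ℝ)

end Q5R
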